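import Mathlib

/-!
# Vertically rigid functions with a point of continuity (MP_1755e3_an), owner helper182

If a vertically rigid function has one point of continuity, it is continuous everywhere.
Definitions and exact task statements.
-/

set_option autoImplicit false
open Set Filter Topology

namespace Pool.Agent.H182R3.VR

/-- the affine map `(x, y) ↦ (a x + b y + e, c x + d y + k)` (also used as a vector field) -/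
@[ext] structure Aff where
  a : ℝ
  b : ℝ
  c : ℝ
  d : ℝ
  e : ℝ
  k : ℝ

def act (g : Aff) (p : ℝ × ℝ) : ℝ × ℝ :=
  (g.a * p.1 + g.b * p.2 + g.e, g.c * p.1 + g.d * p.2 + g.k)

/-- the linear part -/
def lin (g : Aff) (v : ℝ × ℝ) : ℝ × ℝ := (g.a * v.1 + g.b * v.2, g.c * v.1 + g.d * v.2)

def dt (g : Aff) : ℝ := g.a * g.d - g.b * g.c

def one : Aff := ⟨1, 0, 0, 1, 0, 0⟩

def comp (g h : Aff) : Aff :=
  ⟨g.a * h.a + g.b * h.c, g.a * h.b + g.b * h.d, g.c * h.a + g.d * h.c, g.c * h.b + g.d * h.d,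
    g.a * h.e + g.b * h.k + g.e, g.c * h.e + g.d * h.k + g.k⟩

noncomputable def inv (g : Aff) : Aff :=
  ⟨g.d / dt g, -g.b / dt g, -g.c / dt g, g.a / dt g, (g.b * g.k - g.d * g.e) / dt g,
    (g.c * g.e - g.a * g.k) / dt g⟩

theorem act_comp (g h : Aff) (p : ℝ × ℝ) : act (comp g h) p = act g (act h p) := by
  ext <;> simp [act, comp] <;> ring

theorem act_one (p : ℝ × ℝ) : act one p = p := by
  ext <;> simp [act, one]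

theorem act_inv {g : Aff} (h : dt g ≠ 0) (p : ℝ × ℝ) : act (inv g) (act g p) = p := by
  ext <;> simp only [act, inv] <;> field_simp <;> simp only [dt] <;> ring

theorem act_inv' {g : Aff} (h : dt g ≠ 0) (p : ℝ × ℝ) : act g (act (inv g) p) = p := by
  ext <;> simp only [act, inv] <;> field_simp <;> simp only [dt] <;> ring

theorem dt_comp (g h : Aff) : dt (comp g h) = dt g * dt h := by
  simp only [dt, comp]; ring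

theorem dt_inv {g : Aff} (h : dt g ≠ 0) : dt (inv g) = 1 / dt g := by
  have h' : g.a * g.d - g.b * g.c ≠ 0 := h
  simp only [dt, inv]; field_simp

/-- the bijective affine maps that map `S` onto itself -/
def Stab (S : Set (ℝ × ℝ)) : Set Aff := {g | dt g ≠ 0 ∧ ∀ p, act g p ∈ S ↔ p ∈ S}

theorem Stab.comp {S : Set (ℝ × ℝ)} {g h : Aff} (hg : g ∈ Stab S) (hh : h ∈ Stab S) :
    VR.comp g h ∈ Stab S :=
  ⟨by rw [dt_comp]; exact mul_ne_zero hg.1 hh.1, fun p => by rw [act_comp, hg.2, hh.2]⟩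

theorem Stab.inv {S : Set (ℝ × ℝ)} {g : Aff} (hg : g ∈ Stab S) : VR.inv g ∈ Stab S :=
  ⟨by rw [dt_inv hg.1]; exact one_div_ne_zero hg.1, fun p => by
    rw [← hg.2 (act (VR.inv g) p), act_inv' hg.1]⟩

def Gr (f : ℝ → ℝ) : Set (ℝ × ℝ) := {p | p.2 = f p.1}

def GrJ (f : ℝ → ℝ) (J : Set ℝ) : Set (ℝ × ℝ) := {p | p.1 ∈ J ∧ p.2 = f p.1}

/-- the linear part of `g` is an orthogonal matrix times `diag(1, r)` -/
def IsT (r : ℝ) (g : Aff) : Prop :=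
  g.a ^ 2 + g.c ^ 2 = 1 ∧ g.b ^ 2 + g.d ^ 2 = r ^ 2 ∧ g.a * g.b + g.c * g.d = 0

def Rigid (f : ℝ → ℝ) : Prop := ∀ r : ℝ, 0 < r → ∃ g ∈ Stab (Gr f), IsT r g

/-- vertically rigid, as in the frozen statement -/
def VRigid (f : ℝ → ℝ) : Prop :=
  ∀ c : ℝ, 0 < c → ∃ φ : EuclideanSpace ℝ (Fin 2) ≃ᵢ EuclideanSpace ℝ (Fin 2),
    φ '' Set.range (fun x : ℝ => (WithLp.toLp 2 ![x, c * f x] : EuclideanSpace ℝ (Fin 2)))
      = Set.range (fun x : ℝ => (WithLp.toLp 2 ![x, f x] : EuclideanSpace ℝ (Fin 2)))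

/-- an uncountable family in the stabiliser of the graph -/
structure Fam (f : ℝ → ℝ) (C : Set ℝ) (G : ℝ → Aff) : Prop where
  unc : ¬ C.Countable
  pos : ∀ r ∈ C, 0 < r
  stab : ∀ r ∈ C, G r ∈ Stab (Gr f)
  isT : ∀ r ∈ C, IsT r (G r)

/-- nonempty open interval -/
def Int (J : Set ℝ) : Prop := IsOpen J ∧ J.Nonempty ∧ J.OrdConnected

/-- the orthogonal parts of the family take finitely many values on `C` -/
def FinR (C : Set ℝ) (G : ℝ → Aff) : Prop := ∃ F : Set (ℝ × ℝ), F.Finite ∧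
  ∀ r ∈ C, ((G r).a, (G r).c) ∈ F ∨ ((G r).b / r, (G r).d / r) ∈ F

/-- the shear along the line through `E` of slope `p` -/
def shr (E : ℝ × ℝ) (p s : ℝ) (q : ℝ × ℝ) : ℝ × ℝ :=
  (q.1 + s * ((q.2 - E.2) - p * (q.1 - E.1)), q.2 + s * ((q.2 - E.2) - p * (q.1 - E.1)) * p)

/-- the filter of the lower end of an interval -/
def lo (J : Set ℝ) : Filter ℝ := ⨅ y ∈ J, 𝓟 (J ∩ Iio y)

/-- the filter of the upper end of an interval -/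
def hi (J : Set ℝ) : Filter ℝ := ⨅ y ∈ J, 𝓟 (J ∩ Ioi y)

/-- first coordinate of the image of the point of the graph -/
def tt (g : Aff) (f : ℝ → ℝ) (x : ℝ) : ℝ := g.a * x + g.b * f x + g.e

/-! ## tasks -/

/-- Bridge. -/
def TaskBridge : Prop := ∀ f : ℝ → ℝ, VRigid f → Rigid f

/-- Comp: if `f` is continuous on some interval, it is continuous or there is a maximal interval
of continuity `J ≠ ℝ` such that uncountably many maps send the graph over `J` to the graph over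
the same interval `J'`. -/
def TaskComp : Prop := ∀ f : ℝ → ℝ, Rigid f → ∀ a b : ℝ, a < b → ContinuousOn f (Ioo a b) →
  Continuous f ∨ ∃ (J J' : Set ℝ) (C : Set ℝ) (G : ℝ → Aff), Fam f C G ∧ Int J ∧ Int J' ∧
    J ≠ univ ∧ ContinuousOn f J ∧ ∀ r ∈ C, act (G r) '' GrJ f J = GrJ f J'

/-- SameE: finitely many orthogonal parts and a fixed image of a point. -/
def TaskSameE : Prop := ∀ (f : ℝ → ℝ) (C : Set ℝ) (G : ℝ → Aff), Fam f C G →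
  ∀ E E' : ℝ × ℝ, (∀ r ∈ C, act (G r) E = E') → FinR C G → ∃ k : ℝ, ∀ x, f x = k

/-- SameJ: finitely many orthogonal parts and a fixed image of the graph over `J ≠ ℝ`. -/
def TaskSameJ : Prop := ∀ (f : ℝ → ℝ) (C : Set ℝ) (G : ℝ → Aff), Fam f C G →
  ∀ J J' : Set ℝ, Int J → J ≠ univ → (∀ r ∈ C, act (G r) '' GrJ f J = GrJ f J') → FinR C G →
  ∃ k : ℝ, ∀ x, f x = k

/-- Refl: reflection `x ↦ -x`. -/
def TaskRefl : Prop := ∀ (f : ℝ → ℝ) (C : Set ℝ) (G : ℝ → Aff), Fam f C G →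
  ∀ J J' : Set ℝ, (∀ r ∈ C, act (G r) '' GrJ f J = GrJ f J') →
  ∃ G' : ℝ → Aff, Fam (fun x => f (-x)) C G' ∧
    ∀ r ∈ C, act (G' r) '' GrJ (fun x => f (-x)) {x | -x ∈ J} = GrJ (fun x => f (-x)) {x | -x ∈ J'}

/-- End: a map between graphs over intervals maps ends to ends. -/
def TaskEnd : Prop := ∀ (f : ℝ → ℝ) (g : Aff) (J J' : Set ℝ) (α : ℝ), g ∈ Stab (Gr f) →
  Int J → Int J' → ContinuousOn f J → act g '' GrJ f J = GrJ f J' → J ⊆ Ioi α →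
  (∃ β, α < β ∧ Ioo α β ⊆ J) →
  Filter.map (tt g f) (𝓝[>] α) = lo J' ∨ Filter.map (tt g f) (𝓝[>] α) = hi J'

/-- Tri: behaviour at the left end. -/
def TaskTri : Prop := ∀ (f : ℝ → ℝ) (α β : ℝ), α < β → ContinuousOn f (Ioo α β) →
  Tendsto f (𝓝[>] α) atTop ∨ Tendsto f (𝓝[>] α) atBot ∨ (∃ k, Tendsto f (𝓝[>] α) (𝓝 k)) ∨
  ∃ y₁ y₂ : ℝ, y₁ ≠ y₂ ∧ MapClusterPt y₁ (𝓝[>] α) f ∧ MapClusterPt y₂ (𝓝[>] α) f

/-- Inf: the function is infinite at the left end. -/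
def TaskInf : Prop := ∀ (f : ℝ → ℝ) (C : Set ℝ) (G : ℝ → Aff) (α : ℝ) (E : Filter ℝ),
  Fam f C G → (∀ r ∈ C, Filter.map (tt (G r) f) (𝓝[>] α) = E) →
  (Tendsto f (𝓝[>] α) atTop ∨ Tendsto f (𝓝[>] α) atBot) → FinR C G

/-- Clu: two cluster points at the left end. -/
def TaskClu : Prop := ∀ (f : ℝ → ℝ) (C : Set ℝ) (G : ℝ → Aff) (α : ℝ) (E : Filter ℝ),
  Fam f C G → (∀ r ∈ C, Filter.map (tt (G r) f) (𝓝[>] α) = E) →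
  (∃ y₁ y₂ : ℝ, y₁ ≠ y₂ ∧ MapClusterPt y₁ (𝓝[>] α) f ∧ MapClusterPt y₂ (𝓝[>] α) f) → FinR C G

/-- Lim: a limit at the left end. -/
def TaskLim : Prop := ∀ (f : ℝ → ℝ) (C : Set ℝ) (G : ℝ → Aff) (α k : ℝ) (E : Filter ℝ),
  Fam f C G → (∀ r ∈ C, Filter.map (tt (G r) f) (𝓝[>] α) = E) → Tendsto f (𝓝[>] α) (𝓝 k) →
  ∃ E' : ℝ × ℝ, ∀ r ∈ C, act (G r) (α, k) = E'

/-- unit tangent directions of `S` at `E` -/
def Dir (S : Set (ℝ × ℝ)) (E : ℝ × ℝ) : Set (ℝ × ℝ) :=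
  {v | v.1 ^ 2 + v.2 ^ 2 = 1 ∧ ∀ ε > 0, ∃ s ∈ S, dist s E < ε ∧ ∃ ρ : ℝ, 0 < ρ ∧
    dist (ρ • (s - E)) v < ε}

/-- DirBase: basic properties of the set of tangent directions. -/
def TaskDir : Prop := ∀ (S : Set (ℝ × ℝ)) (E : ℝ × ℝ), E ∈ closure S → E ∉ S →
  (Dir S E).Nonempty ∧ IsClosed (Dir S E) ∧
  ((∀ s ∈ S, E.1 < s.1) → ∀ v ∈ Dir S E, 0 ≤ v.1) ∧
  ∀ g : Aff, dt g ≠ 0 → ∀ v, v ∈ Dir S E →
    ∃ τ : ℝ, 0 < τ ∧ τ • lin g v ∈ Dir (act g '' S) (act g E)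

/-- Poly: algebra of angles. -/
def TaskPoly : Prop := ∀ (C : Set ℝ) (x₁ y₁ x₂ y₂ m : ℝ), C.Infinite → (∀ r ∈ C, 0 < r) →
  0 ≤ x₁ → 0 ≤ x₂ → x₁ ^ 2 + y₁ ^ 2 = 1 → x₂ ^ 2 + y₂ ^ 2 = 1 →
  (∀ r ∈ C, (x₁ * x₂ + r ^ 2 * (y₁ * y₂)) ^ 2 =
    m * ((x₁ ^ 2 + r ^ 2 * y₁ ^ 2) * (x₂ ^ 2 + r ^ 2 * y₂ ^ 2))) →
  x₁ * y₂ = x₂ * y₁ ∨ (x₁ = 0 ∧ y₂ = 0) ∨ (x₂ = 0 ∧ y₁ = 0)

/-- Ang: extreme directions. -/
def TaskAng : Prop := TaskPoly → ∀ (D D' : Set (ℝ × ℝ)) (C : Set ℝ) (G : ℝ → Aff),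
  ¬ C.Countable → (∀ r ∈ C, 0 < r) → (∀ r ∈ C, IsT r (G r)) → D.Nonempty → IsClosed D →
  (∀ v ∈ D, v.1 ^ 2 + v.2 ^ 2 = 1 ∧ 0 ≤ v.1) → (∀ v ∈ D', v.1 ^ 2 + v.2 ^ 2 = 1) →
  (∀ r ∈ C, ∀ v ∈ D, ∃ τ : ℝ, 0 < τ ∧ τ • lin (G r) v ∈ D') →
  (∀ r ∈ C, ∀ v' ∈ D', ∃ v ∈ D, ∃ τ : ℝ, 0 < τ ∧ τ • lin (G r) v = v') →
  FinR C G ∨ ∃ (p : ℝ) (w : ℝ × ℝ), p ≠ 0 ∧ w ≠ 0 ∧ ∀ r ∈ C, ∃ τ : ℝ, lin (G r) (1, p) = τ • w

/-- Shear: the family contains arbitrarily small shears. -/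
def TaskShear : Prop := ∀ (f : ℝ → ℝ) (C : Set ℝ) (G : ℝ → Aff), Fam f C G →
  ∀ (E E' w : ℝ × ℝ) (p : ℝ), (∀ r ∈ C, act (G r) E = E') → p ≠ 0 → w ≠ 0 →
  (∀ r ∈ C, ∃ τ : ℝ, lin (G r) (1, p) = τ • w) →
  ∀ ε > 0, ∃ s : ℝ, 0 < |s| ∧ |s| < ε ∧ ∀ q, shr E p s q ∈ Gr f ↔ q ∈ Gr f

/-- Line: the graph is contained in the line. -/
def TaskLine : Prop := ∀ (f : ℝ → ℝ) (x₀ k p : ℝ), Tendsto f (𝓝[>] x₀) (𝓝 k) →
  (∀ ε > 0, ∃ s : ℝ, 0 < |s| ∧ |s| < ε ∧ ∀ q, shr (x₀, k) p s q ∈ Gr f ↔ q ∈ Gr f) →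
  ∀ x, f x = k + p * (x - x₀)

/-- convergence of affine maps to the identity with velocity `X` -/
def Vel (gs : ℕ → Aff) (ε : ℕ → ℝ) (X : Aff) : Prop :=
  Tendsto (fun n => ((gs n).a - 1) / ε n) atTop (𝓝 X.a) ∧
  Tendsto (fun n => (gs n).b / ε n) atTop (𝓝 X.b) ∧
  Tendsto (fun n => (gs n).c / ε n) atTop (𝓝 X.c) ∧
  Tendsto (fun n => ((gs n).d - 1) / ε n) atTop (𝓝 X.d) ∧
  Tendsto (fun n => (gs n).e / ε n) atTop (𝓝 X.e) ∧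
  Tendsto (fun n => (gs n).k / ε n) atTop (𝓝 X.k)

/-- convergence of affine maps to the identity -/
def ToOne (gs : ℕ → Aff) : Prop :=
  Tendsto (fun n => (gs n).a) atTop (𝓝 1) ∧ Tendsto (fun n => (gs n).b) atTop (𝓝 0) ∧
  Tendsto (fun n => (gs n).c) atTop (𝓝 0) ∧ Tendsto (fun n => (gs n).d) atTop (𝓝 1) ∧
  Tendsto (fun n => (gs n).e) atTop (𝓝 0) ∧ Tendsto (fun n => (gs n).k) atTop (𝓝 0)

/-- `Φ` is the flow of the vector field `X` and preserves `Z` -/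
structure IsFlow (Z : Set (ℝ × ℝ)) (X : Aff) (Φ : ℝ → Aff) : Prop where
  stab : ∀ t, Φ t ∈ Stab Z
  zero : Φ 0 = one
  add : ∀ s t, Φ (s + t) = comp (Φ s) (Φ t)
  deriv : ∀ (p : ℝ × ℝ) (t : ℝ),
    HasDerivAt (fun s => act (Φ s) p) (act X (act (Φ t) p)) t

/-- Flow: the limit of iterates of maps close to the identity. -/
def TaskFlow : Prop := ∀ Z : Set (ℝ × ℝ), IsClosed Z → ∀ (gs : ℕ → Aff) (ε : ℕ → ℝ) (X : Aff),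
  (∀ n, gs n ∈ Stab Z) → (∀ n, 0 < ε n) → Tendsto ε atTop (𝓝 0) → Vel gs ε X →
  ∃ Φ : ℝ → Aff, IsFlow Z X Φ

/-- Min: maps close to the identity that move `P` give a flow that moves `P`. -/
def TaskMin : Prop := TaskFlow → ∀ Z : Set (ℝ × ℝ), IsClosed Z → ∀ (P : ℝ × ℝ) (gs : ℕ → Aff),
  (∀ n, gs n ∈ Stab Z) → ToOne gs → (∀ n, act (gs n) P ≠ P) →
  ∃ (X : Aff) (Φ : ℝ → Aff), IsFlow Z X Φ ∧ act X P ≠ 0

/-- the closure of the graph over points close to `x₀` is close to `(x₀, f x₀)` -/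
def ZP (f : ℝ → ℝ) (x₀ : ℝ) : Prop :=
  ∀ ε > 0, ∃ δ > 0, ∀ p ∈ closure (Gr f), |p.1 - x₀| < δ → |p.2 - f x₀| < ε

/-- ZP: continuity in terms of the closure of the graph, and stabilisers. -/
def TaskZP : Prop := ∀ f : ℝ → ℝ, (∀ x₀, ContinuousAt f x₀ → ZP f x₀) ∧
  (∀ x₀, ZP f x₀ → ∀ y, (x₀, y) ∈ closure (Gr f) → y = f x₀) ∧
  (∀ g ∈ Stab (Gr f), g ∈ Stab (closure (Gr f)))

/-- BoxA: flow box. -/
def TaskBoxA : Prop := ∀ (f : ℝ → ℝ) (x₀ : ℝ) (X : Aff) (Φ : ℝ → Aff), ZP f x₀ →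
  IsFlow (closure (Gr f)) X Φ → (act X (x₀, f x₀)).1 ≠ 0 →
  ∃ a b : ℝ, a < b ∧ ContinuousOn f (Ioo a b)

/-- BoxB: the velocity is not vertical. -/
def TaskBoxB : Prop := ∀ (f : ℝ → ℝ) (x₀ : ℝ) (X : Aff) (Φ : ℝ → Aff), ZP f x₀ →
  IsFlow (closure (Gr f)) X Φ → (act X (x₀, f x₀)).1 = 0 → (act X (x₀, f x₀)).2 = 0

/-- close to the identity -/
def Near (δ : ℝ) (g : Aff) : Prop := |g.a - 1| < δ ∧ |g.b| < δ ∧ |g.c| < δ ∧ |g.d - 1| < δ ∧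
  |g.e| < δ ∧ |g.k| < δ

/-- Pig: the fixed case. -/
def TaskPig : Prop := ∀ f : ℝ → ℝ, Rigid f →
  (∀ g ∈ Stab (Gr f), g ∈ Stab (closure (Gr f))) → ∀ P : ℝ × ℝ,
  (¬ ∃ gs : ℕ → Aff, (∀ n, gs n ∈ Stab (closure (Gr f))) ∧ ToOne gs ∧ ∀ n, act (gs n) P ≠ P) →
  ∀ δ > 0, ∃ (C : Set ℝ) (G : ℝ → Aff) (E' : ℝ × ℝ), Fam f C G ∧
    (∀ r ∈ C, act (G r) P = E') ∧ ∀ r ∈ C, ∀ r' ∈ C, Near δ (comp (inv (G r')) (G r))

/-- Vel: an infinitesimal element of a family with a fixed image of `P`. -/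
def TaskVel : Prop := ∀ (f : ℝ → ℝ) (C : Set ℝ) (G : ℝ → Aff) (P E' : ℝ × ℝ), Fam f C G →
  (∀ r ∈ C, act (G r) P = E') → ∃ (gs : ℕ → Aff) (ε : ℕ → ℝ) (X : Aff) (r : ℝ),
    (∀ n, gs n ∈ Stab (Gr f)) ∧ (∀ n, 0 < ε n) ∧ Tendsto ε atTop (𝓝 0) ∧ Vel gs ε X ∧ 0 < r ∧
    X.a = 0 ∧ X.b = -(r ^ 2 * X.c) ∧ act X P = 0 ∧ (X.c ≠ 0 ∨ X.d ≠ 0)

/-- Cone: the case of a rotation part. -/
def TaskCone : Prop := ∀ (f : ℝ → ℝ) (x₀ : ℝ) (X : Aff) (Φ : ℝ → Aff), ZP f x₀ →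
  IsFlow (closure (Gr f)) X Φ → act X (x₀, f x₀) = 0 → X.b ≠ 0 →
  ∃ κ > 0, ∀ x, κ * |f x - f x₀| ≤ |x - x₀|

/-- Flat: the case without rotation part. -/
def TaskFlat : Prop := ∀ (f : ℝ → ℝ) (x₀ : ℝ) (X : Aff) (Φ : ℝ → Aff), ZP f x₀ →
  IsFlow (closure (Gr f)) X Φ → act X (x₀, f x₀) = 0 → X.a = 0 → X.b = 0 → X.c = 0 → X.d ≠ 0 →
  ∃ a b : ℝ, a < b ∧ ContinuousOn f (Ioo a b)

/-- Side: maps close to the identity preserve the right half of the graph. -/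
def TaskSide : Prop := ∀ κ > 0, ∃ δ > 0, ∀ (f : ℝ → ℝ) (x₀ : ℝ) (C : Set ℝ) (G : ℝ → Aff)
  (E' : ℝ × ℝ), (∀ x, κ * |f x - f x₀| ≤ |x - x₀|) → Fam f C G →
  (∀ r ∈ C, act (G r) (x₀, f x₀) = E') →
  (∀ r ∈ C, ∀ r' ∈ C, Near δ (comp (inv (G r')) (G r))) →
  ∃ S' : Set (ℝ × ℝ), ∀ r ∈ C, act (G r) '' (Gr f ∩ {p | x₀ < p.1}) = S'

/-- the main theorem -/
def Main : Prop := ∀ f : ℝ → ℝ, VRigid f → (∃ x₀, ContinuousAt f x₀) → Continuous f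

end Pool.Agent.H182R3.VR
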