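import Pool.Agent.H182R3.VR.Stmts

/-! # Assembly of the main theorem -/

set_option autoImplicit false
open Set Filter Topology

namespace Pool.Agent.H182R3.VR

theorem continuous_act (g : Aff) : Continuous (act g) := by
  unfold act
  fun_prop

theorem Fam.mono {f : ℝ → ℝ} {C C' : Set ℝ} {G : ℝ → Aff} (h : Fam f C G) (hs : C' ⊆ C)
    (hu : ¬ C'.Countable) : Fam f C' G :=
  ⟨hu, fun r hr => h.pos r (hs hr), fun r hr => h.stab r (hs hr), fun r hr => h.isT r (hs hr)⟩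

theorem cont_of_const {f : ℝ → ℝ} (h : ∃ k : ℝ, ∀ x, f x = k) : Continuous f := by
  obtain ⟨k, hk⟩ := h
  have : f = fun _ => k := funext hk
  rw [this]; exact continuous_const

section
variable (hSameE : TaskSameE) (hSameJ : TaskSameJ) (hRefl : TaskRefl) (hEnd : TaskEnd)
  (hTri : TaskTri) (hInf : TaskInf) (hClu : TaskClu) (hLim : TaskLim) (hDir : TaskDir)
  (hPoly : TaskPoly) (hAng : TaskAng) (hShear : TaskShear) (hLine : TaskLine)

include hSameE hDir hPoly hAng hShear hLine in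
theorem oneSide {f : ℝ → ℝ} {C : Set ℝ} {G : ℝ → Aff} (hF : Fam f C G) {x₀ k : ℝ}
    {E' : ℝ × ℝ} {S S' : Set (ℝ × ℝ)} (hlim : Tendsto f (𝓝[>] x₀) (𝓝 k))
    (hE : ∀ r ∈ C, act (G r) (x₀, k) = E') (hS : ∀ r ∈ C, act (G r) '' S = S')
    (hr : ∀ s ∈ S, x₀ < s.1) (hcl : ((x₀, k) : ℝ × ℝ) ∈ closure S) : Continuous f := by
  have hES : ((x₀, k) : ℝ × ℝ) ∉ S := fun h => lt_irrefl _ (hr _ h)
  obtain ⟨h1, h2, h3, h4⟩ := hDir S (x₀, k) hcl hES
  have hne : C.Nonempty := by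
    rw [Set.nonempty_iff_ne_empty]
    rintro rfl
    exact hF.unc Set.countable_empty
  have hcl' : ∀ r ∈ C, E' ∈ closure S' := by
    intro r hrC
    rw [← hE r hrC, ← hS r hrC]
    exact image_closure_subset_closure_image (continuous_act (G r)) ⟨_, hcl, rfl⟩
  have hES' : ∀ r ∈ C, E' ∉ S' := by
    intro r hrC h
    rw [← hS r hrC, ← hE r hrC] at h
    obtain ⟨s, hs, hse⟩ := h
    have := congrArg (act (inv (G r))) hse
    rw [act_inv (hF.stab r hrC).1, act_inv (hF.stab r hrC).1] at this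
    rw [this] at hs
    exact hES hs
  have hfw : ∀ r ∈ C, ∀ v ∈ Dir S (x₀, k), ∃ τ : ℝ, 0 < τ ∧ τ • lin (G r) v ∈ Dir S' E' := by
    intro r hrC v hv
    obtain ⟨τ, hτ, h⟩ := h4 (G r) (hF.stab r hrC).1 v hv
    rw [hE r hrC, hS r hrC] at h
    exact ⟨τ, hτ, h⟩
  have hbw : ∀ r ∈ C, ∀ v' ∈ Dir S' E', ∃ v ∈ Dir S (x₀, k), ∃ τ : ℝ, 0 < τ ∧
      τ • lin (G r) v = v' := by
    intro r hrC v' hv'
    obtain ⟨_, _, _, h4'⟩ := hDir S' E' (hcl' r hrC) (hES' r hrC)
    have hdet := (hF.stab r hrC).1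
    obtain ⟨τ, hτ, h⟩ := h4' (inv (G r)) (by rw [dt_inv hdet]; exact one_div_ne_zero hdet) v' hv'
    have e1 : act (inv (G r)) '' S' = S := by
      rw [← hS r hrC, ← Set.image_comp]
      have : (act (inv (G r)) ∘ act (G r)) = id := by
        funext q; exact act_inv hdet q
      rw [this, Set.image_id]
    have e2 : act (inv (G r)) E' = (x₀, k) := by
      rw [← hE r hrC, act_inv hdet]
    rw [e1, e2] at h
    refine ⟨_, h, τ⁻¹, inv_pos.2 hτ, ?_⟩
    have hd' : dt (G r) ≠ 0 := hdet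
    ext
    · simp only [lin, inv, Prod.smul_fst, Prod.smul_snd, smul_eq_mul]
      field_simp
      simp only [dt]; ring
    · simp only [lin, inv, Prod.smul_fst, Prod.smul_snd, smul_eq_mul]
      field_simp
      simp only [dt]; ring
  rcases hAng hPoly (Dir S (x₀, k)) (Dir S' E') C G hF.unc hF.pos hF.isT h1 h2
    (fun v hv => ⟨hv.1, h3 hr v hv⟩) (fun v hv => hv.1) hfw hbw with hfin | ⟨p, w, hp, hw, hpw⟩
  · exact cont_of_const (hSameE f C G hF (x₀, k) E' hE hfin)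
  · have hsh := hShear f C G hF (x₀, k) E' w p hE hp hw hpw
    have hl := hLine f x₀ k p hlim hsh
    have : f = fun x => k + p * (x - x₀) := funext hl
    rw [this]; fun_prop

include hSameE hSameJ hEnd hTri hInf hClu hLim hDir hPoly hAng hShear hLine in
theorem partL {f : ℝ → ℝ} {C : Set ℝ} {G : ℝ → Aff} (hF : Fam f C G) {J J' : Set ℝ}
    (hJ : Int J) (hJ' : Int J') (hne : J ≠ univ) (hc : ContinuousOn f J)
    (him : ∀ r ∈ C, act (G r) '' GrJ f J = GrJ f J') {α : ℝ} (hα : J ⊆ Ioi α)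
    (hβ : ∃ β, α < β ∧ Ioo α β ⊆ J) : Continuous f := by
  obtain ⟨C1, hC1, hu, E, hEE⟩ : ∃ C1 ⊆ C, ¬ C1.Countable ∧ ∃ E : Filter ℝ,
      ∀ r ∈ C1, Filter.map (tt (G r) f) (𝓝[>] α) = E := by
    have hsplit : C = {r ∈ C | Filter.map (tt (G r) f) (𝓝[>] α) = lo J'} ∪
        {r ∈ C | Filter.map (tt (G r) f) (𝓝[>] α) = hi J'} := by
      ext r
      constructor
      · intro hr
        rcases hEnd f (G r) J J' α (hF.stab r hr) hJ hJ' hc (him r hr) hα hβ with h | h
        · exact Or.inl ⟨hr, h⟩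
        · exact Or.inr ⟨hr, h⟩
      · rintro (h | h) <;> exact h.1
    by_cases h1 : {r ∈ C | Filter.map (tt (G r) f) (𝓝[>] α) = lo J'}.Countable
    · refine ⟨{r ∈ C | Filter.map (tt (G r) f) (𝓝[>] α) = hi J'}, fun r hr => hr.1, ?_, hi J',
        fun r hr => hr.2⟩
      intro h2
      apply hF.unc
      rw [hsplit]
      exact h1.union h2
    · exact ⟨_, fun r hr => hr.1, h1, lo J', fun r hr => hr.2⟩
  have hF1 := hF.mono hC1 hu
  have him1 : ∀ r ∈ C1, act (G r) '' GrJ f J = GrJ f J' := fun r hr => him r (hC1 hr)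
  have hfin : FinR C1 G → Continuous f := fun h =>
    cont_of_const (hSameJ f C1 G hF1 J J' hJ hne him1 h)
  obtain ⟨β, hab, hsub⟩ := hβ
  rcases hTri f α β hab (hc.mono hsub) with h | h | ⟨k, h⟩ | h
  · exact hfin (hInf f C1 G α E hF1 hEE (Or.inl h))
  · exact hfin (hInf f C1 G α E hF1 hEE (Or.inr h))
  · obtain ⟨E', hE'⟩ := hLim f C1 G α k E hF1 hEE h
    refine oneSide hSameE hDir hPoly hAng hShear hLine hF1 h hE' him1 (fun s hs => hα hs.1) ?_
    -- (α, k) is in the closure of the graph over J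
    have ht : Tendsto (fun x => ((x, f x) : ℝ × ℝ)) (𝓝[>] α) (𝓝 (α, k)) := by
      refine Tendsto.prodMk_nhds ?_ h
      exact tendsto_nhdsWithin_of_tendsto_nhds tendsto_id |>.mono_right le_rfl
    refine mem_closure_of_tendsto ht ?_
    filter_upwards [Ioo_mem_nhdsGT hab] with x hx
    exact ⟨hsub hx, rfl⟩
  · exact hfin (hClu f C1 G α E hF1 hEE h)

theorem left_end {J : Set ℝ} (hJ : Int J) {x y : ℝ} (hx : x ∈ J) (hy : y ∉ J) (hyx : y < x) :
    ∃ α, J ⊆ Ioi α ∧ ∃ β, α < β ∧ Ioo α β ⊆ J := by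
  obtain ⟨ho, hne, hoc⟩ := hJ
  have hbd : BddBelow J := by
    refine ⟨y, fun z hz => ?_⟩
    by_contra hlt
    push Not at hlt
    exact hy (hoc.out hz hx ⟨hlt.le, hyx.le⟩)
  have hα : sInf J ∉ J := by
    intro hmem
    obtain ⟨ε, hε, hball⟩ := Metric.isOpen_iff.1 ho _ hmem
    have h1 : sInf J - ε / 2 ∈ J := by
      apply hball
      rw [Metric.mem_ball, Real.dist_eq]
      rw [abs_lt]; constructor <;> linarith
    have := csInf_le hbd h1
    linarith
  have hsub : J ⊆ Ioi (sInf J) := by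
    intro z hz
    have h1 := csInf_le hbd hz
    rcases h1.lt_or_eq with h | h
    · exact h
    · exact absurd (h ▸ hz) hα
  refine ⟨sInf J, hsub, x, hsub hx, ?_⟩
  intro z hz
  obtain ⟨u, hu, huz⟩ := exists_lt_of_csInf_lt hne hz.1
  exact hoc.out hu hx ⟨huz.le, hz.2.le⟩

include hSameE hSameJ hRefl hEnd hTri hInf hClu hLim hDir hPoly hAng hShear hLine in
theorem partA (hComp : TaskComp) {f : ℝ → ℝ} (hf : Rigid f) {a b : ℝ} (hab : a < b)
    (hc : ContinuousOn f (Ioo a b)) : Continuous f := by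
  rcases hComp f hf a b hab hc with h | ⟨J, J', C, G, hF, hJ, hJ', hne, hcJ, him⟩
  · exact h
  obtain ⟨y, hy⟩ : ∃ y, y ∉ J := by
    by_contra h
    push Not at h
    exact hne (Set.eq_univ_of_forall h)
  obtain ⟨x, hx⟩ := hJ.2.1
  rcases lt_trichotomy y x with h | h | h
  · obtain ⟨α, h1, h2⟩ := left_end hJ hx hy h
    exact partL hSameE hSameJ hEnd hTri hInf hClu hLim hDir hPoly hAng hShear hLine hF hJ hJ' hne
      hcJ him h1 h2
  · exact absurd (h ▸ hx) hy
  · -- reflect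
    obtain ⟨G', hF', him'⟩ := hRefl f C G hF J J' him
    have hInt : ∀ K : Set ℝ, Int K → Int {x | -x ∈ K} := by
      intro K hK
      refine ⟨hK.1.preimage continuous_neg, ?_, ?_⟩
      · obtain ⟨z, hz⟩ := hK.2.1
        exact ⟨-z, by simpa using hz⟩
      · constructor
        intro u hu v hv z hz
        exact hK.2.2.out hv hu ⟨neg_le_neg hz.2, neg_le_neg hz.1⟩
    have hcont : ContinuousOn (fun x => f (-x)) {x | -x ∈ J} :=
      hcJ.comp continuous_neg.continuousOn (fun z hz => hz)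
    obtain ⟨α, h1, h2⟩ := left_end (hInt J hJ) (x := -x) (y := -y) (by simpa using hx)
      (by simpa using hy) (by linarith)
    have hne' : {x : ℝ | -x ∈ J} ≠ univ := by
      intro hu
      apply hy
      have : -y ∈ {x : ℝ | -x ∈ J} := by rw [hu]; trivial
      simpa using this
    have hres := partL hSameE hSameJ hEnd hTri hInf hClu hLim hDir hPoly hAng hShear hLine hF'
      (hInt J hJ) (hInt J' hJ') hne' hcont him' h1 h2
    have : f = fun x => (fun x => f (-x)) (-x) := by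
      funext z; simp
    rw [this]
    exact hres.comp continuous_neg

include hSameE hSameJ hRefl hEnd hTri hInf hClu hLim hDir hPoly hAng hShear hLine in
theorem main_of (hBridge : TaskBridge) (hComp : TaskComp) (hFlow : TaskFlow) (hMin : TaskMin)
    (hZP : TaskZP) (hBoxA : TaskBoxA) (hBoxB : TaskBoxB) (hPig : TaskPig) (hVel : TaskVel)
    (hCone : TaskCone) (hFlat : TaskFlat) (hSide : TaskSide) : Main := by
  intro f hV ⟨x₀, hx₀⟩
  have hf := hBridge f hV
  have hA : ∀ a b : ℝ, a < b → ContinuousOn f (Ioo a b) → Continuous f := fun a b hab h =>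
    partA hSameE hSameJ hRefl hEnd hTri hInf hClu hLim hDir hPoly hAng hShear hLine hComp hf hab h
  obtain ⟨hz1, hz2, hz3⟩ := hZP f
  have hZ := hz1 x₀ hx₀
  have hcl : IsClosed (closure (Gr f)) := isClosed_closure
  by_cases hmov : ∃ gs : ℕ → Aff, (∀ n, gs n ∈ Stab (closure (Gr f))) ∧ ToOne gs ∧
      ∀ n, act (gs n) (x₀, f x₀) ≠ (x₀, f x₀)
  · obtain ⟨gs, h1, h2, h3⟩ := hmov
    obtain ⟨X, Φ, hΦ, hX⟩ := hMin hFlow _ hcl (x₀, f x₀) gs h1 h2 h3
    by_cases h0 : (act X (x₀, f x₀)).1 = 0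
    · exact absurd (Prod.ext h0 (hBoxB f x₀ X Φ hZ hΦ h0)) hX
    · obtain ⟨a, b, hab, hc⟩ := hBoxA f x₀ X Φ hZ hΦ h0
      exact hA a b hab hc
  · obtain ⟨C, G, E', hF, hE, -⟩ := hPig f hf hz3 (x₀, f x₀) hmov 1 one_pos
    obtain ⟨gs, ε, X, r, hg, hε, hε0, hv, hr, hXa, hXb, hXP, hXcd⟩ :=
      hVel f C G (x₀, f x₀) E' hF hE
    obtain ⟨Φ, hΦ⟩ := hFlow _ hcl gs ε X (fun n => hz3 _ (hg n)) hε hε0 hv
    by_cases hXc : X.c = 0
    · have hXb' : X.b = 0 := by rw [hXb, hXc]; ring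
      have hXd : X.d ≠ 0 := by
        rcases hXcd with h | h
        · exact absurd hXc h
        · exact h
      obtain ⟨a, b, hab, hc⟩ := hFlat f x₀ X Φ hZ hΦ hXP hXa hXb' hXc hXd
      exact hA a b hab hc
    · have hXb' : X.b ≠ 0 := by
        rw [hXb]
        exact neg_ne_zero.2 (mul_ne_zero (pow_ne_zero _ hr.ne') hXc)
      obtain ⟨κ, hκ, hcone⟩ := hCone f x₀ X Φ hZ hΦ hXP hXb'
      obtain ⟨δ, hδ, hside⟩ := hSide κ hκ
      obtain ⟨C2, G2, E2, hF2, hE2, hN2⟩ := hPig f hf hz3 (x₀, f x₀) hmov δ hδ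
      obtain ⟨S', hS'⟩ := hside f x₀ C2 G2 E2 hcone hF2 hE2 hN2
      have hlim : Tendsto f (𝓝[>] x₀) (𝓝 (f x₀)) := hx₀.tendsto.mono_left nhdsWithin_le_nhds
      refine oneSide hSameE hDir hPoly hAng hShear hLine hF2 hlim hE2 hS' (fun s hs => hs.2) ?_
      have ht : Tendsto (fun x => ((x, f x) : ℝ × ℝ)) (𝓝[>] x₀) (𝓝 (x₀, f x₀)) := by
        refine Tendsto.prodMk_nhds ?_ hlim
        exact tendsto_nhdsWithin_of_tendsto_nhds tendsto_id |>.mono_right le_rfl
      refine mem_closure_of_tendsto ht ?_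
      filter_upwards [self_mem_nhdsWithin] with x hx
      exact ⟨rfl, hx⟩

end

end Pool.Agent.H182R3.VR
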