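import Mathlib

/-! # A function of the first Baire class has a point of continuity -/

set_option autoImplicit false
open Set Filter Topology

namespace Pool.Agent.H182R3.VR

theorem baire_one {f : ℝ → ℝ} (F : ℕ → ℝ → ℝ) (hF : ∀ n, Continuous (F n))
    (hf : ∀ x, Tendsto (fun n => F n x) atTop (𝓝 (f x))) : ∃ x₀, ContinuousAt f x₀ := by
  let E : ℝ → ℕ → Set ℝ := fun ε N => {x | ∀ m ≥ N, |F N x - F m x| ≤ ε}
  have hcl : ∀ ε N, IsClosed (E ε N) := by
    intro ε N
    have : E ε N = ⋂ m, ⋂ (_ : m ≥ N), {x | |F N x - F m x| ≤ ε} := by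
      ext x; simp [E]
    rw [this]
    refine isClosed_iInter fun m => isClosed_iInter fun _ => ?_
    exact isClosed_le (((hF N).sub (hF m)).abs) continuous_const
  have hun : ∀ ε, 0 < ε → ⋃ N, E ε N = univ := by
    intro ε hε
    refine Set.eq_univ_of_forall fun x => ?_
    have hc := (hf x).cauchySeq
    rw [Metric.cauchySeq_iff] at hc
    obtain ⟨N, hN⟩ := hc ε hε
    rw [Set.mem_iUnion]
    refine ⟨N, fun m hm => ?_⟩
    have := hN N le_rfl m hm
    rw [Real.dist_eq] at this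
    exact this.le
  have hd : ∀ k : ℕ, Dense (⋃ N, interior (E (1 / ((k : ℝ) + 1)) N)) := fun k =>
    dense_iUnion_interior_of_closed (fun N => hcl _ N) (hun _ (by positivity))
  have hd2 : Dense (⋂ k : ℕ, ⋃ N, interior (E (1 / ((k : ℝ) + 1)) N)) :=
    dense_iInter_of_isOpen_nat (fun k => isOpen_iUnion fun N => isOpen_interior) hd
  obtain ⟨x₀, hx₀⟩ := hd2.nonempty
  refine ⟨x₀, ?_⟩
  rw [Metric.continuousAt_iff']
  intro ε hε
  obtain ⟨k, hk⟩ := exists_nat_one_div_lt (show 0 < ε / 3 by linarith)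
  have h1 := Set.mem_iInter.1 hx₀ k
  obtain ⟨N, hN⟩ := Set.mem_iUnion.1 h1
  have hle : ∀ x ∈ E (1 / ((k : ℝ) + 1)) N, |F N x - f x| ≤ 1 / ((k : ℝ) + 1) := by
    intro x hx
    have ht : Tendsto (fun m => |F N x - F m x|) atTop (𝓝 |F N x - f x|) :=
      (tendsto_const_nhds.sub (hf x)).abs
    refine le_of_tendsto ht ?_
    filter_upwards [eventually_ge_atTop N] with m hm
    exact hx m hm
  have hc := (hF N).continuousAt (x := x₀)
  rw [Metric.continuousAt_iff'] at hc
  filter_upwards [hc (ε / 3) (by linarith), mem_interior_iff_mem_nhds.1 hN] with x hx1 hx2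
  rw [Real.dist_eq] at hx1 ⊢
  have h2 := hle x hx2
  have h3 := hle x₀ (interior_subset hN)
  rw [abs_le] at h2 h3
  rw [abs_lt] at hx1 ⊢
  constructor <;> linarith [h2.1, h2.2, h3.1, h3.2, hx1.1, hx1.2]

end Pool.Agent.H182R3.VR
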