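import Mathlib
import Pool.Agent.H182R3.VR.Stmts

set_option autoImplicit false
open Set Filter Topology

namespace Pool.Agent.H182R3.VR

namespace AngAux

noncomputable def nn (r : ℝ) (u : ℝ × ℝ) : ℝ := √(u.1 ^ 2 + r ^ 2 * u.2 ^ 2)

noncomputable def N (g : Aff) (r : ℝ) (u : ℝ × ℝ) : ℝ × ℝ := (1 / nn r u) • lin g u

def ip (u v : ℝ × ℝ) : ℝ := u.1 * v.1 + u.2 * v.2

theorem nn_sq (r : ℝ) (u : ℝ × ℝ) : nn r u ^ 2 = u.1 ^ 2 + r ^ 2 * u.2 ^ 2 :=
  Real.sq_sqrt (by positivity)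

theorem nn_pos {r : ℝ} (hr : 0 < r) {u : ℝ × ℝ} (hu : u.1 ^ 2 + u.2 ^ 2 = 1) : 0 < nn r u := by
  apply Real.sqrt_pos.2
  by_cases h : u.2 = 0
  · rw [h] at hu ⊢
    nlinarith
  · have h1 : 0 < u.2 ^ 2 := by positivity
    positivity

theorem ip_lin {r : ℝ} {g : Aff} (h : IsT r g) (u v : ℝ × ℝ) :
    ip (lin g u) (lin g v) = u.1 * v.1 + r ^ 2 * (u.2 * v.2) := by
  obtain ⟨h1, h2, h3⟩ := h
  simp only [ip, lin]
  linear_combination (u.1 * v.1) * h1 + (u.2 * v.2) * h2 + (u.1 * v.2 + u.2 * v.1) * h3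

theorem ip_N {r : ℝ} {g : Aff} (h : IsT r g) (u v : ℝ × ℝ) :
    ip (N g r u) (N g r v) = (u.1 * v.1 + r ^ 2 * (u.2 * v.2)) / (nn r u * nn r v) := by
  rw [← ip_lin h]
  simp only [ip, N, Prod.smul_fst, Prod.smul_snd, smul_eq_mul]
  ring

theorem eq_N {r : ℝ} {g : Aff} (h : IsT r g) (u : ℝ × ℝ) (τ : ℝ) (hτ : 0 < τ)
    (hu : (τ • lin g u).1 ^ 2 + (τ • lin g u).2 ^ 2 = 1) : τ • lin g u = N g r u := by
  have h1 : (τ * nn r u) ^ 2 = 1 := by
    rw [mul_pow, nn_sq]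
    have := ip_lin h u u
    simp only [ip] at this
    simp only [Prod.smul_fst, Prod.smul_snd, smul_eq_mul] at hu
    linear_combination hu - τ ^ 2 * this
  have h2 : 0 ≤ nn r u := Real.sqrt_nonneg _
  have h3 : τ * nn r u = 1 := by
    have h0 : 0 ≤ τ * nn r u := by positivity
    exact (pow_eq_one_iff_of_nonneg h0 (by norm_num)).1 h1
  have h4 : nn r u ≠ 0 := by
    intro h
    rw [h, mul_zero] at h3
    exact zero_ne_one h3
  unfold N
  congr 1
  rw [eq_div_iff h4]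
  exact h3

theorem sq_one {x : ℝ} (h : x ^ 2 = 1) : x = 1 ∨ x = -1 :=
  mul_self_eq_one_iff.1 (by rw [← sq]; exact h)

theorem N_e1 {r : ℝ} {g : Aff} {u : ℝ × ℝ} (hu : u.1 ^ 2 + u.2 ^ 2 = 1)
    (hx : 0 ≤ u.1) (hy : u.2 = 0) : N g r u = (g.a, g.c) := by
  have h1 : u.1 = 1 := by
    rw [hy] at hu
    exact (pow_eq_one_iff_of_nonneg hx (n := 2) (by norm_num)).1 (by linarith)
  have h2 : nn r u = 1 := by
    unfold nn
    rw [h1, hy]
    norm_num
  unfold N
  rw [h2]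
  simp only [lin, h1, hy]
  ext <;> simp

theorem N_e2 {r : ℝ} {g : Aff} (hr : 0 < r) {u : ℝ × ℝ} (hu : u.1 ^ 2 + u.2 ^ 2 = 1)
    (hx : u.1 = 0) : N g r u = (u.2 * (g.b / r), u.2 * (g.d / r)) := by
  have h1 : u.2 ^ 2 = 1 := by
    rw [hx] at hu
    linarith
  have h2 : nn r u = r := by
    unfold nn
    rw [h1, hx, show (0 : ℝ) ^ 2 + r ^ 2 * 1 = r ^ 2 by ring, Real.sqrt_sq hr.le]
  unfold N
  rw [h2]
  simp only [lin, hx]
  ext <;> simp <;> ring

theorem mono {r : ℝ} (hr : 0 < r) {u v : ℝ × ℝ} (hu : u.1 ^ 2 + u.2 ^ 2 = 1)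
    (hv : v.1 ^ 2 + v.2 ^ 2 = 1) (h : u.2 ≤ v.2) : r * u.2 / nn r u ≤ r * v.2 / nn r v := by
  have hpu := nn_pos hr hu
  have hpv := nn_pos hr hv
  have squ := nn_sq r u
  have sqv := nn_sq r v
  rw [div_le_div_iff₀ hpu hpv]
  have key : u.2 * nn r v ≤ v.2 * nn r u := by
    rcases le_total 0 u.2 with h0 | h0
    · by_contra hc
      have hc' := not_le.1 hc
      have h1 : 0 ≤ v.2 * nn r u := mul_nonneg (h0.trans h) hpu.le
      have h2 := pow_lt_pow_left₀ hc' h1 (n := 2) (by norm_num)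
      rw [mul_pow, mul_pow, squ, sqv] at h2
      have h3 : u.2 ^ 2 ≤ v.2 ^ 2 := pow_le_pow_left₀ h0 h 2
      have e1 : u.1 ^ 2 = 1 - u.2 ^ 2 := by linarith
      have e2 : v.1 ^ 2 = 1 - v.2 ^ 2 := by linarith
      rw [e1, e2] at h2
      nlinarith
    · rcases le_total 0 v.2 with h0' | h0'
      · have h1 : u.2 * nn r v ≤ 0 := mul_nonpos_of_nonpos_of_nonneg h0 hpv.le
        have h2 : 0 ≤ v.2 * nn r u := mul_nonneg h0' hpu.le
        linarith
      · by_contra hc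
        have hc' := not_le.1 hc
        have hc2 : -u.2 * nn r v < -v.2 * nn r u := by linarith
        have h1 : 0 ≤ -u.2 * nn r v := mul_nonneg (by linarith) hpv.le
        have h2 := pow_lt_pow_left₀ hc2 h1 (n := 2) (by norm_num)
        rw [mul_pow, mul_pow, squ, sqv] at h2
        have h3 : (-v.2) ^ 2 ≤ (-u.2) ^ 2 := pow_le_pow_left₀ (by linarith) (by linarith) 2
        have e1 : u.1 ^ 2 = 1 - u.2 ^ 2 := by linarith
        have e2 : v.1 ^ 2 = 1 - v.2 ^ 2 := by linarith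
        rw [e1, e2] at h2
        nlinarith
  nlinarith

theorem cos_lem {X1 Y1 X2 Y2 : ℝ} (h1 : X1 ^ 2 + Y1 ^ 2 = 1) (hx1 : 0 ≤ X1)
    (h2 : X2 ^ 2 + Y2 ^ 2 = 1) (hx2 : 0 ≤ X2) :
    X1 * X2 + Y1 * Y2 = Real.cos (Real.arcsin Y1 - Real.arcsin Y2) := by
  have e1 : 1 - Y1 ^ 2 = X1 ^ 2 := by linarith
  have e2 : 1 - Y2 ^ 2 = X2 ^ 2 := by linarith
  rw [Real.cos_sub, Real.cos_arcsin, Real.cos_arcsin, Real.sin_arcsin (by nlinarith) (by nlinarith),
    Real.sin_arcsin (by nlinarith) (by nlinarith), e1, e2, Real.sqrt_sq hx1, Real.sqrt_sq hx2]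

theorem extr {X1 Y1 X2 Y2 Xm Ym Xp Yp : ℝ} (h1 : X1 ^ 2 + Y1 ^ 2 = 1) (hx1 : 0 ≤ X1)
    (h2 : X2 ^ 2 + Y2 ^ 2 = 1) (hx2 : 0 ≤ X2) (hm : Xm ^ 2 + Ym ^ 2 = 1) (hxm : 0 ≤ Xm)
    (hp : Xp ^ 2 + Yp ^ 2 = 1) (hxp : 0 ≤ Xp) (a1 : Ym ≤ Y1) (a2 : Y1 ≤ Yp) (a3 : Ym ≤ Y2)
    (a4 : Y2 ≤ Yp) : Xm * Xp + Ym * Yp ≤ X1 * X2 + Y1 * Y2 := by
  rw [cos_lem hm hxm hp hxp, cos_lem h1 hx1 h2 hx2, ← Real.cos_abs (Real.arcsin Ym - Real.arcsin Yp),
    ← Real.cos_abs (Real.arcsin Y1 - Real.arcsin Y2)]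
  have b1 := Real.monotone_arcsin a1
  have b2 := Real.monotone_arcsin a2
  have b3 := Real.monotone_arcsin a3
  have b4 := Real.monotone_arcsin a4
  have c1 := Real.arcsin_le_pi_div_two Yp
  have c2 := Real.neg_pi_div_two_le_arcsin Ym
  apply Real.cos_le_cos_of_nonneg_of_le_pi (abs_nonneg _)
  · rw [abs_le]
    constructor <;> linarith
  · rw [abs_le]
    have : |Real.arcsin Ym - Real.arcsin Yp| = Real.arcsin Yp - Real.arcsin Ym := by
      rw [abs_sub_comm, abs_of_nonneg (by linarith)]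
    rw [this]
    constructor <;> linarith

theorem ext_ip {r : ℝ} (hr : 0 < r) {u v m p : ℝ × ℝ} (hu : u.1 ^ 2 + u.2 ^ 2 = 1 ∧ 0 ≤ u.1)
    (hv : v.1 ^ 2 + v.2 ^ 2 = 1 ∧ 0 ≤ v.1) (hm : m.1 ^ 2 + m.2 ^ 2 = 1 ∧ 0 ≤ m.1)
    (hp : p.1 ^ 2 + p.2 ^ 2 = 1 ∧ 0 ≤ p.1) (a1 : m.2 ≤ u.2) (a2 : u.2 ≤ p.2) (a3 : m.2 ≤ v.2)
    (a4 : v.2 ≤ p.2) : (m.1 * p.1 + r ^ 2 * (m.2 * p.2)) / (nn r m * nn r p) ≤
      (u.1 * v.1 + r ^ 2 * (u.2 * v.2)) / (nn r u * nn r v) := by
  have hun : ∀ w : ℝ × ℝ, w.1 ^ 2 + w.2 ^ 2 = 1 → (w.1 / nn r w) ^ 2 + (r * w.2 / nn r w) ^ 2 = 1 := by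
    intro w hw
    have h1 := nn_pos hr hw
    rw [div_pow, div_pow, ← add_div, div_eq_one_iff_eq (by positivity), nn_sq]
    ring
  have hnon : ∀ w : ℝ × ℝ, w.1 ^ 2 + w.2 ^ 2 = 1 → 0 ≤ w.1 → 0 ≤ w.1 / nn r w :=
    fun w hw h => div_nonneg h (nn_pos hr hw).le
  have := extr (hun u hu.1) (hnon u hu.1 hu.2) (hun v hv.1) (hnon v hv.1 hv.2) (hun m hm.1)
    (hnon m hm.1 hm.2) (hun p hp.1) (hnon p hp.1 hp.2) (mono hr hm.1 hu.1 a1) (mono hr hu.1 hp.1 a2)
    (mono hr hm.1 hv.1 a3) (mono hr hv.1 hp.1 a4)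
  have e : ∀ w z : ℝ × ℝ, w.1 / nn r w * (z.1 / nn r z) + r * w.2 / nn r w * (r * z.2 / nn r z) =
      (w.1 * z.1 + r ^ 2 * (w.2 * z.2)) / (nn r w * nn r z) := by
    intro w z
    ring
  rw [e, e] at this
  exact this

end AngAux

open AngAux

theorem taskAng : TaskAng := by
  intro hPoly D D' C G hunc hpos hT hne hcl hD hD' hto hfrom
  have hCne : C.Nonempty := by
    by_contra h
    rw [Set.not_nonempty_iff_eq_empty] at h
    exact hunc (h ▸ Set.countable_empty)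
  obtain ⟨r0, hr0⟩ := hCne
  have hr0p := hpos r0 hr0
  -- the normalised maps
  have hN1 : ∀ r ∈ C, ∀ u ∈ D, N (G r) r u ∈ D' := by
    intro r hr u hu
    obtain ⟨τ, hτ, h⟩ := hto r hr u hu
    rw [← eq_N (hT r hr) u τ hτ (hD' _ h)]
    exact h
  have hN2 : ∀ r ∈ C, ∀ v ∈ D', ∃ u ∈ D, N (G r) r u = v := by
    intro r hr v hv
    obtain ⟨u, hu, τ, hτ, h⟩ := hfrom r hr v hv
    refine ⟨u, hu, ?_⟩
    rw [← eq_N (hT r hr) u τ hτ (by rw [h]; exact hD' v hv), h]
  -- compactness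
  have hcomp : IsCompact D := by
    refine (isCompact_Icc (a := ((-1 : ℝ), (-1 : ℝ))) (b := ((1 : ℝ), (1 : ℝ)))).of_isClosed_subset hcl ?_
    intro v hv
    have h1 := (hD v hv).1
    refine ⟨⟨?_, ?_⟩, ⟨?_, ?_⟩⟩ <;> simp only <;> nlinarith [sq_nonneg v.1, sq_nonneg v.2]
  obtain ⟨p, hp, hpmax⟩ := hcomp.exists_isMaxOn hne continuous_snd.continuousOn
  obtain ⟨m, hm, hmmin⟩ := hcomp.exists_isMinOn hne continuous_snd.continuousOn
  have hup : ∀ u ∈ D, u.2 ≤ p.2 := fun u hu => hpmax hu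
  have hlow : ∀ u ∈ D, m.2 ≤ u.2 := fun u hu => hmmin hu
  have hP := hD p hp
  have hM := hD m hm
  -- the extremal inner product does not depend on r
  have hext : ∀ r ∈ C, ∀ u ∈ D, ∀ v ∈ D, ip (N (G r) r m) (N (G r) r p) ≤ ip (N (G r) r u) (N (G r) r v) := by
    intro r hr u hu v hv
    rw [ip_N (hT r hr), ip_N (hT r hr)]
    exact ext_ip (hpos r hr) (hD u hu) (hD v hv) hM hP (hlow u hu) (hup u hu) (hlow v hv) (hup v hv)
  have hle : ∀ r ∈ C, ∀ s ∈ C, ip (N (G s) s m) (N (G s) s p) ≤ ip (N (G r) r m) (N (G r) r p) := by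
    intro r hr s hs
    obtain ⟨u, hu, hu'⟩ := hN2 s hs _ (hN1 r hr m hm)
    obtain ⟨v, hv, hv'⟩ := hN2 s hs _ (hN1 r hr p hp)
    rw [← hu', ← hv']
    exact hext s hs u hu v hv
  have hpoly := hPoly C m.1 m.2 p.1 p.2 ((ip (N (G r0) r0 m) (N (G r0) r0 p)) ^ 2)
    (fun hf => hunc hf.countable) hpos hM.2 hP.2 hM.1 hP.1 (by
      intro r hr
      have h1 : ip (N (G r0) r0 m) (N (G r0) r0 p) = ip (N (G r) r m) (N (G r) r p) :=
        le_antisymm (hle r hr r0 hr0) (hle r0 hr0 r hr)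
      rw [h1, ip_N (hT r hr), div_pow, mul_pow, nn_sq, nn_sq]
      have h2 : m.1 ^ 2 + r ^ 2 * m.2 ^ 2 ≠ 0 := by
        rw [← nn_sq]
        exact pow_ne_zero _ (nn_pos (hpos r hr) hM.1).ne'
      have h3 : p.1 ^ 2 + r ^ 2 * p.2 ^ 2 ≠ 0 := by
        rw [← nn_sq]
        exact pow_ne_zero _ (nn_pos (hpos r hr) hP.1).ne'
      field_simp)
  -- orthogonal pairs
  have hOrth : ∀ s : ℝ, s ^ 2 = 1 → (∀ u ∈ D, 0 ≤ s * u.2) → ((1 : ℝ), (0 : ℝ)) ∈ D → ((0 : ℝ), s) ∈ D →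
      FinR C G := by
    intro s hs hsign h1 h2
    refine ⟨{((G r0).a, (G r0).c), ((G r0).b / r0, (G r0).d / r0), (-((G r0).b / r0), -((G r0).d / r0))},
      by simp, ?_⟩
    intro r hr
    left
    have e1 : N (G r) r ((1 : ℝ), (0 : ℝ)) = ((G r).a, (G r).c) := N_e1 (by norm_num) (by norm_num) rfl
    have m1 := hN1 r hr _ h1
    have m2 := hN1 r hr _ h2
    obtain ⟨u, hu, hu'⟩ := hN2 r0 hr0 _ m1
    obtain ⟨v, hv, hv'⟩ := hN2 r0 hr0 _ m2
    have h0 : ip (N (G r0) r0 u) (N (G r0) r0 v) = 0 := by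
      rw [hu', hv', ip_N (hT r hr)]
      simp
    rw [ip_N (hT r0 hr0), div_eq_zero_iff] at h0
    have hnn : nn r0 u * nn r0 v ≠ 0 :=
      mul_ne_zero (nn_pos hr0p (hD u hu).1).ne' (nn_pos hr0p (hD v hv).1).ne'
    have h3 : u.1 * v.1 + r0 ^ 2 * (u.2 * v.2) = 0 := h0.resolve_right hnn
    have h4 : 0 ≤ u.1 * v.1 := mul_nonneg (hD u hu).2 (hD v hv).2
    have h5 : 0 ≤ u.2 * v.2 := by
      have := mul_nonneg (hsign u hu) (hsign v hv)
      have e : s * u.2 * (s * v.2) = s ^ 2 * (u.2 * v.2) := by ring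
      rw [e, hs, one_mul] at this
      exact this
    have h6 : 0 ≤ r0 ^ 2 * (u.2 * v.2) := by positivity
    have h7 : u.1 * v.1 = 0 := by linarith
    have h8 : u.2 * v.2 = 0 := by
      have : r0 ^ 2 * (u.2 * v.2) = 0 := by linarith
      exact (mul_eq_zero.1 this).resolve_left (by positivity)
    rw [← e1, ← hu']
    rcases mul_eq_zero.1 h7 with h | h
    · have hsq : u.2 ^ 2 = 1 := by
        have := (hD u hu).1
        rw [h] at this
        linarith
      rw [N_e2 hr0p (hD u hu).1 h]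
      rcases sq_one hsq with h9 | h9
      · rw [h9]
        simp
      · rw [h9]
        simp
    · have hv2 : v.2 ≠ 0 := by
        intro h9
        have := (hD v hv).1
        rw [h, h9] at this
        norm_num at this
      have hu2 : u.2 = 0 := (mul_eq_zero.1 h8).resolve_right hv2
      rw [N_e1 (hD u hu).1 (hD u hu).2 hu2]
      simp
  -- a point of the right half circle is determined by its second coordinate
  have hdet : ∀ u ∈ D, ∀ v ∈ D, u.2 = v.2 → u = v := by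
    intro u hu v hv h
    have h1 := (hD u hu).1
    have h2 := (hD v hv).1
    rw [h] at h1
    have h3 : u.1 ^ 2 = v.1 ^ 2 := by linarith
    have h4 : u.1 = v.1 := (pow_left_inj₀ (hD u hu).2 (hD v hv).2 (by norm_num)).1 h3
    exact Prod.ext h4 h
  rcases hpoly with h | ⟨hx, hy⟩ | ⟨hx, hy⟩
  · rcases eq_or_lt_of_le (hlow p hp) with heq | hlt
    · -- one direction
      have hDp : ∀ u ∈ D, u = p := fun u hu => hdet u hu p hp (le_antisymm (hup u hu) (heq ▸ hlow u hu))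
      have hDs : ∀ r ∈ C, N (G r) r p = N (G r0) r0 p := by
        intro r hr
        obtain ⟨u, hu, hu'⟩ := hN2 r0 hr0 _ (hN1 r hr p hp)
        rw [← hu', hDp u hu]
      by_cases h1 : p.1 = 0
      · left
        have h2 : p.2 ^ 2 = 1 := by
          have := hP.1
          rw [h1] at this
          linarith
        refine ⟨{((G r0).b / r0, (G r0).d / r0)}, by simp, ?_⟩
        intro r hr
        right
        have h3 := hDs r hr
        rw [N_e2 (hpos r hr) hP.1 h1, N_e2 hr0p hP.1 h1, Prod.mk.injEq] at h3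
        have h4 : p.2 ≠ 0 := by
          intro h5
          rw [h5] at h2
          norm_num at h2
        rw [mul_left_cancel₀ h4 h3.1, mul_left_cancel₀ h4 h3.2]
        rfl
      · by_cases h2 : p.2 = 0
        · left
          refine ⟨{((G r0).a, (G r0).c)}, by simp, ?_⟩
          intro r hr
          left
          have h3 := hDs r hr
          rw [N_e1 hP.1 hP.2 h2, N_e1 hP.1 hP.2 h2] at h3
          rw [h3]
          rfl
        · right
          refine ⟨p.2 / p.1, N (G r0) r0 p, div_ne_zero h2 h1, ?_, ?_⟩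
          · intro h3
            have h4 := hD' _ (hN1 r0 hr0 p hp)
            rw [h3] at h4
            norm_num at h4
          · intro r hr
            refine ⟨nn r p / p.1, ?_⟩
            rw [← hDs r hr]
            have h5 : nn r p ≠ 0 := (nn_pos (hpos r hr) hP.1).ne'
            unfold N
            rw [smul_smul]
            ext
            · simp only [lin, Prod.smul_fst, smul_eq_mul]
              field_simp
            · simp only [lin, Prod.smul_snd, smul_eq_mul]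
              field_simp
    · -- two opposite directions
      have hdot : (m.1 * p.1 + m.2 * p.2) ^ 2 = 1 := by
        have h1 : (m.1 * p.1 + m.2 * p.2) ^ 2 + (m.1 * p.2 - p.1 * m.2) ^ 2 = 
            (m.1 ^ 2 + m.2 ^ 2) * (p.1 ^ 2 + p.2 ^ 2) := by ring
        rw [h, hM.1, hP.1, sub_self] at h1
        linarith
      have hdot2 : m.1 * p.1 + m.2 * p.2 = -1 := by
        rcases sq_one hdot with h1 | h1
        · exfalso
          have : (m.2 - p.2) ^ 2 ≤ 0 := by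
            have := hM.1
            have := hP.1
            nlinarith [sq_nonneg (m.1 - p.1)]
          nlinarith
        · exact h1
      have hsum : m.1 + p.1 = 0 := by
        have h1 : (m.1 + p.1) ^ 2 + (m.2 + p.2) ^ 2 = 0 := by
          have := hM.1
          have := hP.1
          nlinarith
        have h2 : (m.1 + p.1) ^ 2 = 0 := by
          nlinarith [sq_nonneg (m.1 + p.1), sq_nonneg (m.2 + p.2)]
        exact pow_eq_zero_iff (by norm_num) |>.1 h2
      have hm1 : m.1 = 0 := by linarith [hM.2, hP.2]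
      have hp1 : p.1 = 0 := by linarith [hM.2, hP.2]
      have hm2 : m.2 ^ 2 = 1 := by
        have := hM.1
        rw [hm1] at this
        linarith
      have hp2 : p.2 ^ 2 = 1 := by
        have := hP.1
        rw [hp1] at this
        linarith
      have hpm : p.2 = 1 ∧ m.2 = -1 := by
        rcases sq_one hm2 with h1 | h1 <;> rcases sq_one hp2 with h2 | h2
        · exfalso; rw [h1, h2] at hlt; exact lt_irrefl _ hlt
        · exfalso; rw [h1, h2] at hlt; norm_num at hlt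
        · exact ⟨h2, h1⟩
        · exfalso; rw [h1, h2] at hlt; exact lt_irrefl _ hlt
      left
      refine ⟨{((G r0).b / r0, (G r0).d / r0), (-((G r0).b / r0), -((G r0).d / r0))}, by simp, ?_⟩
      intro r hr
      right
      obtain ⟨u, hu, hu'⟩ := hN2 r0 hr0 _ (hN1 r hr p hp)
      obtain ⟨v, hv, hv'⟩ := hN2 r0 hr0 _ (hN1 r hr m hm)
      have ep : N (G r) r p = ((G r).b / r, (G r).d / r) := by
        rw [N_e2 (hpos r hr) hP.1 hp1, hpm.1, one_mul, one_mul]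
      have h0 : ip (N (G r0) r0 u) (N (G r0) r0 v) = -1 := by
        rw [hu', hv', ip_N (hT r hr), hp1, hm1, hpm.1, hpm.2]
        have e1 : nn r p = r := by
          unfold nn
          rw [hp1, hpm.1, show (0 : ℝ) ^ 2 + r ^ 2 * 1 ^ 2 = r ^ 2 by ring, Real.sqrt_sq (hpos r hr).le]
        have e2 : nn r m = r := by
          unfold nn
          rw [hm1, hpm.2, show (0 : ℝ) ^ 2 + r ^ 2 * (-1) ^ 2 = r ^ 2 by ring, Real.sqrt_sq (hpos r hr).le]
        rw [e1, e2]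
        have := (hpos r hr).ne'
        field_simp
        ring
      rw [ip_N (hT r0 hr0)] at h0
      have pu := nn_pos hr0p (hD u hu).1
      have pv := nn_pos hr0p (hD v hv).1
      have h3 : u.1 * v.1 + r0 ^ 2 * (u.2 * v.2) = -(nn r0 u * nn r0 v) := by
        rw [div_eq_iff (by positivity)] at h0
        linarith
      have squ := nn_sq r0 u
      have sqv := nn_sq r0 v
      have h4 : (u.1 * nn r0 v + v.1 * nn r0 u) ^ 2 + r0 ^ 2 * (u.2 * nn r0 v + v.2 * nn r0 u) ^ 2 = 0 := by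
        have e : (u.1 * nn r0 v + v.1 * nn r0 u) ^ 2 + r0 ^ 2 * (u.2 * nn r0 v + v.2 * nn r0 u) ^ 2 =
            (u.1 ^ 2 + r0 ^ 2 * u.2 ^ 2) * nn r0 v ^ 2 + (v.1 ^ 2 + r0 ^ 2 * v.2 ^ 2) * nn r0 u ^ 2 +
              2 * (nn r0 u * nn r0 v) * (u.1 * v.1 + r0 ^ 2 * (u.2 * v.2)) := by ring
        rw [e, h3, ← squ, ← sqv]
        ring
      have h5 : (u.1 * nn r0 v + v.1 * nn r0 u) ^ 2 = 0 := by
        have h6 : 0 ≤ r0 ^ 2 * (u.2 * nn r0 v + v.2 * nn r0 u) ^ 2 := by positivity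
        have h7 : 0 ≤ (u.1 * nn r0 v + v.1 * nn r0 u) ^ 2 := by positivity
        linarith
      have h6 : u.1 * nn r0 v + v.1 * nn r0 u = 0 := pow_eq_zero_iff (by norm_num) |>.1 h5
      have h7 : 0 ≤ u.1 * nn r0 v := mul_nonneg (hD u hu).2 pv.le
      have h8 : 0 ≤ v.1 * nn r0 u := mul_nonneg (hD v hv).2 pu.le
      have h9 : u.1 * nn r0 v = 0 := by linarith
      have h10 : u.1 = 0 := (mul_eq_zero.1 h9).resolve_right pv.ne'
      have h11 : u.2 ^ 2 = 1 := by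
        have := (hD u hu).1
        rw [h10] at this
        linarith
      rw [← ep, ← hu', N_e2 hr0p (hD u hu).1 h10]
      rcases sq_one h11 with h12 | h12
      · rw [h12]
        simp
      · rw [h12]
        simp
  · -- `m = e1`-type: `m.1 = 0`, `p.2 = 0`
    left
    have hp1 : p.1 = 1 := by
      have := hP.1
      rw [hy] at this
      exact (pow_eq_one_iff_of_nonneg hP.2 (n := 2) (by norm_num)).1 (by linarith)
    have hm2 : m.2 = -1 := by
      have h1 : m.2 ^ 2 = 1 := by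
        have := hM.1
        rw [hx] at this
        linarith
      rcases sq_one h1 with h2 | h2
      · exfalso
        have := hlow p hp
        rw [h2, hy] at this
        norm_num at this
      · exact h2
    refine hOrth (-1) (by norm_num) ?_ ?_ ?_
    · intro u hu
      have := hup u hu
      rw [hy] at this
      linarith
    · have : p = ((1 : ℝ), (0 : ℝ)) := Prod.ext hp1 hy
      exact this ▸ hp
    · have : m = ((0 : ℝ), (-1 : ℝ)) := Prod.ext hx hm2
      exact this ▸ hm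
  · left
    have hm1 : m.1 = 1 := by
      have := hM.1
      rw [hy] at this
      exact (pow_eq_one_iff_of_nonneg hM.2 (n := 2) (by norm_num)).1 (by linarith)
    have hp2 : p.2 = 1 := by
      have h1 : p.2 ^ 2 = 1 := by
        have := hP.1
        rw [hx] at this
        linarith
      rcases sq_one h1 with h2 | h2
      · exact h2
      · exfalso
        have := hlow p hp
        rw [h2, hy] at this
        norm_num at this
    refine hOrth 1 (by norm_num) ?_ ?_ ?_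
    · intro u hu
      have := hlow u hu
      rw [hy] at this
      linarith
    · have : m = ((1 : ℝ), (0 : ℝ)) := Prod.ext hm1 hy
      exact this ▸ hm
    · have : p = ((0 : ℝ), (1 : ℝ)) := Prod.ext hx hp2
      exact this ▸ hp

end Pool.Agent.H182R3.VR
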