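import Pool.Agent.H182R3.VR.Stmts

/-! Project H182-VR, task BoxA: the flow box. -/

set_option autoImplicit false
open Set Filter Topology

namespace Pool.Agent.H182R3.VR

namespace BoxAP

theorem act_continuous (g : Aff) : Continuous (act g) := by
  unfold act
  fun_prop

theorem fst_deriv {Z : Set (ℝ × ℝ)} {X : Aff} {Φ : ℝ → Aff} (hF : IsFlow Z X Φ) (q : ℝ × ℝ)
    (t : ℝ) : HasDerivAt (fun s => (act (Φ s) q).1) (act X (act (Φ t) q)).1 t :=
  (ContinuousLinearMap.fst ℝ ℝ ℝ).hasFDerivAt.comp_hasDerivAt t (hF.deriv q t)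

theorem flow_neg {Z : Set (ℝ × ℝ)} {X : Aff} {Φ : ℝ → Aff} (hF : IsFlow Z X Φ) :
    IsFlow Z ⟨-X.a, -X.b, -X.c, -X.d, -X.e, -X.k⟩ (fun t => Φ (-t)) where
  stab t := hF.stab _
  zero := by simp [hF.zero]
  add s t := by
    have : -(s + t) = -s + -t := by ring
    simp only [this]
    exact hF.add _ _
  deriv p t := by
    have h1 := (hF.deriv p (-t)).scomp t (hasDerivAt_neg t)
    have h2 : act ⟨-X.a, -X.b, -X.c, -X.d, -X.e, -X.k⟩ (act (Φ (-t)) p)
        = (-1 : ℝ) • act X (act (Φ (-t)) p) := by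
      ext <;> simp [act] <;> ring
    rw [h2]
    exact h1

theorem main (f : ℝ → ℝ) (x₀ : ℝ) (X : Aff) (Φ : ℝ → Aff) (hZP : ZP f x₀)
    (hF : IsFlow (closure (Gr f)) X Φ) (hpos : 0 < (act X (x₀, f x₀)).1) :
    ∃ a b : ℝ, a < b ∧ ContinuousOn f (Ioo a b) := by
  set κ : ℝ := (act X (x₀, f x₀)).1 / 2 with hκ
  have hκ0 : 0 < κ := by rw [hκ]; linarith
  have hVc : Continuous (fun p => (act X p).1) := (act_continuous X).fst
  obtain ⟨η, hη, hV⟩ := Metric.continuousAt_iff.1 (hVc.continuousAt (x := (x₀, f x₀))) κ hκ0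
  obtain ⟨δ₁, hδ₁, hZ1⟩ := hZP η hη
  set δ₀ : ℝ := min δ₁ η with hδ₀
  have hδ₀0 : 0 < δ₀ := lt_min hδ₁ hη
  have hK : ∀ p ∈ closure (Gr f), |p.1 - x₀| < δ₀ → κ < (act X p).1 ∧ |p.2 - f x₀| < η := by
    intro p hp hpx
    have h1 : |p.2 - f x₀| < η := hZ1 p hp (hpx.trans_le (min_le_left _ _))
    have h2 : dist p (x₀, f x₀) < η := by
      rw [Prod.dist_eq, Real.dist_eq, Real.dist_eq]
      exact max_lt (hpx.trans_le (min_le_right _ _)) h1
    have h3 := hV h2
    rw [Real.dist_eq] at h3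
    have h4 := (abs_lt.1 h3).1
    refine ⟨?_, h1⟩
    have h5 : (act X (x₀, f x₀)).1 = 2 * κ := by rw [hκ]; ring
    linarith
  have hmem : ∀ q ∈ closure (Gr f), ∀ t, act (Φ t) q ∈ closure (Gr f) :=
    fun q hq t => ((hF.stab t).2 q).2 hq
  have hone : ∀ p ∈ closure (Gr f), p.1 = x₀ → p = (x₀, f x₀) := by
    intro p hp hpx
    have h1 : |p.2 - f x₀| ≤ 0 := by
      apply le_of_forall_pos_le_add
      intro ε hε
      obtain ⟨δ, hδ, h⟩ := hZP ε hε
      have := h p hp (by rw [hpx]; simpa using hδ)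
      linarith
    have h2 : p.2 = f x₀ := by
      have := abs_nonpos_iff.1 h1
      linarith
    exact Prod.ext hpx h2
  have hcont : ∀ q : ℝ × ℝ, Continuous (fun s => (act (Φ s) q).1) := fun q =>
    continuous_iff_continuousAt.2 fun t => (fst_deriv hF q t).continuousAt
  have hz0 : ∀ q : ℝ × ℝ, act (Φ 0) q = q := fun q => by rw [hF.zero, act_one]
  -- every point of the closure near `P` is on the orbit of `P`
  have hreach : ∀ q ∈ closure (Gr f), |q.1 - x₀| < δ₀ →
      ∃ t, |t| ≤ |q.1 - x₀| / κ ∧ (act (Φ t) q).1 = x₀ := by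
    intro q hq hqx
    rcases le_total q.1 x₀ with hle | hle
    · have habs : |q.1 - x₀| = x₀ - q.1 := by rw [abs_sub_comm, abs_of_nonneg (by linarith)]
      set T : ℝ := (x₀ - q.1) / κ with hT
      have hT0 : 0 ≤ T := div_nonneg (by linarith) hκ0.le
      have hTk : κ * T = x₀ - q.1 := by rw [hT]; field_simp
      have hb := image_le_of_deriv_right_lt_deriv_boundary
        (f := fun s => -(act (Φ s) q).1) (f' := fun s => -(act X (act (Φ s) q)).1)
        (a := 0) (b := T) (hcont q).neg.continuousOn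
        (fun s _ => (fst_deriv hF q s).neg.hasDerivWithinAt)
        (B := fun s => -(q.1 + κ * s)) (B' := fun _ => -κ)
        (by simp [hz0])
        (fun s => by
          have h : HasDerivAt (fun s : ℝ => -(q.1 + κ * s)) (-(κ * 1)) s :=
            (((hasDerivAt_id s).const_mul κ).const_add q.1).neg
          rwa [mul_one] at h)
        (by
          intro s hs heq
          have e1 : (act (Φ s) q).1 = q.1 + κ * s := by linarith
          have e2 : κ * s < κ * T := mul_lt_mul_of_pos_left hs.2 hκ0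
          have e3 : 0 ≤ κ * s := mul_nonneg hκ0.le hs.1
          have := (hK _ (hmem q hq s) (by
            rw [e1, abs_lt]
            rw [habs] at hqx
            constructor <;> linarith)).1
          linarith)
      have h1 := hb (right_mem_Icc.2 hT0)
      have h2 : x₀ ≤ (act (Φ T) q).1 := by linarith
      have h3 := intermediate_value_Icc hT0 (hcont q).continuousOn
      obtain ⟨t, ht, ht2⟩ := h3 (show x₀ ∈ Icc (act (Φ 0) q).1 (act (Φ T) q).1 from
        ⟨by rw [hz0]; exact hle, h2⟩)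
      refine ⟨t, ?_, ht2⟩
      rw [abs_of_nonneg ht.1, habs]
      exact ht.2
    · have habs : |q.1 - x₀| = q.1 - x₀ := abs_of_nonneg (by linarith)
      set T : ℝ := (q.1 - x₀) / κ with hT
      have hT0 : 0 ≤ T := div_nonneg (by linarith) hκ0.le
      have hTk : κ * T = q.1 - x₀ := by rw [hT]; field_simp
      have hF' := flow_neg hF
      have hb := image_le_of_deriv_right_lt_deriv_boundary
        (f := fun s => (act (Φ (-s)) q).1)
        (f' := fun s => (act ⟨-X.a, -X.b, -X.c, -X.d, -X.e, -X.k⟩ (act (Φ (-s)) q)).1)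
        (a := 0) (b := T) ((hcont q).comp continuous_neg).continuousOn
        (fun s _ => (fst_deriv hF' q s).hasDerivWithinAt)
        (B := fun s => q.1 - κ * s) (B' := fun _ => -κ)
        (by simp [hz0])
        (fun s => by
          have h : HasDerivAt (fun s : ℝ => q.1 - κ * s) (-(κ * 1)) s :=
            ((hasDerivAt_id s).const_mul κ).const_sub q.1
          rwa [mul_one] at h)
        (by
          intro s hs heq
          have e1 : (act (Φ (-s)) q).1 = q.1 - κ * s := heq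
          have e2 : κ * s < κ * T := mul_lt_mul_of_pos_left hs.2 hκ0
          have e3 : 0 ≤ κ * s := mul_nonneg hκ0.le hs.1
          have e4 := (hK _ (hmem q hq (-s)) (by
            rw [e1, abs_lt]
            rw [habs] at hqx
            constructor <;> linarith)).1
          have e5 : (act ⟨-X.a, -X.b, -X.c, -X.d, -X.e, -X.k⟩ (act (Φ (-s)) q)).1
              = -(act X (act (Φ (-s)) q)).1 := by
            simp only [act]; ring
          rw [e5]
          linarith)
      have h1 := hb (right_mem_Icc.2 hT0)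
      have h2 : (act (Φ (-T)) q).1 ≤ x₀ := by linarith
      have h3 := intermediate_value_Icc (show -T ≤ 0 by linarith) (hcont q).continuousOn
      obtain ⟨t, ht, ht2⟩ := h3 (show x₀ ∈ Icc (act (Φ (-T)) q).1 (act (Φ 0) q).1 from
        ⟨h2, by rw [hz0]; exact hle⟩)
      refine ⟨t, ?_, ht2⟩
      rw [abs_of_nonpos ht.2, habs]
      linarith [ht.1]
  have horb : ∀ q ∈ closure (Gr f), |q.1 - x₀| < δ₀ →
      ∃ t, |t| ≤ |q.1 - x₀| / κ ∧ q = act (Φ t) (x₀, f x₀) := by
    intro q hq hqx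
    obtain ⟨t, ht, ht2⟩ := hreach q hq hqx
    refine ⟨-t, by rwa [abs_neg], ?_⟩
    have h1 := hone _ (hmem q hq t) ht2
    rw [← h1, ← act_comp, ← hF.add]
    simp [hF.zero, act_one]
  -- injectivity in time
  obtain ⟨τ, hτ, hU⟩ := Metric.continuousAt_iff.1
    ((hcont (x₀, f x₀)).continuousAt (x := 0)) δ₀ hδ₀0
  have hPm : (x₀, f x₀) ∈ closure (Gr f) := subset_closure (show f x₀ = f x₀ from rfl)
  have hmono : StrictMonoOn (fun s => (act (Φ s) (x₀, f x₀)).1) (Ioo (-τ) τ) := by
    apply strictMonoOn_of_deriv_pos (convex_Ioo _ _) (hcont _).continuousOn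
    intro s hs
    rw [interior_Ioo] at hs
    rw [(fst_deriv hF _ s).deriv]
    have h1 : dist s 0 < τ := by
      rw [Real.dist_eq, sub_zero]
      exact abs_lt.2 hs
    have h2 := hU h1
    rw [hz0, Real.dist_eq] at h2
    exact hκ0.trans (hK _ (hmem _ hPm s) h2).1
  set δ₂ : ℝ := min δ₀ (κ * τ) with hδ₂
  have hδ₂0 : 0 < δ₂ := lt_min hδ₀0 (mul_pos hκ0 hτ)
  have huniq : ∀ x y y' : ℝ, |x - x₀| < δ₂ → (x, y) ∈ closure (Gr f) → (x, y') ∈ closure (Gr f) →
      y = y' := by
    intro x y y' hx hy hy'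
    have hx0 : |x - x₀| < δ₀ := hx.trans_le (min_le_left _ _)
    have hx1 : |x - x₀| / κ < τ := by
      rw [div_lt_iff₀ hκ0, mul_comm]
      exact hx.trans_le (min_le_right _ _)
    obtain ⟨t, ht, ht2⟩ := horb _ hy hx0
    obtain ⟨t', ht', ht2'⟩ := horb _ hy' hx0
    have h1 : t ∈ Ioo (-τ) τ := abs_lt.1 (lt_of_le_of_lt ht hx1)
    have h2 : t' ∈ Ioo (-τ) τ := abs_lt.1 (lt_of_le_of_lt ht' hx1)
    have h3 : t = t' := by
      apply hmono.injOn h1 h2
      show (act (Φ t) (x₀, f x₀)).1 = (act (Φ t') (x₀, f x₀)).1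
      rw [← ht2, ← ht2']
    rw [h3, ← ht2'] at ht2
    exact congrArg Prod.snd ht2
  refine ⟨x₀ - δ₂, x₀ + δ₂, by linarith, fun x hx => ContinuousAt.continuousWithinAt ?_⟩
  have hxd : |x - x₀| < δ₂ := by
    rw [abs_lt]; constructor <;> linarith [hx.1, hx.2]
  refine (isCompact_Icc (a := f x₀ - η) (b := f x₀ + η)).tendsto_nhds_of_unique_mapClusterPt ?_ ?_
  · have hnear : ∀ᶠ x' in 𝓝 x, |x' - x₀| < δ₀ := by
      have hc : Continuous (fun x' : ℝ => |x' - x₀|) := by fun_prop
      exact hc.continuousAt.eventually_lt continuousAt_const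
        (hxd.trans_le (min_le_left _ _))
    filter_upwards [hnear] with x' hx'
    have h1 := (hK (x', f x') (subset_closure (show f x' = f x' from rfl)) hx').2
    have h2 := abs_lt.1 h1
    simp only at h2
    exact ⟨by linarith [h2.1], by linarith [h2.2]⟩
  · intro y _ hy
    refine huniq x y (f x) hxd ?_ (subset_closure (show f x = f x from rfl))
    rw [mem_closure_iff_nhds]
    intro s hs
    rw [nhds_prod_eq, Filter.mem_prod_iff] at hs
    obtain ⟨A, hA, B, hB, hAB⟩ := hs
    obtain ⟨x', hx1, hx2⟩ := ((mapClusterPt_iff_frequently.1 hy B hB).and_eventually hA).exists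
    exact ⟨(x', f x'), hAB ⟨hx2, hx1⟩, rfl⟩

end BoxAP

theorem taskBoxA : TaskBoxA := by
  intro f x₀ X Φ hZP hF hne
  rcases lt_or_gt_of_ne hne with h | h
  · refine BoxAP.main f x₀ _ _ hZP (BoxAP.flow_neg hF) ?_
    have : (act ⟨-X.a, -X.b, -X.c, -X.d, -X.e, -X.k⟩ (x₀, f x₀)).1 = -(act X (x₀, f x₀)).1 := by
      simp only [act]; ring
    rw [this]
    linarith
  · exact BoxAP.main f x₀ X Φ hZP hF h

end Pool.Agent.H182R3.VR
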