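import Pool.Agent.H182R3.VR.Stmts

set_option autoImplicit false
open Set Filter Topology

namespace Pool.Agent.H182R3.VR

theorem boxB_sign (f : ℝ → ℝ) (x₀ : ℝ) (Φ : ℝ → Aff) (hZP : ZP f x₀) (σ : ℝ) (hσ : σ = 1 ∨ σ = -1)
    (hzero : Φ 0 = one) (hadd : ∀ s t, Φ (s + t) = comp (Φ s) (Φ t))
    (hZ : ∀ t q, q ∈ closure (Gr f) → act (Φ t) q ∈ closure (Gr f))
    (huniq : ∀ q ∈ closure (Gr f), q.1 = x₀ → q = (x₀, f x₀))
    (hcont : ∀ q : ℝ × ℝ, Continuous (fun t => (act (Φ t) q).1))
    (τ : ℝ) (hτ : 0 < τ)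
    (hpos : ∀ t, t ≠ 0 → |t| ≤ τ → 0 < σ * ((act (Φ t) (x₀, f x₀)).1 - x₀)) : False := by
  have hc : Continuous (fun q : ℝ × ℝ => σ * ((act (Φ τ) q).1 - x₀)) := by
    simp only [act]
    fun_prop
  have h0 : 0 < σ * ((act (Φ τ) (x₀, f x₀)).1 - x₀) := hpos τ hτ.ne' (by rw [abs_of_pos hτ])
  have hev : ∀ᶠ q in 𝓝 (x₀, f x₀), 0 < σ * ((act (Φ τ) q).1 - x₀) :=
    hc.continuousAt.eventually (lt_mem_nhds h0)
  obtain ⟨ε, hε, hball⟩ := Metric.eventually_nhds_iff.mp hev
  obtain ⟨δ, hδ, hd⟩ := hZP ε hε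
  -- the test point
  set η : ℝ := min (δ / 2) (ε / 2) with hη
  have hη0 : 0 < η := by positivity
  have hη1 : η ≤ δ / 2 := min_le_left _ _
  have hη2 : η ≤ ε / 2 := min_le_right _ _
  have hσa : |σ| = 1 := by rcases hσ with h | h <;> rw [h] <;> norm_num
  have hσσ : σ * σ = 1 := by rcases hσ with h | h <;> rw [h] <;> norm_num
  set x : ℝ := x₀ - σ * η with hx
  have hxx : |x - x₀| = η := by
    have : x - x₀ = -(σ * η) := by rw [hx]; ring
    rw [this, abs_neg, abs_mul, hσa, one_mul, abs_of_pos hη0]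
  have hqZ : (x, f x) ∈ closure (Gr f) := subset_closure rfl
  have hfx : |f x - f x₀| < ε := hd (x, f x) hqZ (by simp only; rw [hxx]; linarith)
  have hdist : dist (x, f x) (x₀, f x₀) < ε := by
    rw [Prod.dist_eq]
    apply max_lt
    · simp only [Real.dist_eq]; rw [hxx]; linarith
    · simp only [Real.dist_eq]; exact hfx
  have hend : 0 < σ * ((act (Φ τ) (x, f x)).1 - x₀) := hball hdist
  have hstart : σ * ((act (Φ 0) (x, f x)).1 - x₀) = -η := by
    rw [hzero, act_one]
    simp only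
    rw [hx]
    have : σ * (x₀ - σ * η - x₀) = -(σ * σ * η) := by ring
    rw [this, hσσ, one_mul]
  have hcq : Continuous (fun t => σ * ((act (Φ t) (x, f x)).1 - x₀)) :=
    continuous_const.mul ((hcont (x, f x)).sub continuous_const)
  have hivt : (0 : ℝ) ∈ (fun t => σ * ((act (Φ t) (x, f x)).1 - x₀)) '' Icc 0 τ := by
    apply intermediate_value_Icc hτ.le hcq.continuousOn
    refine ⟨?_, hend.le⟩
    show σ * ((act (Φ 0) (x, f x)).1 - x₀) ≤ 0
    rw [hstart]
    linarith
  obtain ⟨t, ht, ht0⟩ := hivt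
  simp only at ht0
  have hσ0 : σ ≠ 0 := by
    intro h
    rw [h] at hσσ
    norm_num at hσσ
  have hfirst : (act (Φ t) (x, f x)).1 = x₀ := by
    have := (mul_eq_zero.mp ht0).resolve_left hσ0
    linarith
  have hP := huniq _ (hZ t _ hqZ) hfirst
  have htne : t ≠ 0 := by
    intro h
    rw [h, hstart] at ht0
    linarith
  have hback : (x, f x) = act (Φ (-t)) (x₀, f x₀) := by
    rw [← hP, ← act_comp, ← hadd]
    simp [hzero, act_one]
  have h2 := hpos (-t) (neg_ne_zero.mpr htne) (by rw [abs_neg, abs_of_nonneg ht.1]; exact ht.2)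
  rw [← hback] at h2
  simp only at h2
  have h3 : σ * (x - x₀) = -η := by
    have : σ * (x - x₀) = -(σ * σ * η) := by rw [hx]; ring
    rw [this, hσσ, one_mul]
  linarith

theorem taskBoxB : TaskBoxB := by
  intro f x₀ X Φ hZP hF h1
  by_contra hv
  have huniq : ∀ q ∈ closure (Gr f), q.1 = x₀ → q = (x₀, f x₀) := by
    rintro ⟨x, y⟩ hq hx
    simp only at hx
    subst hx
    by_contra hne
    have hne' : y ≠ f x := fun h => hne (by rw [h])
    obtain ⟨δ, hδ, h⟩ := hZP |y - f x| (abs_pos.mpr (sub_ne_zero.mpr hne'))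
    have := h (x, y) hq (by simpa using hδ)
    exact lt_irrefl _ this
  have hZ : ∀ t q, q ∈ closure (Gr f) → act (Φ t) q ∈ closure (Gr f) :=
    fun t q hq => ((hF.stab t).2 q).mpr hq
  have hPZ : (x₀, f x₀) ∈ closure (Gr f) := subset_closure rfl
  have hdx : ∀ q t, HasDerivAt (fun s => (act (Φ s) q).1) (act X (act (Φ t) q)).1 t := fun q t =>
    (ContinuousLinearMap.fst ℝ ℝ ℝ).hasFDerivAt.comp_hasDerivAt t (hF.deriv q t)
  have hdy : ∀ q t, HasDerivAt (fun s => (act (Φ s) q).2) (act X (act (Φ t) q)).2 t := fun q t =>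
    (ContinuousLinearMap.snd ℝ ℝ ℝ).hasFDerivAt.comp_hasDerivAt t (hF.deriv q t)
  have hcont : ∀ q : ℝ × ℝ, Continuous (fun t => (act (Φ t) q).1) := fun q =>
    continuous_iff_continuousAt.mpr fun t => (hdx q t).continuousAt
  set P : ℝ × ℝ := (x₀, f x₀) with hP
  have hP0 : act (Φ 0) P = P := by rw [hF.zero, act_one]
  by_cases hb : X.b = 0
  · -- the first coordinate is constant
    have hu : ∀ t, (act (Φ t) P).1 = x₀ := by
      have hg : ∀ t, HasDerivAt (fun s => Real.exp (-X.a * s) * ((act (Φ s) P).1 - x₀)) 0 t := by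
        intro t
        have e1 : HasDerivAt (fun s : ℝ => Real.exp (-X.a * s)) (Real.exp (-X.a * t) * (-X.a)) t := by
          have := ((hasDerivAt_id t).const_mul (-X.a)).exp
          simpa using this
        have e2 := (hdx P t).sub_const x₀
        have e3 := e1.mul e2
        have e4 : (act X (act (Φ t) P)).1 = X.a * ((act (Φ t) P).1 - x₀) := by
          have h1' : X.a * x₀ + X.b * f x₀ + X.e = 0 := h1
          simp only [act] at h1' ⊢
          rw [hb] at h1' ⊢
          linear_combination h1'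
        rw [e4] at e3
        have e5 : Real.exp (-X.a * t) * (-X.a) * ((act (Φ t) P).1 - x₀) +
            Real.exp (-X.a * t) * (X.a * ((act (Φ t) P).1 - x₀)) = 0 := by ring
        rw [e5] at e3
        exact e3
      have hconst : ∀ t, Real.exp (-X.a * t) * ((act (Φ t) P).1 - x₀) =
          Real.exp (-X.a * 0) * ((act (Φ 0) P).1 - x₀) := fun t =>
        is_const_of_deriv_eq_zero (fun s => (hg s).differentiableAt) (fun s => (hg s).deriv) t 0
      intro t
      have h2 := hconst t
      rw [hP0] at h2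
      simp only [hP, sub_self, mul_zero] at h2
      have h3 := (mul_eq_zero.mp h2).resolve_left (Real.exp_pos _).ne'
      linarith
    have hy : ∀ t, (act (Φ t) P).2 = f x₀ := by
      intro t
      have := huniq _ (hZ t P hPZ) (hu t)
      rw [this]
    have h4 := hdy P 0
    have h5 : (fun s => (act (Φ s) P).2) = fun _ => f x₀ := funext hy
    rw [h5] at h4
    have h6 := h4.unique (hasDerivAt_const 0 (f x₀))
    rw [hP0] at h6
    exact hv h6
  · have hbv : X.b * (act X P).2 ≠ 0 := mul_ne_zero hb hv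
    -- second derivative
    have hw : HasDerivAt (fun s => (act X (act (Φ s) P)).1) (X.b * (act X P).2) 0 := by
      have e1 := ((hdx P 0).const_mul X.a).add ((hdy P 0).const_mul X.b)
      have e2 := e1.add_const X.e
      rw [hP0, h1, mul_zero, zero_add] at e2
      exact e2
    have hw0 : (act X (act (Φ 0) P)).1 = 0 := by rw [hP0]; exact h1
    obtain ⟨σ, hσ, hσpos⟩ : ∃ σ : ℝ, (σ = 1 ∨ σ = -1) ∧ 0 < σ * (X.b * (act X P).2) := by
      rcases lt_or_gt_of_ne hbv with h | h
      · exact ⟨-1, Or.inr rfl, by linarith⟩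
      · exact ⟨1, Or.inl rfl, by linarith⟩
    have hsl : Tendsto (slope (fun s => σ * (act X (act (Φ s) P)).1) 0) (𝓝[≠] 0)
        (𝓝 (σ * (X.b * (act X P).2))) := hasDerivAt_iff_tendsto_slope.mp (hw.const_mul σ)
    have hev : ∀ᶠ t in 𝓝[≠] (0 : ℝ), 0 < slope (fun s => σ * (act X (act (Φ s) P)).1) 0 t :=
      hsl.eventually (lt_mem_nhds hσpos)
    rw [eventually_nhdsWithin_iff] at hev
    obtain ⟨r, hr, hball⟩ := Metric.eventually_nhds_iff.mp hev
    have hsgn : ∀ t, |t| < r → t ≠ 0 → 0 < t * (σ * (act X (act (Φ t) P)).1) := by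
      intro t ht ht0
      have h2 := hball (y := t) (by rw [Real.dist_eq, sub_zero]; exact ht) ht0
      rw [slope_def_field] at h2
      simp only [hw0, mul_zero, sub_zero] at h2
      have h3 : t * (σ * (act X (act (Φ t) P)).1) = t ^ 2 * (σ * (act X (act (Φ t) P)).1 / t) := by
        field_simp
      rw [h3]
      positivity
    have hdu : ∀ t, HasDerivAt (fun s => σ * ((act (Φ s) P).1 - x₀)) (σ * (act X (act (Φ t) P)).1) t :=
      fun t => ((hdx P t).sub_const x₀).const_mul σ
    have hu0 : σ * ((act (Φ 0) P).1 - x₀) = 0 := by rw [hP0]; simp [hP]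
    refine boxB_sign f x₀ Φ hZP σ hσ hF.zero hF.add hZ huniq hcont (r / 2) (by positivity) ?_
    intro t ht0 ht
    have htr : |t| < r := by linarith
    rcases lt_or_gt_of_ne ht0 with hneg | hposi
    · -- t < 0
      obtain ⟨c, hc, hce⟩ := exists_hasDerivAt_eq_slope (fun s => σ * ((act (Φ s) P).1 - x₀))
        (fun s => σ * (act X (act (Φ s) P)).1) hneg
        (fun s _ => (hdu s).continuousAt.continuousWithinAt) (fun s _ => hdu s)
      have hcr : |c| < r := by
        rw [abs_of_neg hc.2]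
        rw [abs_of_neg hneg] at htr
        linarith [hc.1]
      have h2 := hsgn c hcr hc.2.ne
      rw [hce, hu0] at h2
      have h3 : (0 - σ * ((act (Φ t) P).1 - x₀)) / (0 - t) < 0 := by
        by_contra hcon
        push Not at hcon
        nlinarith [mul_nonpos_of_nonpos_of_nonneg hc.2.le hcon]
      rw [div_lt_iff₀ (by linarith)] at h3
      linarith
    · obtain ⟨c, hc, hce⟩ := exists_hasDerivAt_eq_slope (fun s => σ * ((act (Φ s) P).1 - x₀))
        (fun s => σ * (act X (act (Φ s) P)).1) hposi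
        (fun s _ => (hdu s).continuousAt.continuousWithinAt) (fun s _ => hdu s)
      have hcr : |c| < r := by
        rw [abs_of_pos hc.1]
        rw [abs_of_pos hposi] at htr
        linarith [hc.2]
      have h2 := hsgn c hcr hc.1.ne'
      rw [hce, hu0, sub_zero, sub_zero] at h2
      have h3 : 0 < (σ * ((act (Φ t) P).1 - x₀)) / t := by
        by_contra hcon
        push Not at hcon
        nlinarith [mul_nonpos_of_nonneg_of_nonpos hc.1.le hcon]
      have h4 := mul_pos h3 hposi
      rwa [div_mul_cancel₀ _ hposi.ne'] at h4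

end Pool.Agent.H182R3.VR
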