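import Pool.Agent.H182R3.VR.Stmts

/-!
Task Bridge of H182-VR: isometries of the plane in coordinates.
-/

set_option autoImplicit false
open Set Filter Topology

namespace Pool.Agent.H182R3.VR

namespace Bridge

/-- the plane -/
abbrev P : Type := EuclideanSpace ℝ (Fin 2)

/-- point with given coordinates -/
noncomputable def mk (x y : ℝ) : P := WithLp.toLp 2 ![x, y]

theorem mk_eq (x y : ℝ) : mk x y = x • mk 1 0 + y • mk 0 1 := by
  ext i
  fin_cases i <;> simp [mk]

theorem mk_eta (p : P) : p = mk (p 0) (p 1) := by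
  ext i
  fin_cases i <;> simp [mk]

theorem mk_inj {x y x' y' : ℝ} (h : mk x y = mk x' y') : x = x' ∧ y = y' := by
  have h0 := congrArg (fun p : P => p 0) h
  have h1 := congrArg (fun p : P => p 1) h
  simpa [mk] using And.intro h0 h1

theorem inner_mk (u v : P) : inner ℝ u v = u 0 * v 0 + u 1 * v 1 := by
  rw [PiLp.inner_apply, Fin.sum_univ_two]
  simp [mul_comm]

theorem coords (φ : P ≃ᵢ P) : ∃ a b c d e k : ℝ,
    (∀ x y : ℝ, φ (mk x y) = mk (a * x + b * y + e) (c * x + d * y + k)) ∧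
    a ^ 2 + c ^ 2 = 1 ∧ b ^ 2 + d ^ 2 = 1 ∧ a * b + c * d = 0 := by
  obtain ⟨L, hL⟩ : ∃ L : P ≃ₗᵢ[ℝ] P, ∀ p, φ p = L p + φ 0 := by
    refine ⟨φ.toRealAffineIsometryEquiv.linearIsometryEquiv, fun p => ?_⟩
    have h := φ.toRealAffineIsometryEquiv.map_vadd 0 p
    simpa using h
  refine ⟨L (mk 1 0) 0, L (mk 0 1) 0, L (mk 1 0) 1, L (mk 0 1) 1, φ 0 0, φ 0 1, ?_, ?_, ?_, ?_⟩
  · intro x y
    rw [hL, mk_eq x y, map_add, map_smul, map_smul]
    ext i
    fin_cases i <;> simp [mk, mul_comm]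
  · have h := L.inner_map_map (mk 1 0) (mk 1 0)
    rw [inner_mk, inner_mk] at h
    simp only [mk] at h
    simp at h
    simp only [mk]
    nlinarith
  · have h := L.inner_map_map (mk 0 1) (mk 0 1)
    rw [inner_mk, inner_mk] at h
    simp only [mk] at h
    simp at h
    simp only [mk]
    nlinarith
  · have h := L.inner_map_map (mk 1 0) (mk 0 1)
    rw [inner_mk, inner_mk] at h
    simp only [mk] at h
    simp at h
    simp only [mk]
    nlinarith

end Bridge

open Bridge in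
theorem taskBridge : TaskBridge := by
  intro f hf r hr
  obtain ⟨φ, hφ⟩ := hf r hr
  obtain ⟨a, b, c, d, e, k, hc, h1, h2, h3⟩ := coords φ
  refine ⟨⟨a, b * r, c, d * r, e, k⟩, ⟨?_, ?_⟩, ⟨h1, ?_, ?_⟩⟩
  · intro h0
    simp only [dt] at h0
    have h4 : (a * d - b * c) * r = 0 := by linarith
    have h5 : a * d - b * c = 0 := (mul_eq_zero.1 h4).resolve_right hr.ne'
    have h6 : (a * d - b * c) ^ 2 + (a * b + c * d) ^ 2 = (a ^ 2 + c ^ 2) * (b ^ 2 + d ^ 2) := by ring
    rw [h5, h3, h1, h2] at h6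
    norm_num at h6
  · rintro ⟨x, y⟩
    have e1 : φ (mk x (r * y)) = mk (act ⟨a, b * r, c, d * r, e, k⟩ (x, y)).1
        (act ⟨a, b * r, c, d * r, e, k⟩ (x, y)).2 := by
      rw [hc]
      simp only [act]
      congr 1 <;> ring
    constructor
    · intro h
      have h4 : φ (mk x (r * y)) ∈ Set.range (fun x : ℝ => (WithLp.toLp 2 ![x, f x] : P)) := by
        rw [e1]
        refine ⟨(act ⟨a, b * r, c, d * r, e, k⟩ (x, y)).1, ?_⟩
        have h5 : (act ⟨a, b * r, c, d * r, e, k⟩ (x, y)).2 =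
            f (act ⟨a, b * r, c, d * r, e, k⟩ (x, y)).1 := h
        rw [h5]
        rfl
      rw [← hφ] at h4
      obtain ⟨q, ⟨x', rfl⟩, hq⟩ := h4
      have h6 := φ.injective hq
      obtain ⟨h7, h8⟩ := mk_inj (x := x') (y := r * f x') (x' := x) (y' := r * y) h6
      subst h7
      exact (mul_left_cancel₀ hr.ne' h8).symm
    · intro h
      have h5 : y = f x := h
      have h4 : φ (mk x (r * y)) ∈ Set.range (fun x : ℝ => (WithLp.toLp 2 ![x, f x] : P)) := by
        rw [← hφ, h5]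
        exact ⟨_, ⟨x, rfl⟩, rfl⟩
      rw [e1] at h4
      obtain ⟨x', hx'⟩ := h4
      obtain ⟨h7, h8⟩ := mk_inj (x := x') (y := f x') hx'
      change (act ⟨a, b * r, c, d * r, e, k⟩ (x, y)).2 = f (act ⟨a, b * r, c, d * r, e, k⟩ (x, y)).1
      rw [← h7, ← h8]
  · simp only
    calc (b * r) ^ 2 + (d * r) ^ 2 = (b ^ 2 + d ^ 2) * r ^ 2 := by ring
      _ = r ^ 2 := by rw [h2, one_mul]
  · simp only
    calc a * (b * r) + c * (d * r) = (a * b + c * d) * r := by ring
      _ = 0 := by rw [h3, zero_mul]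

end Pool.Agent.H182R3.VR
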