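import Pool.Agent.H182R3.VR.Stmts

/-! # TaskClu (helper192) -/

set_option autoImplicit false
open Set Filter Topology

namespace Pool.Agent.H182R3.VR

namespace CluTask

/-- the parametrisation of the graph -/
def gp (f : ℝ → ℝ) (x : ℝ) : ℝ × ℝ := (x, f x)

theorem clu_prod {f : ℝ → ℝ} {α y : ℝ} (h : MapClusterPt y (𝓝[>] α) f) :
    MapClusterPt (α, y) (𝓝[>] α) (gp f) := by
  rw [mapClusterPt_iff_frequently] at h ⊢
  intro s hs
  rw [mem_nhds_prod_iff] at hs
  obtain ⟨U, hU, V, hV, hUV⟩ := hs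
  have h1 := h V hV
  have h2 : ∀ᶠ x in 𝓝[>] α, x ∈ U := nhdsWithin_le_nhds hU
  refine (h1.and_eventually h2).mono (fun x hx => ?_)
  exact hUV ⟨hx.2, hx.1⟩

theorem clu_fst {f : ℝ → ℝ} {α : ℝ} {q : ℝ × ℝ} (h : MapClusterPt q (𝓝[>] α) (gp f)) :
    q.1 = α := by
  by_contra hne
  rw [mapClusterPt_iff_frequently] at h
  obtain ⟨U, V, hU, hV, hqU, hαV, hd⟩ := t2_separation hne
  have h1 : (Prod.fst ⁻¹' U : Set (ℝ × ℝ)) ∈ 𝓝 q :=
    (hU.preimage continuous_fst).mem_nhds hqU
  have h2 := h _ h1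
  have h3 : ∀ᶠ x in 𝓝[>] α, x ∈ V := nhdsWithin_le_nhds (hV.mem_nhds hαV)
  obtain ⟨x, hx1, hx2⟩ := (h2.and_eventually h3).exists
  exact Set.disjoint_left.mp hd hx1 hx2

theorem act_cont (g : Aff) : Continuous (act g) := by
  unfold act; fun_prop

theorem act_gp {f : ℝ → ℝ} {g : Aff} (hg : g ∈ Stab (Gr f)) (x : ℝ) :
    act g (gp f x) = gp f (tt g f x) := by
  have h : act g (gp f x) ∈ Gr f := (hg.2 _).mpr rfl
  have h1 : (act g (gp f x)).1 = tt g f x := rfl
  ext
  · exact h1
  · have h2 : (act g (gp f x)).2 = f (act g (gp f x)).1 := h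
    rw [h2, h1]; rfl

theorem map_clu {X Y Z : Type} [TopologicalSpace Y] [TopologicalSpace Z] {F : Filter X} {u : X → Y}
    {y : Y} (φ : Y → Z) (hφ : Continuous φ) (h : MapClusterPt y F u) :
    MapClusterPt (φ y) F (φ ∘ u) := by
  rw [mapClusterPt_iff_frequently] at h ⊢
  intro s hs
  exact h _ (hφ.continuousAt hs)

theorem main : TaskClu := by
  intro f C G α E hF hE ⟨y₁, y₂, hy, h1, h2⟩
  have hne : C.Nonempty := by
    rw [nonempty_iff_ne_empty]
    rintro rfl
    exact hF.unc countable_empty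
  obtain ⟨r₀, hr₀⟩ := hne
  have hg0 := hF.stab r₀ hr₀
  -- cluster points
  have hout : ∀ r ∈ C, ∀ y, MapClusterPt y (𝓝[>] α) f → MapClusterPt (act (G r) (α, y)) E (gp f) := by
    intro r hr y hyc
    have e : act (G r) ∘ gp f = gp f ∘ tt (G r) f := by
      funext x; exact act_gp (hF.stab r hr) x
    have h3 := map_clu (act (G r)) (act_cont _) (clu_prod hyc)
    rw [e] at h3
    rw [← hE r hr]
    rw [mapClusterPt_iff_frequently] at h3 ⊢
    intro s hs
    rw [frequently_map]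
    exact h3 s hs
  have hin : ∀ q, MapClusterPt q E (gp f) → ∃ y, q = act (G r₀) (α, y) := by
    intro q hq
    have e : act (G r₀) ∘ gp f = gp f ∘ tt (G r₀) f := by
      funext x; exact act_gp hg0 x
    have h3 : MapClusterPt q (𝓝[>] α) (act (G r₀) ∘ gp f) := by
      rw [e]
      rw [← hE r₀ hr₀] at hq
      rw [mapClusterPt_iff_frequently] at hq ⊢
      intro s hs
      have := hq s hs
      rw [frequently_map] at this
      exact this
    have h4 := map_clu (act (inv (G r₀))) (act_cont _) h3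
    have e2 : act (inv (G r₀)) ∘ (act (G r₀) ∘ gp f) = gp f := by
      funext x; exact act_inv hg0.1 _
    rw [e2] at h4
    have h5 := clu_fst h4
    refine ⟨(act (inv (G r₀)) q).2, ?_⟩
    rw [← h5]
    exact (act_inv' hg0.1 q).symm
  refine ⟨{((G r₀).b / r₀, (G r₀).d / r₀), (-((G r₀).b / r₀), -((G r₀).d / r₀))}, by simp, ?_⟩
  intro r hr
  right
  obtain ⟨z₁, hz₁⟩ := hin _ (hout r hr y₁ h1)
  obtain ⟨z₂, hz₂⟩ := hin _ (hout r hr y₂ h2)
  have a1 := congrArg Prod.fst hz₁
  have a2 := congrArg Prod.fst hz₂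
  have b1 := congrArg Prod.snd hz₁
  have b2 := congrArg Prod.snd hz₂
  simp only [act] at a1 a2 b1 b2
  have hsub : y₁ - y₂ ≠ 0 := sub_ne_zero.mpr hy
  set lam := (z₁ - z₂) / (y₁ - y₂) with hlam
  have hb : (G r).b = lam * (G r₀).b := by
    have : (G r).b * (y₁ - y₂) = (G r₀).b * (z₁ - z₂) := by linear_combination a1 - a2
    rw [hlam]; field_simp; linarith
  have hd : (G r).d = lam * (G r₀).d := by
    have : (G r).d * (y₁ - y₂) = (G r₀).d * (z₁ - z₂) := by linear_combination b1 - b2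
    rw [hlam]; field_simp; linarith
  have hr0 := hF.pos r hr
  have hr00 := hF.pos r₀ hr₀
  have t1 := (hF.isT r hr).2.1
  have t0 := (hF.isT r₀ hr₀).2.1
  rw [hb, hd] at t1
  have t2 : (lam * r₀) ^ 2 = r ^ 2 := by
    linear_combination t1 - lam ^ 2 * t0
  rcases sq_eq_sq_iff_eq_or_eq_neg.mp t2 with h | h
  · left
    have e1 : lam = r / r₀ := by field_simp; linarith
    rw [hb, hd, e1]
    ext
    · simp only; field_simp
    · simp only; field_simp
  · right
    rw [mem_singleton_iff]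
    have e1 : lam = -(r / r₀) := by field_simp; linarith
    rw [hb, hd, e1]
    ext
    · simp only; field_simp
    · simp only; field_simp

end CluTask

theorem taskClu : TaskClu := CluTask.main

end Pool.Agent.H182R3.VR
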