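import Pool.Agent.H182R3.VR.Stmts

set_option autoImplicit false
open Set Filter Topology

namespace Pool.Agent.H182R3.VR

theorem cp_img_nhds {t : ℝ → ℝ} {x : ℝ} {U : Set ℝ} (hU : U ∈ 𝓝 x) (hc : ContinuousOn t U)
    (hi : InjOn t U) : t '' U ∈ 𝓝 (t x) := by
  obtain ⟨ε, hε, hsub⟩ := Metric.nhds_basis_closedBall.mem_iff.1 hU
  rw [Real.closedBall_eq_Icc] at hsub
  have hlt : x - ε < x + ε := by linarith
  have hc' := hc.mono hsub
  have hi' := hi.mono hsub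
  have m1 : x - ε ∈ Icc (x - ε) (x + ε) := ⟨le_refl _, hlt.le⟩
  have m2 : x ∈ Icc (x - ε) (x + ε) := ⟨by linarith, by linarith⟩
  have m3 : x + ε ∈ Icc (x - ε) (x + ε) := ⟨hlt.le, le_refl _⟩
  rcases hc'.strictMonoOn_of_injOn_Icc' hlt.le hi' with h | h
  · have h1 : t (x - ε) < t x := h m1 m2 (by linarith)
    have h2 : t x < t (x + ε) := h m2 m3 (by linarith)
    exact Filter.mem_of_superset (Ioo_mem_nhds h1 h2)
      ((intermediate_value_Ioo hlt.le hc').trans (Set.image_mono (Ioo_subset_Icc_self.trans hsub)))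
  · have h1 : t x < t (x - ε) := h m1 m2 (by linarith)
    have h2 : t (x + ε) < t x := h m2 m3 (by linarith)
    exact Filter.mem_of_superset (Ioo_mem_nhds h2 h1)
      ((intermediate_value_Ioo' hlt.le hc').trans (Set.image_mono (Ioo_subset_Icc_self.trans hsub)))

theorem cp_spec {f : ℝ → ℝ} {g : Aff} (hg : g ∈ Stab (Gr f)) (x : ℝ) :
    act g (x, f x) = (tt g f x, f (tt g f x)) := by
  have h : act g (x, f x) ∈ Gr f := (hg.2 _).2 rfl
  exact Prod.ext rfl h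

theorem cp_f {f : ℝ → ℝ} {g : Aff} (hg : g ∈ Stab (Gr f)) (x : ℝ) :
    f (tt g f x) = g.c * x + g.d * f x + g.k := by
  have h := congrArg Prod.snd (cp_spec hg x)
  exact h.symm

theorem cp_inv {f : ℝ → ℝ} {g : Aff} (hg : g ∈ Stab (Gr f)) (x : ℝ) :
    tt (inv g) f (tt g f x) = x := by
  have h := act_inv hg.1 (x, f x)
  rw [cp_spec hg x, cp_spec (Stab.inv hg)] at h
  exact congrArg Prod.fst h

theorem cp_inv' {f : ℝ → ℝ} {g : Aff} (hg : g ∈ Stab (Gr f)) (x : ℝ) :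
    tt g f (tt (inv g) f x) = x := by
  have h := act_inv' hg.1 (x, f x)
  rw [cp_spec (Stab.inv hg) x, cp_spec hg] at h
  exact congrArg Prod.fst h

theorem cp_inj {f : ℝ → ℝ} {g : Aff} (hg : g ∈ Stab (Gr f)) : Function.Injective (tt g f) :=
  Function.LeftInverse.injective (g := tt (inv g) f) (cp_inv hg)

/-- the maximal open interval of continuity through `q` -/
def cpJ (f : ℝ → ℝ) (q : ℝ) : Set ℝ :=
  ⋃₀ {U | IsOpen U ∧ U.OrdConnected ∧ q ∈ U ∧ ContinuousOn f U}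

theorem cpJ_open (f : ℝ → ℝ) (q : ℝ) : IsOpen (cpJ f q) := isOpen_sUnion fun _ h => h.1

theorem cpJ_ord (f : ℝ → ℝ) (q : ℝ) : (cpJ f q).OrdConnected := by
  rw [← isPreconnected_iff_ordConnected]
  exact isPreconnected_sUnion q _ (fun _ h => h.2.2.1)
    fun _ h => isPreconnected_iff_ordConnected.2 h.2.1

theorem cpJ_at {f : ℝ → ℝ} {q x : ℝ} (hx : x ∈ cpJ f q) : ContinuousAt f x := by
  obtain ⟨U, hU, hxU⟩ := hx
  exact hU.2.2.2.continuousAt (hU.1.mem_nhds hxU)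

theorem cpJ_cont (f : ℝ → ℝ) (q : ℝ) : ContinuousOn f (cpJ f q) :=
  fun _ hx => (cpJ_at hx).continuousWithinAt

theorem cpJ_self {f : ℝ → ℝ} {p q : ℝ} (hp : p ∈ cpJ f q) : q ∈ cpJ f q := by
  obtain ⟨U, hU, hxU⟩ := hp
  exact ⟨U, hU, hU.2.2.1⟩

theorem cpJ_sub {f : ℝ → ℝ} {q : ℝ} {U : Set ℝ} (h1 : IsOpen U) (h2 : U.OrdConnected)
    (h3 : q ∈ U) (h4 : ContinuousOn f U) : U ⊆ cpJ f q :=
  fun _ hx => ⟨U, ⟨h1, h2, h3, h4⟩, hx⟩

theorem cpJ_eq {f : ℝ → ℝ} {p q : ℝ} (hp : p ∈ cpJ f q) : cpJ f p = cpJ f q := by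
  have h1 : cpJ f q ⊆ cpJ f p := cpJ_sub (cpJ_open f q) (cpJ_ord f q) hp (cpJ_cont f q)
  have h2 : q ∈ cpJ f p := h1 (cpJ_self hp)
  exact Subset.antisymm (cpJ_sub (cpJ_open f p) (cpJ_ord f p) h2 (cpJ_cont f p)) h1

theorem cp_tcont {f : ℝ → ℝ} (g : Aff) {x : ℝ} (hx : ContinuousAt f x) :
    ContinuousAt (tt g f) x := by
  unfold tt
  exact ((continuousAt_const.mul continuousAt_id).add (continuousAt_const.mul hx)).add
    continuousAt_const

theorem cp_img_sub {f : ℝ → ℝ} {g : Aff} (hg : g ∈ Stab (Gr f)) {q : ℝ} (hq : q ∈ cpJ f q) :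
    tt g f '' cpJ f q ⊆ cpJ f (tt g f q) := by
  have hcont : ContinuousOn (tt g f) (cpJ f q) := fun x hx =>
    (cp_tcont g (cpJ_at hx)).continuousWithinAt
  have hnh : ∀ x ∈ cpJ f q, ∀ W ∈ 𝓝 x, tt g f '' (W ∩ cpJ f q) ∈ 𝓝 (tt g f x) := by
    intro x hx W hW
    exact cp_img_nhds (Filter.inter_mem hW ((cpJ_open f q).mem_nhds hx))
      (hcont.mono inter_subset_right) (cp_inj hg).injOn
  refine cpJ_sub ?_ ?_ ⟨q, hq, rfl⟩ ?_
  · rw [isOpen_iff_mem_nhds]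
    rintro _ ⟨x, hx, rfl⟩
    exact Filter.mem_of_superset (hnh x hx univ Filter.univ_mem)
      (Set.image_mono inter_subset_right)
  · rw [← isPreconnected_iff_ordConnected]
    exact (isPreconnected_iff_ordConnected.2 (cpJ_ord f q)).image _ hcont
  · rintro _ ⟨x, hx, rfl⟩
    refine ContinuousAt.continuousWithinAt ?_
    have hs : ContinuousAt (tt (inv g) f) (tt g f x) := by
      unfold ContinuousAt
      rw [cp_inv hg]
      intro W hW
      rw [Filter.mem_map]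
      refine Filter.mem_of_superset (hnh x hx W hW) ?_
      rintro _ ⟨y, hy, rfl⟩
      simp only [mem_preimage]
      rw [cp_inv hg]
      exact hy.1
    have hf : f = fun y => g.c * tt (inv g) f y + g.d * f (tt (inv g) f y) + g.k := by
      funext y
      rw [← cp_f hg, cp_inv' hg]
    have hfx : ContinuousAt f (tt (inv g) f (tt g f x)) := by
      rw [cp_inv hg]
      exact cpJ_at hx
    have hcomp : ContinuousAt (fun y => f (tt (inv g) f y)) (tt g f x) :=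
      ContinuousAt.comp (f := tt (inv g) f) hfx hs
    have hall : ContinuousAt (fun y => g.c * tt (inv g) f y + g.d * f (tt (inv g) f y) + g.k)
        (tt g f x) :=
      ((continuousAt_const.mul hs).add (continuousAt_const.mul hcomp)).add continuousAt_const
    rwa [← hf] at hall

theorem cp_img {f : ℝ → ℝ} {g : Aff} (hg : g ∈ Stab (Gr f)) {q : ℝ} (hq : q ∈ cpJ f q) :
    tt g f '' cpJ f q = cpJ f (tt g f q) := by
  refine Subset.antisymm (cp_img_sub hg hq) ?_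
  have hq' : tt g f q ∈ cpJ f (tt g f q) := cp_img_sub hg hq ⟨q, hq, rfl⟩
  have h := cp_img_sub (Stab.inv hg) hq'
  rw [cp_inv hg] at h
  intro y hy
  exact ⟨tt (inv g) f y, h ⟨y, hy, rfl⟩, cp_inv' hg y⟩

theorem cp_graph {f : ℝ → ℝ} {g : Aff} (hg : g ∈ Stab (Gr f)) (J : Set ℝ) :
    act g '' GrJ f J = GrJ f (tt g f '' J) := by
  ext p
  constructor
  · rintro ⟨⟨x, y⟩, ⟨hx, hy⟩, rfl⟩
    simp only at hx hy
    rw [hy, cp_spec hg]
    exact ⟨⟨x, hx, rfl⟩, rfl⟩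
  · rintro ⟨⟨x, hx, hxp⟩, hp⟩
    refine ⟨(x, f x), ⟨hx, rfl⟩, ?_⟩
    rw [cp_spec hg]
    exact Prod.ext hxp (by rw [hxp]; exact hp.symm)

theorem taskComp : TaskComp := by
  intro f hR a b hab hc
  have hm : (a + b) / 2 ∈ Ioo a b := ⟨by linarith, by linarith⟩
  have hmJ : (a + b) / 2 ∈ cpJ f ((a + b) / 2) :=
    cpJ_sub isOpen_Ioo ordConnected_Ioo hm hc hm
  by_cases hu : cpJ f ((a + b) / 2) = univ
  · left
    rw [continuous_iff_continuousAt]
    intro x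
    exact cpJ_at (q := (a + b) / 2) (by rw [hu]; trivial)
  right
  have hG' : ∀ r : ℝ, ∃ g : Aff, 0 < r → g ∈ Stab (Gr f) ∧ IsT r g := by
    intro r
    by_cases hr : 0 < r
    · obtain ⟨g, h1, h2⟩ := hR r hr
      exact ⟨g, fun _ => ⟨h1, h2⟩⟩
    · exact ⟨one, fun h => absurd h hr⟩
  choose G hG using hG'
  have hunc : ¬ (Ioi (0 : ℝ)).Countable := by
    rw [← Cardinal.le_aleph0_iff_set_countable, Cardinal.mk_Ioi_real, not_le]
    exact Cardinal.aleph0_lt_continuum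
  have hex : ∃ q : ℚ, ¬ {r : ℝ | 0 < r ∧ (q : ℝ) ∈ tt (G r) f '' cpJ f ((a + b) / 2)}.Countable := by
    by_contra hno
    push Not at hno
    refine hunc ((Set.countable_iUnion hno).mono ?_)
    intro r hr
    have hop : IsOpen (tt (G r) f '' cpJ f ((a + b) / 2)) := by
      rw [cp_img (hG r hr).1 hmJ]
      exact cpJ_open _ _
    obtain ⟨q, hq⟩ := Rat.denseRange_cast.exists_mem_open hop ⟨_, ⟨_, hmJ, rfl⟩⟩
    exact mem_iUnion.2 ⟨q, hr, hq⟩
  obtain ⟨q, hq⟩ := hex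
  have hkey : ∀ r ∈ {r : ℝ | 0 < r ∧ (q : ℝ) ∈ tt (G r) f '' cpJ f ((a + b) / 2)},
      act (G r) '' GrJ f (cpJ f ((a + b) / 2)) = GrJ f (cpJ f q) := by
    rintro r ⟨hr, hrq⟩
    rw [cp_graph (hG r hr).1]
    rw [cp_img (hG r hr).1 hmJ] at hrq ⊢
    rw [cpJ_eq hrq]
  have hne : {r : ℝ | 0 < r ∧ (q : ℝ) ∈ tt (G r) f '' cpJ f ((a + b) / 2)}.Nonempty := by
    rw [Set.nonempty_iff_ne_empty]
    intro h
    rw [h] at hq
    exact hq Set.countable_empty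
  refine ⟨cpJ f ((a + b) / 2), cpJ f q, _, G, ⟨hq, fun r hr => hr.1, fun r hr => (hG r hr.1).1,
    fun r hr => (hG r hr.1).2⟩, ⟨cpJ_open _ _, ⟨_, hmJ⟩, cpJ_ord _ _⟩,
    ⟨cpJ_open _ _, ?_, cpJ_ord _ _⟩, hu, cpJ_cont _ _, hkey⟩
  obtain ⟨r, hr, hrq⟩ := hne
  rw [cp_img (hG r hr).1 hmJ] at hrq
  rw [cpJ_eq hrq]
  exact ⟨_, hrq⟩

end Pool.Agent.H182R3.VR
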