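import Pool.Agent.H182R3.VR.Stmts

set_option autoImplicit false
open Set Filter Topology

namespace Pool.Agent.H182R3.VR

namespace DirH73

theorem lin_sub (g : Aff) (s E : ℝ × ℝ) : act g s - act g E = lin g (s - E) := by
  ext <;> simp [act, lin] <;> ring

theorem lin_smul (g : Aff) (t : ℝ) (s : ℝ × ℝ) : lin g (t • s) = t • lin g s := by
  ext <;> simp [lin] <;> ring

theorem lin_sub' (g : Aff) (s E : ℝ × ℝ) : lin g (s - E) = lin g s - lin g E := by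
  ext <;> simp [lin] <;> ring

/-- bound for the linear part -/
def bd (g : Aff) : ℝ := |g.a| + |g.b| + |g.c| + |g.d| + 1

theorem bd_pos (g : Aff) : 0 < bd g := by
  unfold bd; positivity

theorem norm_lin (g : Aff) (u : ℝ × ℝ) : ‖lin g u‖ ≤ bd g * ‖u‖ := by
  have h1 : |u.1| ≤ ‖u‖ := norm_fst_le u
  have h2 : |u.2| ≤ ‖u‖ := norm_snd_le u
  have h0 : 0 ≤ ‖u‖ := norm_nonneg u
  have ha := abs_nonneg g.a
  have hb := abs_nonneg g.b
  have hc := abs_nonneg g.c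
  have hd := abs_nonneg g.d
  rw [Prod.norm_def]
  refine max_le ?_ ?_
  · change |g.a * u.1 + g.b * u.2| ≤ _
    refine (abs_add_le _ _).trans ?_
    rw [abs_mul, abs_mul]
    unfold bd
    nlinarith [mul_le_mul_of_nonneg_left h1 ha, mul_le_mul_of_nonneg_left h2 hb,
      mul_nonneg hc h0, mul_nonneg hd h0]
  · change |g.c * u.1 + g.d * u.2| ≤ _
    refine (abs_add_le _ _).trans ?_
    rw [abs_mul, abs_mul]
    unfold bd
    nlinarith [mul_le_mul_of_nonneg_left h1 hc, mul_le_mul_of_nonneg_left h2 hd,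
      mul_nonneg ha h0, mul_nonneg hb h0]

theorem q_pos {u : ℝ × ℝ} (h : u ≠ 0) : 0 < u.1 ^ 2 + u.2 ^ 2 := by
  by_contra h'
  have h1 : u.1 ^ 2 = 0 := by nlinarith [sq_nonneg u.1, sq_nonneg u.2]
  have h2 : u.2 ^ 2 = 0 := by nlinarith [sq_nonneg u.1, sq_nonneg u.2]
  exact h (Prod.ext (pow_eq_zero_iff (two_ne_zero) |>.1 h1) (pow_eq_zero_iff (two_ne_zero) |>.1 h2))

/-- normalisation -/
theorem q_norm {u : ℝ × ℝ} (h : u ≠ 0) : ∃ t : ℝ, 0 < t ∧ (t • u).1 ^ 2 + (t • u).2 ^ 2 = 1 := by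
  have hq := q_pos h
  refine ⟨1 / Real.sqrt (u.1 ^ 2 + u.2 ^ 2), by positivity, ?_⟩
  have h1 : Real.sqrt (u.1 ^ 2 + u.2 ^ 2) ^ 2 = u.1 ^ 2 + u.2 ^ 2 := Real.sq_sqrt hq.le
  have h2 : Real.sqrt (u.1 ^ 2 + u.2 ^ 2) ≠ 0 := (Real.sqrt_pos.2 hq).ne'
  rw [Prod.smul_fst, Prod.smul_snd, smul_eq_mul, smul_eq_mul, mul_pow, mul_pow, div_pow, one_pow,
    h1, ← mul_add, one_div, inv_mul_cancel₀ hq.ne']

theorem lin_ne {g : Aff} (h : dt g ≠ 0) {v : ℝ × ℝ} (hv : v ≠ 0) : lin g v ≠ 0 := by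
  intro h0
  have h1 : g.a * v.1 + g.b * v.2 = 0 := congrArg Prod.fst h0
  have h2 : g.c * v.1 + g.d * v.2 = 0 := congrArg Prod.snd h0
  have h3 : dt g * v.1 = 0 := by unfold dt; linear_combination g.d * h1 - g.b * h2
  have h4 : dt g * v.2 = 0 := by unfold dt; linear_combination g.a * h2 - g.c * h1
  exact hv (Prod.ext ((mul_eq_zero.1 h3).resolve_left h) ((mul_eq_zero.1 h4).resolve_left h))

theorem circ_compact : IsCompact {v : ℝ × ℝ | v.1 ^ 2 + v.2 ^ 2 = 1} := by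
  refine Metric.isCompact_of_isClosed_isBounded ?_ ?_
  · exact isClosed_eq (by fun_prop) (by fun_prop)
  · refine (Metric.isBounded_closedBall (x := (0 : ℝ × ℝ)) (r := 1)).subset ?_
    intro v hv
    rw [mem_setOf_eq] at hv
    rw [mem_closedBall_zero_iff, Prod.norm_def]
    refine max_le ?_ ?_
    · exact abs_le_one_iff_mul_self_le_one.2 (by nlinarith [sq_nonneg v.1, sq_nonneg v.2])
    · exact abs_le_one_iff_mul_self_le_one.2 (by nlinarith [sq_nonneg v.1, sq_nonneg v.2])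

theorem nonempty (S : Set (ℝ × ℝ)) (E : ℝ × ℝ) (hE : E ∈ closure S) (hE' : E ∉ S) :
    (Dir S E).Nonempty := by
  have h1 : ∀ n : ℕ, ∃ s ∈ S, dist s E < 1 / ((n : ℝ) + 1) := by
    intro n
    obtain ⟨s, hs, hd⟩ := Metric.mem_closure_iff.1 hE (1 / ((n : ℝ) + 1)) (by positivity)
    exact ⟨s, hs, by rwa [dist_comm]⟩
  choose s hs hd using h1
  have h2 : ∀ n, s n - E ≠ 0 := by
    intro n h
    rw [sub_eq_zero] at h
    exact hE' (h ▸ hs n)
  choose t ht ht' using fun n => q_norm (h2 n)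
  obtain ⟨v, hv, φ, hφ, hlim⟩ := circ_compact.tendsto_subseq (x := fun n => t n • (s n - E)) ht'
  refine ⟨v, hv, fun ε hε => ?_⟩
  have h3 : ∀ᶠ n in atTop, dist (t (φ n) • (s (φ n) - E)) v < ε :=
    (Metric.tendsto_nhds.1 hlim) ε hε
  have h4 : Tendsto (fun n => 1 / ((φ n : ℝ) + 1)) atTop (𝓝 0) :=
    tendsto_one_div_add_atTop_nhds_zero_nat.comp hφ.tendsto_atTop
  have h5 : ∀ᶠ n in atTop, 1 / ((φ n : ℝ) + 1) < ε := h4.eventually (gt_mem_nhds hε)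
  obtain ⟨n, hn3, hn5⟩ := (h3.and h5).exists
  exact ⟨s (φ n), hs _, (hd _).trans hn5, t (φ n), ht _, hn3⟩

theorem closed (S : Set (ℝ × ℝ)) (E : ℝ × ℝ) : IsClosed (Dir S E) := by
  rw [← closure_subset_iff_isClosed]
  intro v hv
  constructor
  · have h1 : IsClosed {v : ℝ × ℝ | v.1 ^ 2 + v.2 ^ 2 = 1} := circ_compact.isClosed
    have h2 : Dir S E ⊆ {v : ℝ × ℝ | v.1 ^ 2 + v.2 ^ 2 = 1} := fun v hv => hv.1
    exact closure_minimal h2 h1 hv
  · intro ε hε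
    obtain ⟨v', hv', hd⟩ := Metric.mem_closure_iff.1 hv (ε / 2) (by positivity)
    obtain ⟨s, hs, hsE, ρ, hρ, hρ'⟩ := hv'.2 (ε / 2) (by positivity)
    refine ⟨s, hs, by linarith, ρ, hρ, ?_⟩
    have := dist_triangle (ρ • (s - E)) v' v
    rw [dist_comm v' v] at this
    linarith

theorem sgn (S : Set (ℝ × ℝ)) (E : ℝ × ℝ) (h : ∀ s ∈ S, E.1 < s.1) : ∀ v ∈ Dir S E, 0 ≤ v.1 := by
  intro v hv
  by_contra hlt
  rw [not_le] at hlt
  obtain ⟨s, hs, -, ρ, hρ, hρ'⟩ := hv.2 (-v.1) (by linarith)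
  have h1 : |(ρ • (s - E)).1 - v.1| ≤ dist (ρ • (s - E)) v := by
    rw [Prod.dist_eq]
    exact le_max_left _ _
  have h2 : (ρ • (s - E)).1 - v.1 < -v.1 := lt_of_le_of_lt (le_abs_self _) (h1.trans_lt hρ')
  have h3 : 0 < (ρ • (s - E)).1 := mul_pos hρ (sub_pos.2 (h s hs))
  linarith

theorem img (S : Set (ℝ × ℝ)) (E : ℝ × ℝ) (g : Aff) (hg : dt g ≠ 0) (v : ℝ × ℝ)
    (hv : v ∈ Dir S E) : ∃ τ : ℝ, 0 < τ ∧ τ • lin g v ∈ Dir (act g '' S) (act g E) := by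
  have hv0 : v ≠ 0 := by
    rintro rfl
    have := hv.1
    simp at this
  obtain ⟨τ, hτ, hτ'⟩ := q_norm (lin_ne hg hv0)
  refine ⟨τ, hτ, hτ', fun ε hε => ?_⟩
  have hb := bd_pos g
  obtain ⟨s, hs, hsE, ρ, hρ, hρ'⟩ := hv.2 (min (ε / bd g) (ε / (τ * bd g)))
    (lt_min (by positivity) (by positivity))
  have h1 : dist s E < ε / bd g := hsE.trans_le (min_le_left _ _)
  have h2 : dist (ρ • (s - E)) v < ε / (τ * bd g) := hρ'.trans_le (min_le_right _ _)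
  refine ⟨act g s, ⟨s, hs, rfl⟩, ?_, τ * ρ, by positivity, ?_⟩
  · rw [dist_eq_norm] at h1 ⊢
    rw [lin_sub]
    refine (norm_lin g _).trans_lt ?_
    rw [lt_div_iff₀ hb] at h1
    linarith
  · rw [dist_eq_norm] at h2 ⊢
    have h3 : (τ * ρ) • (act g s - act g E) - τ • lin g v = τ • lin g (ρ • (s - E) - v) := by
      rw [lin_sub, lin_sub' g (ρ • (s - E)) v, lin_smul, smul_sub, mul_smul]
    rw [h3, norm_smul, Real.norm_of_nonneg hτ.le]
    have h4 := norm_lin g (ρ • (s - E) - v)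
    rw [lt_div_iff₀ (by positivity)] at h2
    have h5 := mul_le_mul_of_nonneg_left h4 hτ.le
    refine h5.trans_lt ?_
    linarith

end DirH73

theorem taskDir : TaskDir := fun S E hE hE' =>
  ⟨DirH73.nonempty S E hE hE', DirH73.closed S E, DirH73.sgn S E, DirH73.img S E⟩

end Pool.Agent.H182R3.VR
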