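import Pool.Agent.H182R3.VR.Stmts

/-! Task End: a map between graphs over intervals maps ends to ends. -/

set_option autoImplicit false
open Set Filter Topology

namespace Pool.Agent.H182R3.VR

namespace EndAux

theorem inj_tt {f : ℝ → ℝ} {g : Aff} (hg : g ∈ Stab (Gr f)) : Function.Injective (tt g f) := by
  intro x x' h
  have h1 : act g (x, f x) ∈ Gr f := (hg.2 (x, f x)).2 rfl
  have h2 : act g (x', f x') ∈ Gr f := (hg.2 (x', f x')).2 rfl
  have h3 : (act g (x, f x)).1 = (act g (x', f x')).1 := h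
  have h4 : (act g (x, f x)).2 = (act g (x', f x')).2 := by
    rw [show (act g (x, f x)).2 = f (act g (x, f x)).1 from h1,
      show (act g (x', f x')).2 = f (act g (x', f x')).1 from h2, h3]
  have h5 : act g (x, f x) = act g (x', f x') := Prod.ext h3 h4
  have h6 := congrArg (act (inv g)) h5
  rw [act_inv hg.1, act_inv hg.1] at h6
  exact congrArg Prod.fst h6

theorem image_tt {f : ℝ → ℝ} {g : Aff} {J J' : Set ℝ} (h : act g '' GrJ f J = GrJ f J') :
    tt g f '' J = J' := by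
  ext y
  constructor
  · rintro ⟨x, hx, rfl⟩
    have h1 : act g (x, f x) ∈ GrJ f J' := by
      rw [← h]
      exact ⟨(x, f x), ⟨hx, rfl⟩, rfl⟩
    exact h1.1
  · intro hy
    have h1 : (y, f y) ∈ act g '' GrJ f J := by
      rw [h]
      exact ⟨hy, rfl⟩
    obtain ⟨⟨p1, p2⟩, ⟨hp, hp2⟩, hp'⟩ := h1
    refine ⟨p1, hp, ?_⟩
    have hp3 : p2 = f p1 := hp2
    subst hp3
    exact congrArg Prod.fst hp'

theorem cont_tt {f : ℝ → ℝ} (g : Aff) {J : Set ℝ} (hf : ContinuousOn f J) :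
    ContinuousOn (tt g f) J := by
  unfold tt
  exact ((continuousOn_const.mul continuousOn_id).add (continuousOn_const.mul hf)).add
    continuousOn_const

theorem mono_or_anti {T : ℝ → ℝ} {J : Set ℝ} (hJ : J.OrdConnected) (hne : J.Nonempty)
    (hT : ContinuousOn T J) (hi : Function.Injective T) : StrictMonoOn T J ∨ StrictAntiOn T J := by
  obtain ⟨x0, hx0⟩ := hne
  have : Inhabited J := ⟨⟨x0, hx0⟩⟩
  let g : J → ℝ := Set.domRestrict J T
  have : StrictMono g ∨ StrictAnti g :=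
    Continuous.strictMono_of_inj hT.domRestrict hi.injOn.injective
  exact this.imp strictMono_domRestrict.mp strictAntiOn_iff_strictAnti.mpr

theorem basis_lo {J : Set ℝ} (hne : J.Nonempty) :
    (lo J).HasBasis (fun y => y ∈ J) (fun y => J ∩ Iio y) := by
  unfold lo
  refine hasBasis_biInf_principal' ?_ hne
  intro i hi j hj
  refine ⟨min i j, ?_, ?_, ?_⟩
  · rcases le_total i j with h | h
    · rw [min_eq_left h]; exact hi
    · rw [min_eq_right h]; exact hj
  · exact fun x hx => ⟨hx.1, mem_Iio.2 ((mem_Iio.1 hx.2).trans_le (min_le_left _ _))⟩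
  · exact fun x hx => ⟨hx.1, mem_Iio.2 ((mem_Iio.1 hx.2).trans_le (min_le_right _ _))⟩

theorem basis_hi {J : Set ℝ} (hne : J.Nonempty) :
    (hi J).HasBasis (fun y => y ∈ J) (fun y => J ∩ Ioi y) := by
  unfold hi
  refine hasBasis_biInf_principal' ?_ hne
  intro i hi j hj
  refine ⟨max i j, ?_, ?_, ?_⟩
  · rcases le_total i j with h | h
    · rw [max_eq_right h]; exact hj
    · rw [max_eq_left h]; exact hi
  · exact fun x hx => ⟨hx.1, mem_Ioi.2 ((le_max_left _ _).trans_lt (mem_Ioi.1 hx.2))⟩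
  · exact fun x hx => ⟨hx.1, mem_Ioi.2 ((le_max_right _ _).trans_lt (mem_Ioi.1 hx.2))⟩

theorem basis_gt {J : Set ℝ} {α β : ℝ} (hJ : J ⊆ Ioi α) (hαβ : α < β) (hβ : Ioo α β ⊆ J) :
    (𝓝[>] α).HasBasis (fun x => x ∈ J) (fun x => Ioo α x) := by
  refine (nhdsGT_basis α).to_hasBasis ?_ ?_
  · intro u hu
    refine ⟨(α + min u β) / 2, hβ ⟨?_, ?_⟩, ?_⟩
    · have : α < min u β := lt_min hu hαβ
      linarith
    · have : α < min u β := lt_min hu hαβ
      have := min_le_right u β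
      linarith
    · refine Ioo_subset_Ioo_right ?_
      have : α < min u β := lt_min hu hαβ
      have := min_le_left u β
      linarith
  · intro x hx
    exact ⟨x, hJ hx, Subset.rfl⟩

theorem inter_Iio {J : Set ℝ} {α β x : ℝ} (hJ : J ⊆ Ioi α) (hJc : J.OrdConnected) (hαβ : α < β)
    (hβ : Ioo α β ⊆ J) (hx : x ∈ J) : Ioo α x = J ∩ Iio x := by
  ext z
  constructor
  · rintro ⟨h1, h2⟩
    refine ⟨?_, h2⟩
    by_cases hz : z < β
    · exact hβ ⟨h1, hz⟩
    · have hz' : β ≤ z := not_lt.1 hz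
      have hm : (α + β) / 2 ∈ J := hβ ⟨by linarith, by linarith⟩
      exact hJc.out hm hx ⟨by linarith, h2.le⟩
  · rintro ⟨h1, h2⟩
    exact ⟨hJ h1, h2⟩

end EndAux

open EndAux in
theorem taskEnd : TaskEnd := by
  intro f g J J' α hg hJ hJ' hf himg hJα hβ
  obtain ⟨β, hαβ, hβ⟩ := hβ
  have hinj := inj_tt hg
  have him := image_tt himg
  have hT := cont_tt g hf
  set T := tt g f with hTdef
  have hb := (basis_gt hJα hαβ hβ).map T
  rcases mono_or_anti hJ.2.2 hJ.2.1 hT hinj with hm | hm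
  · left
    have key : ∀ x ∈ J, T '' Ioo α x = J' ∩ Iio (T x) := by
      intro x hx
      rw [inter_Iio hJα hJ.2.2 hαβ hβ hx, ← him]
      ext z
      constructor
      · rintro ⟨w, ⟨hw1, hw2⟩, rfl⟩
        exact ⟨⟨w, hw1, rfl⟩, hm hw1 hx hw2⟩
      · rintro ⟨⟨w, hw1, rfl⟩, hw2⟩
        exact ⟨w, ⟨hw1, (hm.lt_iff_lt hw1 hx).1 hw2⟩, rfl⟩
    refine hb.ext (basis_lo hJ'.2.1) ?_ ?_
    · intro x hx
      exact ⟨T x, by rw [← him]; exact ⟨x, hx, rfl⟩, (key x hx).symm.subset⟩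
    · intro y hy
      rw [← him] at hy
      obtain ⟨x, hx, rfl⟩ := hy
      exact ⟨x, hx, (key x hx).subset⟩
  · right
    have key : ∀ x ∈ J, T '' Ioo α x = J' ∩ Ioi (T x) := by
      intro x hx
      rw [inter_Iio hJα hJ.2.2 hαβ hβ hx, ← him]
      ext z
      constructor
      · rintro ⟨w, ⟨hw1, hw2⟩, rfl⟩
        exact ⟨⟨w, hw1, rfl⟩, hm hw1 hx hw2⟩
      · rintro ⟨⟨w, hw1, rfl⟩, hw2⟩
        exact ⟨w, ⟨hw1, (hm.lt_iff_gt hx hw1).1 hw2⟩, rfl⟩
    refine hb.ext (basis_hi hJ'.2.1) ?_ ?_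
    · intro x hx
      exact ⟨T x, by rw [← him]; exact ⟨x, hx, rfl⟩, (key x hx).symm.subset⟩
    · intro y hy
      rw [← him] at hy
      obtain ⟨x, hx, rfl⟩ := hy
      exact ⟨x, hx, (key x hx).subset⟩

end Pool.Agent.H182R3.VR
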