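import Pool.Agent.H182R3.VR.Stmts

set_option autoImplicit false

/-! Task Flat: the case without rotation part. -/

open Set Filter Topology

namespace Pool.Agent.H182R3.VR

theorem taskFlat : TaskFlat := by
  intro f x₀ X Φ hZP hF h0 ha hb hc hd
  have he : X.e = 0 := by
    have h1 := congrArg Prod.fst h0
    simpa [act, ha, hb] using h1
  have hk : X.d * f x₀ + X.k = 0 := by
    have h1 := congrArg Prod.snd h0
    simpa [act, hc] using h1
  have hinit : ∀ p, act (Φ 0) p = p := fun p => by rw [hF.zero, act_one]
  -- first coordinate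
  have h1 : ∀ p t, (act (Φ t) p).1 = p.1 := by
    intro p t
    have hder : ∀ s, HasDerivAt (fun s => (act (Φ s) p).1) 0 s := by
      intro s
      have h2 : HasDerivAt (fun s => (act (Φ s) p).1) (act X (act (Φ s) p)).1 s :=
        (hF.deriv p s).fst
      have h3 : (act X (act (Φ s) p)).1 = 0 := by
        simp [act, ha, hb, he]
      rwa [h3] at h2
    have h4 := is_const_of_deriv_eq_zero (fun s => (hder s).differentiableAt)
      (fun s => (hder s).deriv) t 0
    simp only [hinit] at h4
    exact h4
  have h2 : ∀ p t, ((act (Φ t) p).2 - f x₀) * Real.exp (-(X.d * t)) = p.2 - f x₀ := by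
    intro p t
    have hder : ∀ s, HasDerivAt (fun s => ((act (Φ s) p).2 - f x₀) * Real.exp (-(X.d * s))) 0 s := by
      intro s
      have h2 : HasDerivAt (fun s => (act (Φ s) p).2) (act X (act (Φ s) p)).2 s :=
        (hF.deriv p s).snd
      have h3 : (act X (act (Φ s) p)).2 = X.d * ((act (Φ s) p).2 - f x₀) := by
        have e : (act X (act (Φ s) p)).2 = X.c * (act (Φ s) p).1 + X.d * (act (Φ s) p).2 + X.k :=
          rfl
        rw [e, hc]
        linear_combination hk
      rw [h3] at h2
      have h4 : HasDerivAt (fun s : ℝ => Real.exp (-(X.d * s)))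
          (Real.exp (-(X.d * s)) * (-X.d)) s := by
        have h5 : HasDerivAt (fun s : ℝ => -(X.d * s)) (-X.d) s := by
          have h6 : HasDerivAt (fun s : ℝ => (-X.d) * s) ((-X.d) * 1) s :=
            (hasDerivAt_id s).const_mul (-X.d)
          rw [mul_one] at h6
          have h7 : (fun s : ℝ => -(X.d * s)) = fun s : ℝ => (-X.d) * s := by
            funext s; ring
          rw [h7]
          exact h6
        exact h5.exp
      exact ((h2.sub_const (f x₀)).mul h4).congr_deriv (by ring)
    have h4 := is_const_of_deriv_eq_zero (fun s => (hder s).differentiableAt)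
      (fun s => (hder s).deriv) t 0
    simp only [hinit, mul_zero, neg_zero, Real.exp_zero, mul_one] at h4
    exact h4
  obtain ⟨δ, hδ, hZ⟩ := hZP 1 one_pos
  have hconst : ∀ x, |x - x₀| < δ → f x = f x₀ := by
    intro x hx
    by_contra hne
    have hpos : 0 < |f x - f x₀| := abs_pos.2 (sub_ne_zero.2 hne)
    have hmem : (x, f x) ∈ closure (Gr f) := subset_closure rfl
    set t : ℝ := Real.log (1 / |f x - f x₀|) / X.d with ht
    have hXt : X.d * t = Real.log (1 / |f x - f x₀|) := by
      rw [ht]; field_simp
    have h3 := hZ (act (Φ t) (x, f x)) (((hF.stab t).2 _).2 hmem) (by rw [h1]; exact hx)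
    have h4 := congrArg abs (h2 (x, f x) t)
    rw [abs_mul, hXt, Real.abs_exp, Real.exp_neg, Real.exp_log (by positivity), one_div,
      inv_inv] at h4
    have h5 : |(act (Φ t) (x, f x)).2 - f x₀| * |f x - f x₀| < 1 * |f x - f x₀| :=
      mul_lt_mul_of_pos_right h3 hpos
    rw [h4, one_mul] at h5
    exact lt_irrefl _ h5
  refine ⟨x₀ - δ, x₀ + δ, by linarith, ?_⟩
  refine continuousOn_const (c := f x₀) |>.congr fun x hx => hconst x ?_
  rw [abs_lt]
  exact ⟨by linarith [hx.1], by linarith [hx.2]⟩

end Pool.Agent.H182R3.VR
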