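import Pool.Agent.H182R3.VR.Stmts

/-! Task Flow (helper82) -/

set_option autoImplicit false

open Set Filter Topology

namespace Pool.Agent.H182R3.VR

namespace FlowAux

section banach

variable {𝔸 : Type*} [NormedRing 𝔸] [NormedAlgebra ℝ 𝔸] [NormedAlgebra ℚ 𝔸] [CompleteSpace 𝔸]
  [NormOneClass 𝔸]

lemma norm_pow_le_R {A : 𝔸} {R : ℝ} (hA : ‖A‖ ≤ R) (k : ℕ) : ‖A ^ k‖ ≤ R ^ k :=
  (norm_pow_le A k).trans (pow_le_pow_left₀ (norm_nonneg _) hA k)

lemma pow_sub_pow_le {A B : 𝔸} {R : ℝ} (hR : 1 ≤ R) (hA : ‖A‖ ≤ R) (hB : ‖B‖ ≤ R) (k : ℕ) :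
    ‖A ^ k - B ^ k‖ ≤ k * R ^ k * ‖A - B‖ := by
  have hR0 : 0 ≤ R := by linarith
  induction k with
  | zero => simp
  | succ k ih =>
    have e : A ^ (k + 1) - B ^ (k + 1) = A ^ k * (A - B) + (A ^ k - B ^ k) * B := by
      rw [pow_succ, pow_succ]; noncomm_ring
    rw [e]
    have h1 : ‖A ^ k * (A - B)‖ ≤ R ^ k * ‖A - B‖ :=
      (norm_mul_le _ _).trans (mul_le_mul_of_nonneg_right (norm_pow_le_R hA k) (norm_nonneg _))
    have h2 : ‖(A ^ k - B ^ k) * B‖ ≤ k * R ^ k * ‖A - B‖ * R :=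
      (norm_mul_le _ _).trans (mul_le_mul ih hB (norm_nonneg _) (by positivity))
    have h3 : R ^ k * ‖A - B‖ ≤ R ^ (k + 1) * ‖A - B‖ :=
      mul_le_mul_of_nonneg_right (pow_le_pow_right₀ hR (Nat.le_succ k)) (norm_nonneg _)
    refine (norm_add_le _ _).trans ?_
    calc ‖A ^ k * (A - B)‖ + ‖(A ^ k - B ^ k) * B‖
        ≤ R ^ (k + 1) * ‖A - B‖ + k * R ^ k * ‖A - B‖ * R := by linarith
      _ = ((k + 1 : ℕ) : ℝ) * R ^ (k + 1) * ‖A - B‖ := by push_cast; ring

open NormedSpace in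
lemma quot_lim (X : 𝔸) (ε : ℕ → ℝ) (hε : ∀ n, 0 < ε n) (h0 : Tendsto ε atTop (𝓝 0)) :
    Tendsto (fun n => (ε n)⁻¹ • (exp (ε n • X) - 1)) atTop (𝓝 X) := by
  have h1 : HasDerivAt (fun u : ℝ => exp (u • X)) (exp ((0 : ℝ) • X) * X) 0 :=
    hasDerivAt_exp_smul_const X (0 : ℝ)
  rw [zero_smul, exp_zero, one_mul] at h1
  have h2 := h1.tendsto_slope_zero
  have h3 : Tendsto ε atTop (𝓝[≠] 0) :=
    tendsto_nhdsWithin_iff.mpr ⟨h0, Eventually.of_forall fun n => (hε n).ne'⟩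
  have h4 := h2.comp h3
  refine h4.congr fun n => ?_
  simp only [Function.comp_apply, zero_add, zero_smul, exp_zero]

open NormedSpace in
lemma lim_pow (X : 𝔸) (Xn : ℕ → 𝔸) (ε : ℕ → ℝ) (hε : ∀ n, 0 < ε n)
    (h0 : Tendsto ε atTop (𝓝 0)) (hX : Tendsto Xn atTop (𝓝 X)) (t : ℝ) (ht : 0 ≤ t) :
    Tendsto (fun n => (1 + ε n • Xn n) ^ ⌊t / ε n⌋₊) atTop (𝓝 (exp (t • X))) := by
  set Y : ℕ → 𝔸 := fun n => (ε n)⁻¹ • (exp (ε n • X) - 1) with hY
  have hYl : Tendsto Y atTop (𝓝 X) := quot_lim X ε hε h0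
  have hexp : ∀ n, exp (ε n • X) = 1 + ε n • Y n := by
    intro n
    simp only [hY]
    rw [smul_inv_smul₀ (hε n).ne']
    abel
  have hk1 : ∀ n, (⌊t / ε n⌋₊ : ℝ) * ε n ≤ t := by
    intro n
    have := Nat.floor_le (div_nonneg ht (hε n).le)
    rwa [le_div_iff₀ (hε n)] at this
  have hk2 : ∀ n, t - ε n ≤ (⌊t / ε n⌋₊ : ℝ) * ε n := by
    intro n
    have h1 := (Nat.lt_floor_add_one (t / ε n)).le
    have h2 : t ≤ ((⌊t / ε n⌋₊ : ℝ) + 1) * ε n := by rwa [div_le_iff₀ (hε n)] at h1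
    linarith
  have hkl : Tendsto (fun n => (⌊t / ε n⌋₊ : ℝ) * ε n) atTop (𝓝 t) := by
    refine tendsto_of_tendsto_of_tendsto_of_le_of_le ?_ tendsto_const_nhds hk2 hk1
    simpa using tendsto_const_nhds.sub h0
  have hB : Tendsto (fun n => (1 + ε n • Y n) ^ ⌊t / ε n⌋₊) atTop (𝓝 (exp (t • X))) := by
    have h1 : ∀ n, (1 + ε n • Y n) ^ ⌊t / ε n⌋₊ = exp (((⌊t / ε n⌋₊ : ℝ) * ε n) • X) := by
      intro n
      rw [← hexp n, ← exp_nsmul]
      congr 1
      rw [mul_smul, Nat.cast_smul_eq_nsmul]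
    simp only [h1]
    exact (exp_continuous.tendsto _).comp (hkl.smul_const X)
  have hdiff : Tendsto (fun n => (1 + ε n • Xn n) ^ ⌊t / ε n⌋₊ - (1 + ε n • Y n) ^ ⌊t / ε n⌋₊)
      atTop (𝓝 0) := by
    set K : ℝ := ‖X‖ + 1 with hK
    have hK0 : 0 ≤ K := by positivity
    have b1 : ∀ᶠ n in atTop, ‖Xn n‖ ≤ K := hX.norm.eventually_le_const (by linarith)
    have b2 : ∀ᶠ n in atTop, ‖Y n‖ ≤ K := hYl.norm.eventually_le_const (by linarith)
    have b3 : Tendsto (fun n => t * Real.exp (t * K) * ‖Xn n - Y n‖) atTop (𝓝 0) := by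
      have := (hX.sub hYl).norm.const_mul (t * Real.exp (t * K))
      simpa using this
    refine squeeze_zero_norm' ?_ b3
    filter_upwards [b1, b2] with n hn1 hn2
    have hen := hε n
    have nb : ∀ Z : 𝔸, ‖Z‖ ≤ K → ‖1 + ε n • Z‖ ≤ 1 + ε n * K := by
      intro Z hZ
      refine (norm_add_le _ _).trans ?_
      rw [norm_one, norm_smul, Real.norm_eq_abs, abs_of_pos hen]
      have := mul_le_mul_of_nonneg_left hZ hen.le
      linarith
    have hR : 1 ≤ 1 + ε n * K := by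
      have : 0 ≤ ε n * K := by positivity
      linarith
    refine (pow_sub_pow_le hR (nb _ hn1) (nb _ hn2) _).trans ?_
    have e1 : (1 + ε n • Xn n) - (1 + ε n • Y n) = ε n • (Xn n - Y n) := by
      rw [smul_sub]; abel
    rw [e1, norm_smul, Real.norm_eq_abs, abs_of_pos hen]
    have e2 : (1 + ε n * K) ^ ⌊t / ε n⌋₊ ≤ Real.exp (t * K) := by
      have h1 : 1 + ε n * K ≤ Real.exp (ε n * K) := by
        have := Real.add_one_le_exp (ε n * K); linarith
      calc (1 + ε n * K) ^ ⌊t / ε n⌋₊ ≤ Real.exp (ε n * K) ^ ⌊t / ε n⌋₊ :=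
            pow_le_pow_left₀ (by linarith) h1 _
        _ = Real.exp ((⌊t / ε n⌋₊ : ℝ) * (ε n * K)) := by rw [Real.exp_nat_mul]
        _ ≤ Real.exp (t * K) := by
            apply Real.exp_le_exp.mpr
            have := mul_le_mul_of_nonneg_right (hk1 n) hK0
            linarith
    calc (⌊t / ε n⌋₊ : ℝ) * (1 + ε n * K) ^ ⌊t / ε n⌋₊ * (ε n * ‖Xn n - Y n‖)
        = ((⌊t / ε n⌋₊ : ℝ) * ε n) * (1 + ε n * K) ^ ⌊t / ε n⌋₊ * ‖Xn n - Y n‖ := by ring
      _ ≤ t * Real.exp (t * K) * ‖Xn n - Y n‖ := by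
          apply mul_le_mul_of_nonneg_right _ (norm_nonneg _)
          exact mul_le_mul (hk1 n) e2 (by positivity) ht
  have := hdiff.add hB
  simpa using this

open NormedSpace in
/-- the one-parameter group -/
lemma group (X : 𝔸) : ∃ Ex : ℝ → 𝔸, Ex 0 = 1 ∧ (∀ s t, Ex (s + t) = Ex s * Ex t) ∧
    (∀ t, HasDerivAt Ex (X * Ex t) t) ∧
    ∀ (Xn : ℕ → 𝔸) (ε : ℕ → ℝ), (∀ n, 0 < ε n) → Tendsto ε atTop (𝓝 0) →
      Tendsto Xn atTop (𝓝 X) → ∀ t : ℝ, 0 ≤ t →
      Tendsto (fun n => (1 + ε n • Xn n) ^ ⌊t / ε n⌋₊) atTop (𝓝 (Ex t)) := by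
  refine ⟨fun t => exp (t • X), by simp, fun s t => ?_, fun t => ?_, fun Xn ε h1 h2 h3 t ht =>
    lim_pow X Xn ε h1 h2 h3 t ht⟩
  · have hc : Commute (s • X) (t • X) := ((Commute.refl X).smul_left s).smul_right t
    change exp ((s + t) • X) = exp (s • X) * exp (t • X)
    rw [add_smul, exp_add_of_commute hc]
  · exact hasDerivAt_exp_smul_const' X t

end banach

/-- homogeneous coordinates -/
abbrev V : Type := ℝ × ℝ × ℝ

/-- the algebra of operators -/
abbrev Op : Type := V →L[ℝ] V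

/-- the coordinates -/
noncomputable def p1 : V →L[ℝ] ℝ := ContinuousLinearMap.fst ℝ ℝ (ℝ × ℝ)
noncomputable def p2 : V →L[ℝ] ℝ :=
  (ContinuousLinearMap.fst ℝ ℝ ℝ).comp (ContinuousLinearMap.snd ℝ ℝ (ℝ × ℝ))
noncomputable def p3 : V →L[ℝ] ℝ :=
  (ContinuousLinearMap.snd ℝ ℝ ℝ).comp (ContinuousLinearMap.snd ℝ ℝ (ℝ × ℝ))

/-- the linear map of an infinitesimal affine map -/
noncomputable def L (Y : Aff) : Op :=
  Y.a • p1.smulRight ((1, 0, 0) : V) + Y.b • p2.smulRight ((1, 0, 0) : V) +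
  Y.c • p1.smulRight ((0, 1, 0) : V) + Y.d • p2.smulRight ((0, 1, 0) : V) +
  Y.e • p3.smulRight ((1, 0, 0) : V) + Y.k • p3.smulRight ((0, 1, 0) : V)

lemma L_apply (Y : Aff) (v : V) : L Y v = (Y.a * v.1 + Y.b * v.2.1 + Y.e * v.2.2,
    Y.c * v.1 + Y.d * v.2.1 + Y.k * v.2.2, 0) := by
  simp only [L, p1, p2, p3, ContinuousLinearMap.add_apply, ContinuousLinearMap.smul_apply,
    ContinuousLinearMap.smulRight_apply, ContinuousLinearMap.coe_fst',
    ContinuousLinearMap.comp_apply, ContinuousLinearMap.coe_snd', Prod.smul_mk, smul_eq_mul,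
    mul_one, mul_zero, Prod.mk_add_mk, add_zero, zero_add]

/-- the operator of an affine map -/
noncomputable def M (g : Aff) : Op := 1 + L ⟨g.a - 1, g.b, g.c, g.d - 1, g.e, g.k⟩

lemma M_apply (g : Aff) (v : V) : M g v = (g.a * v.1 + g.b * v.2.1 + g.e * v.2.2,
    g.c * v.1 + g.d * v.2.1 + g.k * v.2.2, v.2.2) := by
  simp only [M, ContinuousLinearMap.add_apply, ContinuousLinearMap.one_apply, L_apply]
  ext <;> simp <;> ring

lemma M_comp (g h : Aff) : M (comp g h) = M g * M h := by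
  refine ContinuousLinearMap.ext fun v => ?_
  rw [ContinuousLinearMap.mul_apply, M_apply, M_apply, M_apply]
  ext <;> simp [comp] <;> ring

lemma M_one : M one = 1 := by
  refine ContinuousLinearMap.ext fun v => ?_
  rw [M_apply]
  ext <;> simp [one]

/-- the affine map of an operator -/
noncomputable def rd (T : Op) : Aff :=
  ⟨(T (1, 0, 0)).1, (T (0, 1, 0)).1, (T (1, 0, 0)).2.1, (T (0, 1, 0)).2.1, (T (0, 0, 1)).1,
    (T (0, 0, 1)).2.1⟩

lemma rd_M (g : Aff) : rd (M g) = g := by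
  ext <;> simp [rd, M_apply]

/-- entrywise convergence -/
def Lim (h : ℕ → Aff) (g : Aff) : Prop :=
  Tendsto (fun n => (h n).a) atTop (𝓝 g.a) ∧ Tendsto (fun n => (h n).b) atTop (𝓝 g.b) ∧
  Tendsto (fun n => (h n).c) atTop (𝓝 g.c) ∧ Tendsto (fun n => (h n).d) atTop (𝓝 g.d) ∧
  Tendsto (fun n => (h n).e) atTop (𝓝 g.e) ∧ Tendsto (fun n => (h n).k) atTop (𝓝 g.k)

lemma L_lim {h : ℕ → Aff} {g : Aff} (H : Lim h g) :
    Tendsto (fun n => L (h n)) atTop (𝓝 (L g)) := by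
  obtain ⟨h1, h2, h3, h4, h5, h6⟩ := H
  unfold L
  exact (((((h1.smul_const _).add (h2.smul_const _)).add (h3.smul_const _)).add
    (h4.smul_const _)).add (h5.smul_const _)).add (h6.smul_const _)

lemma M_lim {h : ℕ → Aff} {g : Aff} (H : Lim h g) :
    Tendsto (fun n => M (h n)) atTop (𝓝 (M g)) := by
  obtain ⟨h1, h2, h3, h4, h5, h6⟩ := H
  unfold M
  refine tendsto_const_nhds.add (L_lim ⟨?_, ?_, ?_, ?_, ?_, ?_⟩)
  · exact h1.sub_const 1
  · exact h2
  · exact h3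
  · exact h4.sub_const 1
  · exact h5
  · exact h6

lemma rd_lim {T : ℕ → Op} {S : Op} (H : Tendsto T atTop (𝓝 S)) :
    Lim (fun n => rd (T n)) (rd S) := by
  have h : ∀ v : V, Tendsto (fun n => T n v) atTop (𝓝 (S v)) := fun v =>
    ((ContinuousLinearMap.apply ℝ V v).continuous.tendsto S).comp H
  have hf : ∀ v : V, Tendsto (fun n => (T n v).1) atTop (𝓝 (S v).1) := fun v =>
    (continuous_fst.tendsto _).comp (h v)
  have hs : ∀ v : V, Tendsto (fun n => (T n v).2.1) atTop (𝓝 (S v).2.1) := fun v =>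
    ((continuous_fst.comp continuous_snd).tendsto _).comp (h v)
  exact ⟨hf _, hf _, hs _, hs _, hf _, hs _⟩

lemma act_lim {h : ℕ → Aff} {g : Aff} (H : Lim h g) (p : ℝ × ℝ) :
    Tendsto (fun n => act (h n) p) atTop (𝓝 (act g p)) := by
  obtain ⟨h1, h2, h3, h4, h5, h6⟩ := H
  exact (((h1.mul_const _).add (h2.mul_const _)).add h5).prodMk_nhds
    (((h3.mul_const _).add (h4.mul_const _)).add h6)

lemma inv_lim {h : ℕ → Aff} {g : Aff} (H : Lim h g) (hg : dt g ≠ 0) :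
    Lim (fun n => inv (h n)) (inv g) := by
  obtain ⟨h1, h2, h3, h4, h5, h6⟩ := H
  have hd : Tendsto (fun n => dt (h n)) atTop (𝓝 (dt g)) := (h1.mul h4).sub (h2.mul h3)
  exact ⟨h4.div hd hg, h2.neg.div hd hg, h3.neg.div hd hg, h1.div hd hg,
    ((h2.mul h6).sub (h4.mul h5)).div hd hg, ((h3.mul h5).sub (h1.mul h6)).div hd hg⟩

lemma stab_lim {Z : Set (ℝ × ℝ)} (hZ : IsClosed Z) {h : ℕ → Aff} {g : Aff} (H : Lim h g)
    (hs : ∀ n, h n ∈ Stab Z) (hg : dt g ≠ 0) : g ∈ Stab Z := by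
  refine ⟨hg, fun p => ⟨fun hp => ?_, fun hp => ?_⟩⟩
  · have h1 : act (inv g) (act g p) ∈ Z :=
      hZ.mem_of_tendsto (act_lim (inv_lim H hg) (act g p)) (Eventually.of_forall fun n => by
        have h2 := Stab.inv (hs n)
        exact (h2.2 _).mpr hp)
    rwa [act_inv hg] at h1
  · exact hZ.mem_of_tendsto (act_lim H p) (Eventually.of_forall fun n => ((hs n).2 p).mpr hp)

/-- powers -/
def pw (g : Aff) : ℕ → Aff
  | 0 => one
  | k + 1 => comp (pw g k) g

lemma M_pw (g : Aff) (k : ℕ) : M (pw g k) = M g ^ k := by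
  induction k with
  | zero => rw [pow_zero]; exact M_one
  | succ k ih => rw [pow_succ, ← ih, ← M_comp]; rfl

lemma one_stab (Z : Set (ℝ × ℝ)) : one ∈ Stab Z :=
  ⟨by simp [dt, one], fun p => by rw [act_one]⟩

lemma pw_stab {Z : Set (ℝ × ℝ)} {g : Aff} (hg : g ∈ Stab Z) (k : ℕ) : pw g k ∈ Stab Z := by
  induction k with
  | zero => exact one_stab Z
  | succ k ih => exact Stab.comp ih hg

lemma dt_ne {g : Aff} {S : Op} (h : S * M g = 1) : dt g ≠ 0 := by
  intro h0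
  have hS : ∀ v : V, S (M g v) = v := fun v => by
    have := congrArg (fun T : Op => T v) h
    simpa using this
  have k1 := hS (g.d, -g.c, 0)
  have k2 := hS (-g.b, g.a, 0)
  have k3 := hS (1, 0, 0)
  have h0' : g.a * g.d - g.b * g.c = 0 := h0
  have e1 : M g (g.d, -g.c, 0) = 0 := by
    rw [M_apply]; ext
    · simp only [mul_zero, add_zero, Prod.fst_zero]; linarith
    · simp only [mul_zero, add_zero, Prod.snd_zero, Prod.fst_zero]; ring
    · simp
  have e2 : M g (-g.b, g.a, 0) = 0 := by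
    rw [M_apply]; ext
    · simp only [mul_zero, add_zero, Prod.fst_zero]; ring
    · simp only [mul_zero, add_zero, Prod.snd_zero, Prod.fst_zero]; linarith
    · simp
  rw [e1, map_zero] at k1
  rw [e2, map_zero] at k2
  have a1 : g.c = 0 := by
    have := congrArg (fun v : V => v.2.1) k1
    simp only [Prod.snd_zero, Prod.fst_zero] at this
    linarith
  have a2 : g.a = 0 := by
    have := congrArg (fun v : V => v.2.1) k2
    simp only [Prod.snd_zero, Prod.fst_zero] at this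
    linarith
  have e3 : M g (1, 0, 0) = 0 := by
    rw [M_apply, a1, a2]; ext <;> simp
  rw [e3, map_zero] at k3
  have := congrArg (fun v : V => v.1) k3
  simp at this

end FlowAux

open FlowAux in
theorem taskFlow : TaskFlow := by
  intro Z hZ gs ε X hgs hε h0 hV
  let _ : NormedAlgebra ℚ Op := NormedAlgebra.restrictScalars ℚ ℝ Op
  obtain ⟨Ex, E0, Eadd, Eder, Elim⟩ := group (𝔸 := Op) (L X)
  set Y : ℕ → Aff := fun n => ⟨((gs n).a - 1) / ε n, (gs n).b / ε n, (gs n).c / ε n,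
    ((gs n).d - 1) / ε n, (gs n).e / ε n, (gs n).k / ε n⟩ with hY
  have hYl : Lim Y X := hV
  have hM : ∀ n, M (gs n) = 1 + ε n • L (Y n) := by
    intro n
    have hn := (hε n).ne'
    refine ContinuousLinearMap.ext fun v => ?_
    simp only [M, ContinuousLinearMap.add_apply, ContinuousLinearMap.one_apply,
      ContinuousLinearMap.smul_apply, FlowAux.L_apply, hY]
    congr 1
    ext
    · simp only [Prod.smul_mk, smul_eq_mul]; field_simp
    · simp only [Prod.smul_mk, smul_eq_mul]; field_simp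
    · simp
  -- limits for nonnegative times
  have hpos : ∀ t : ℝ, 0 ≤ t → ∃ h : ℕ → Aff, (∀ n, h n ∈ Stab Z) ∧ Lim h (rd (Ex t)) ∧
      Ex t = M (rd (Ex t)) := by
    intro t ht
    have h1 := Elim (fun n => L (Y n)) ε hε h0 (L_lim hYl) t ht
    have h2 : ∀ n, (1 + ε n • L (Y n)) ^ ⌊t / ε n⌋₊ = M (pw (gs n) ⌊t / ε n⌋₊) := by
      intro n
      rw [M_pw, hM n]
    simp only [h2] at h1
    have h3 := rd_lim h1
    simp only [rd_M] at h3
    exact ⟨_, fun n => pw_stab (hgs n) _, h3, tendsto_nhds_unique h1 (M_lim h3)⟩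
  have hinv : ∀ t, Ex (-t) * Ex t = 1 := fun t => by rw [← Eadd, neg_add_cancel, E0]
  have hposS : ∀ t : ℝ, 0 ≤ t → rd (Ex t) ∈ Stab Z := by
    intro t ht
    obtain ⟨h, h1, h2, h3⟩ := hpos t ht
    have h4 := hinv t
    rw [h3] at h4
    exact stab_lim hZ h2 h1 (dt_ne h4)
  have hall : ∀ t : ℝ, rd (Ex t) ∈ Stab Z ∧ Ex t = M (rd (Ex t)) := by
    intro t
    rcases le_or_gt 0 t with ht | ht
    · exact ⟨hposS t ht, (hpos t ht).choose_spec.2.2⟩
    · have h1 := hposS (-t) (by linarith)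
      obtain ⟨-, -, -, h3⟩ := hpos (-t) (by linarith)
      have h5 : Ex t * Ex (-t) = 1 := by rw [← Eadd, add_neg_cancel, E0]
      have h6 : M (rd (Ex (-t))) * M (inv (rd (Ex (-t)))) = 1 := by
        rw [← M_comp]
        refine ContinuousLinearMap.ext fun v => ?_
        have hd := h1.1
        have hd' : (rd (Ex (-t))).a * (rd (Ex (-t))).d - (rd (Ex (-t))).b * (rd (Ex (-t))).c ≠ 0 := hd
        rw [M_apply]
        ext
        · simp only [comp, inv, ContinuousLinearMap.one_apply]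
          field_simp
          simp only [dt]
          ring
        · simp only [comp, inv, ContinuousLinearMap.one_apply]
          field_simp
          simp only [dt]
          ring
        · simp
      have h7 : Ex t = M (inv (rd (Ex (-t)))) := by
        calc Ex t = Ex t * (M (rd (Ex (-t))) * M (inv (rd (Ex (-t))))) := by rw [h6, mul_one]
          _ = (Ex t * Ex (-t)) * M (inv (rd (Ex (-t)))) := by rw [← mul_assoc, ← h3]
          _ = _ := by rw [h5, one_mul]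
      have h8 : rd (Ex t) = inv (rd (Ex (-t))) := by rw [h7, rd_M]
      rw [h8]
      exact ⟨Stab.inv h1, h7⟩
  refine ⟨fun t => rd (Ex t), ⟨fun t => (hall t).1, ?_, ?_, ?_⟩⟩
  · change rd (Ex 0) = one
    rw [E0, ← M_one, rd_M]
  · intro s t
    change rd (Ex (s + t)) = comp (rd (Ex s)) (rd (Ex t))
    rw [Eadd]
    conv_lhs => rw [(hall s).2, (hall t).2]
    rw [← M_comp, rd_M]
  · intro p t
    have hval : ∀ s, Ex s ((p.1, p.2, 1) : V) =
        ((act (rd (Ex s)) p).1, (act (rd (Ex s)) p).2, 1) := by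
      intro s
      conv_lhs => rw [(hall s).2]
      rw [M_apply]
      simp [act]
    have h1 : HasDerivAt (fun s => Ex s ((p.1, p.2, 1) : V))
        ((L X * Ex t) ((p.1, p.2, 1) : V)) t := by
      have := ((ContinuousLinearMap.apply ℝ V ((p.1, p.2, 1) : V)).hasFDerivAt
        (x := Ex t)).comp_hasDerivAt t (Eder t)
      exact this
    have h2 : (L X * Ex t) ((p.1, p.2, 1) : V) = ((act X (act (rd (Ex t)) p)).1,
        (act X (act (rd (Ex t)) p)).2, 0) := by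
      rw [ContinuousLinearMap.mul_apply, hval t, FlowAux.L_apply]
      simp [act]
    rw [h2] at h1
    have h3 : HasDerivAt (fun s => (Ex s ((p.1, p.2, 1) : V)).1) (act X (act (rd (Ex t)) p)).1 t :=
      (ContinuousLinearMap.fst ℝ ℝ (ℝ × ℝ)).hasFDerivAt.comp_hasDerivAt t h1
    have h4 : HasDerivAt (fun s => (Ex s ((p.1, p.2, 1) : V)).2.1)
        (act X (act (rd (Ex t)) p)).2 t :=
      ((ContinuousLinearMap.fst ℝ ℝ ℝ).comp
        (ContinuousLinearMap.snd ℝ ℝ (ℝ × ℝ))).hasFDerivAt.comp_hasDerivAt t h1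
    simp only [hval] at h3 h4
    exact h3.prodMk h4

end Pool.Agent.H182R3.VR
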