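import Pool.Agent.H182R3.VR.Stmts

/-!
# TaskLine: the graph is contained in the line
-/

set_option autoImplicit false
open Set Filter Topology

namespace Pool.Agent.H182R3.VR

theorem taskLine : TaskLine := by
  intro f x₀ k p hf hs x
  by_contra hne
  obtain ⟨h0, hh0⟩ : ∃ h0, h0 = (f x - k) - p * (x - x₀) := ⟨_, rfl⟩
  have h0ne : h0 ≠ 0 := fun h => hne (by rw [hh0] at h; linarith)
  have h0pos : 0 < |h0| := abs_pos.2 h0ne
  have hlim : Tendsto (fun y => (f y - k) - p * (y - x₀)) (𝓝[>] x₀) (𝓝 0) := by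
    have h1 : Tendsto (fun y : ℝ => y - x₀) (𝓝[>] x₀) (𝓝 0) := by
      have h2 : Tendsto (fun y : ℝ => y - x₀) (𝓝 x₀) (𝓝 (x₀ - x₀)) :=
        (continuous_id.sub continuous_const).tendsto x₀
      rw [sub_self] at h2
      exact h2.mono_left nhdsWithin_le_nhds
    have h2 := (hf.sub_const k).sub (h1.const_mul p)
    simpa using h2
  have hev : ∀ᶠ y in 𝓝[>] x₀, |(f y - k) - p * (y - x₀)| < |h0| := by
    have h1 := hlim.abs
    rw [abs_zero] at h1
    exact h1.eventually (gt_mem_nhds h0pos)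
  obtain ⟨u, hu, hsub⟩ := mem_nhdsGT_iff_exists_Ioo_subset.1 hev
  have hu' : 0 < u - x₀ := sub_pos.2 hu
  obtain ⟨s, hs0, hs1, hs2⟩ := hs ((u - x₀) / |h0|) (div_pos hu' h0pos)
  obtain ⟨δ, hδ⟩ : ∃ δ, δ = s * h0 := ⟨_, rfl⟩
  have hδ1 : |δ| < u - x₀ := by
    rw [hδ, abs_mul]
    rwa [lt_div_iff₀ h0pos] at hs1
  have hδ0 : 0 < |δ| := by
    rw [hδ, abs_mul]
    exact mul_pos hs0 h0pos
  have hstep : ∀ t : ℝ, (x + (t + 1) * δ, f x + (t + 1) * δ * p) ∈ Gr f ↔
      (x + t * δ, f x + t * δ * p) ∈ Gr f := by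
    intro t
    rw [← hs2 (x + t * δ, f x + t * δ * p)]
    have e : (f x + t * δ * p - k) - p * (x + t * δ - x₀) = h0 := by rw [hh0]; ring
    have : shr (x₀, k) p s (x + t * δ, f x + t * δ * p) =
        (x + (t + 1) * δ, f x + (t + 1) * δ * p) := by
      unfold shr
      simp only
      rw [e, ← hδ]
      ext <;> simp <;> ring
    rw [this]
  have hall : ∀ j : ℤ, (x + (j : ℝ) * δ, f x + (j : ℝ) * δ * p) ∈ Gr f := by
    intro j
    induction j using Int.induction_on with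
    | zero => simp [Gr]
    | succ i ih =>
      have := (hstep (i : ℝ)).2 (by simpa using ih)
      push_cast
      exact this
    | pred i ih =>
      have h1 := hstep (-(i : ℝ) - 1)
      have h2 : (x + (-(i : ℝ) - 1 + 1) * δ, f x + (-(i : ℝ) - 1 + 1) * δ * p) ∈ Gr f := by
        have e : -(i : ℝ) - 1 + 1 = -(i : ℝ) := by ring
        rw [e]
        push_cast at ih
        exact ih
      have h3 := h1.1 h2
      push_cast
      exact h3
  -- choose the index
  obtain ⟨j, hj1, hj2⟩ : ∃ j : ℤ, x₀ < x + (j : ℝ) * δ ∧ x + (j : ℝ) * δ < u := by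
    obtain ⟨i, hi⟩ : ∃ i : ℤ, i = ⌊(x₀ - x) / |δ|⌋ + 1 := ⟨_, rfl⟩
    have h1 : (x₀ - x) / |δ| < i := by
      rw [hi]; push_cast; exact Int.lt_floor_add_one _
    have h2 : (i : ℝ) ≤ (x₀ - x) / |δ| + 1 := by
      rw [hi]; push_cast
      have := Int.floor_le ((x₀ - x) / |δ|)
      linarith
    have h3 : x₀ - x < i * |δ| := by rwa [div_lt_iff₀ hδ0] at h1
    have h4 : (i : ℝ) * |δ| ≤ (x₀ - x) + |δ| := by
      have := mul_le_mul_of_nonneg_right h2 hδ0.le
      rwa [add_mul, div_mul_cancel₀ _ hδ0.ne', one_mul] at this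
    rcases le_total 0 δ with hp | hp
    · rw [abs_of_nonneg hp] at h3 h4 hδ1
      exact ⟨i, by linarith, by linarith⟩
    · rw [abs_of_nonpos hp] at h3 h4 hδ1
      refine ⟨-i, ?_, ?_⟩
      · push_cast; linarith
      · push_cast; linarith
  have hmem := hall j
  have hval : f (x + (j : ℝ) * δ) = f x + (j : ℝ) * δ * p := by
    have := hmem
    unfold Gr at this
    simpa using this.symm
  have hlt := hsub ⟨hj1, hj2⟩
  simp only [mem_ofPred_eq] at hlt
  rw [hval] at hlt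
  have e : (f x + (j : ℝ) * δ * p - k) - p * (x + (j : ℝ) * δ - x₀) = h0 := by rw [hh0]; ring
  rw [e] at hlt
  exact lt_irrefl _ hlt

end Pool.Agent.H182R3.VR
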