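import Pool.Agent.H182R3.VR.Stmts

set_option autoImplicit false
set_option maxHeartbeats 4000000
open Set Filter Topology

namespace Pool.Agent.H182R3.VR

namespace MinAux

/-- distance to the identity -/
def nr (g : Aff) : ℝ := |g.a - 1| + |g.b| + |g.c| + |g.d - 1| + |g.e| + |g.k|

theorem nr_nonneg (g : Aff) : 0 ≤ nr g := by unfold nr; positivity

theorem nr_lb (P : ℝ × ℝ) (g : Aff) :
    |(act g P).1 - P.1| + |(act g P).2 - P.2| ≤ (1 + |P.1| + |P.2|) * nr g := by
  have h1 : |(act g P).1 - P.1| ≤ |g.a - 1| * |P.1| + |g.b| * |P.2| + |g.e| := by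
    have e : (act g P).1 - P.1 = (g.a - 1) * P.1 + g.b * P.2 + g.e := by simp only [act]; ring
    rw [e, ← abs_mul, ← abs_mul]
    exact abs_add_three _ _ _
  have h2 : |(act g P).2 - P.2| ≤ |g.c| * |P.1| + |g.d - 1| * |P.2| + |g.k| := by
    have e : (act g P).2 - P.2 = g.c * P.1 + (g.d - 1) * P.2 + g.k := by simp only [act]; ring
    rw [e, ← abs_mul, ← abs_mul]
    exact abs_add_three _ _ _
  have p1 := abs_nonneg P.1
  have p2 := abs_nonneg P.2
  have a1 := abs_nonneg (g.a - 1)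
  have a2 := abs_nonneg g.b
  have a3 := abs_nonneg g.c
  have a4 := abs_nonneg (g.d - 1)
  have a5 := abs_nonneg g.e
  have a6 := abs_nonneg g.k
  unfold nr
  nlinarith [mul_nonneg p1 a1, mul_nonneg p1 a2, mul_nonneg p1 a3, mul_nonneg p1 a4,
    mul_nonneg p1 a5, mul_nonneg p1 a6, mul_nonneg p2 a1, mul_nonneg p2 a2, mul_nonneg p2 a3,
    mul_nonneg p2 a4, mul_nonneg p2 a5, mul_nonneg p2 a6]

theorem mv_pos {P : ℝ × ℝ} {g : Aff} (h : act g P ≠ P) :
    0 < |(act g P).1 - P.1| + |(act g P).2 - P.2| := by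
  by_contra hc
  apply h
  have h1 := abs_nonneg ((act g P).1 - P.1)
  have h2 := abs_nonneg ((act g P).2 - P.2)
  have h3 : |(act g P).1 - P.1| = 0 := by linarith
  have h4 : |(act g P).2 - P.2| = 0 := by linarith
  rw [abs_eq_zero, sub_eq_zero] at h3 h4
  exact Prod.ext h3 h4

theorem nr_pos {P : ℝ × ℝ} {g : Aff} (h : act g P ≠ P) : 0 < nr g := by
  have h1 := mv_pos h
  have h2 := nr_lb P g
  have h3 : (0 : ℝ) < 1 + |P.1| + |P.2| := by positivity
  by_contra hc
  have h4 : nr g = 0 := le_antisymm (not_lt.1 hc) (nr_nonneg g)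
  rw [h4, mul_zero] at h2
  linarith

/-- an almost nearest element -/
theorem exists_near (Z : Set (ℝ × ℝ)) (P : ℝ × ℝ) (g : Aff) (hg : g ∈ Stab Z)
    (hP : act g P ≠ P) : ∃ h, h ∈ Stab Z ∧ act h P = act g P ∧
      ∀ h', h' ∈ Stab Z → act h' P = act g P → nr h ≤ 2 * nr h' := by
  set Q : Set ℝ := nr '' {h | h ∈ Stab Z ∧ act h P = act g P} with hQ
  have hne : Q.Nonempty := ⟨_, g, ⟨hg, rfl⟩, rfl⟩
  have hbd : BddBelow Q := ⟨0, by rintro _ ⟨h, _, rfl⟩; exact nr_nonneg h⟩
  set δ : ℝ := (|(act g P).1 - P.1| + |(act g P).2 - P.2|) / (1 + |P.1| + |P.2|) with hδ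
  have hδ0 : 0 < δ := div_pos (mv_pos hP) (by positivity)
  have hlow : δ ≤ sInf Q := by
    refine le_csInf hne ?_
    rintro _ ⟨h, ⟨_, h2⟩, rfl⟩
    rw [hδ, div_le_iff₀ (by positivity), ← h2, mul_comm]
    exact nr_lb P h
  have hpos : 0 < sInf Q := lt_of_lt_of_le hδ0 hlow
  obtain ⟨_, ⟨h, ⟨h1, h2⟩, rfl⟩, h3⟩ := exists_lt_of_csInf_lt hne
    (show sInf Q < 2 * sInf Q by linarith)
  refine ⟨h, h1, h2, fun h' h1' h2' => ?_⟩
  have h4 : sInf Q ≤ nr h' := csInf_le hbd ⟨h', ⟨h1', h2'⟩, rfl⟩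
  linarith

theorem fst_d {F : ℝ → ℝ × ℝ} {F' : ℝ × ℝ} {t : ℝ} (hF : HasDerivAt F F' t) :
    HasDerivAt (fun s => (F s).1) F'.1 t := by
  have := (ContinuousLinearMap.fst ℝ ℝ ℝ).hasFDerivAt.comp_hasDerivAt t hF
  exact this

theorem snd_d {F : ℝ → ℝ × ℝ} {F' : ℝ × ℝ} {t : ℝ} (hF : HasDerivAt F F' t) :
    HasDerivAt (fun s => (F s).2) F'.2 t := by
  have := (ContinuousLinearMap.snd ℝ ℝ ℝ).hasFDerivAt.comp_hasDerivAt t hF
  exact this

/-- a flow whose velocity vanishes at `P` fixes `P` -/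
theorem flow_fix {Z : Set (ℝ × ℝ)} {X : Aff} {Φ : ℝ → Aff} (hΦ : IsFlow Z X Φ) {P : ℝ × ℝ}
    (hP : act X P = 0) (t : ℝ) : act (Φ t) P = P := by
  have h0 : HasDerivAt (fun s => act (Φ s) P) 0 0 := by
    have h := hΦ.deriv P 0
    rwa [hΦ.zero, act_one, hP] at h
  have h01 : HasDerivAt (fun s => (act (Φ s) P).1) 0 0 := fst_d h0
  have h02 : HasDerivAt (fun s => (act (Φ s) P).2) 0 0 := snd_d h0
  have hd : ∀ t, HasDerivAt (fun s => act (Φ s) P) 0 t := by
    intro t
    have e1 : HasDerivAt (fun s => act (Φ t) (act (Φ s) P)) 0 0 := by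
      have a1 : HasDerivAt (fun s => (Φ t).a * (act (Φ s) P).1 + (Φ t).b * (act (Φ s) P).2 +
          (Φ t).e) ((Φ t).a * 0 + (Φ t).b * 0) 0 :=
        ((h01.const_mul _).add (h02.const_mul _)).add_const _
      have a2 : HasDerivAt (fun s => (Φ t).c * (act (Φ s) P).1 + (Φ t).d * (act (Φ s) P).2 +
          (Φ t).k) ((Φ t).c * 0 + (Φ t).d * 0) 0 :=
        ((h01.const_mul _).add (h02.const_mul _)).add_const _
      have a3 := a1.prodMk a2
      simp only [mul_zero, add_zero] at a3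
      exact a3
    have e2 : HasDerivAt (fun s => act (Φ (t + s)) P) 0 0 := by
      refine e1.congr_of_eventuallyEq (Filter.Eventually.of_forall fun s => ?_)
      show act (Φ (t + s)) P = act (Φ t) (act (Φ s) P)
      rw [hΦ.add, act_comp]
    have e3 : HasDerivAt (fun s => act (Φ (t + (s - t))) P) 0 t := by
      have e4 : HasDerivAt (fun s : ℝ => s - t) 1 t := (hasDerivAt_id t).sub_const t
      have e6 : HasDerivAt (fun s => act (Φ (t + s)) P) 0 (t - t) := by
        rw [sub_self]; exact e2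
      have e5 := HasDerivAt.scomp (g₁ := fun s => act (Φ (t + s)) P) (h := fun s : ℝ => s - t) t e6 e4
      rw [smul_zero] at e5
      exact e5
    refine e3.congr_of_eventuallyEq (Filter.Eventually.of_forall fun s => ?_)
    show act (Φ s) P = act (Φ (t + (s - t))) P
    rw [add_sub_cancel]
  have hdiff : Differentiable ℝ (fun s => act (Φ s) P) := fun s => (hd s).differentiableAt
  have h9 := is_const_of_deriv_eq_zero hdiff (fun s => (hd s).deriv) t 0
  have h10 : act (Φ t) P = act (Φ 0) P := h9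
  rw [h10, hΦ.zero, act_one]

theorem tend_quot {u : ℝ → ℝ} {u0 u' : ℝ} (hu : HasDerivAt u u' 0) (h0 : u 0 = u0) {ε : ℕ → ℝ}
    (hε : ∀ n, 0 < ε n) (hε0 : Tendsto ε atTop (𝓝 0)) :
    Tendsto (fun n => (u (-ε n) - u0) / ε n) atTop (𝓝 (-u')) := by
  have h1 := hasDerivAt_iff_tendsto_slope_zero.1 hu
  have h2 : Tendsto (fun n => -ε n) atTop (𝓝[≠] 0) := by
    rw [tendsto_nhdsWithin_iff]
    refine ⟨by simpa using hε0.neg, Filter.Eventually.of_forall fun n => ?_⟩
    have := hε n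
    simp only [mem_compl_iff, mem_singleton_iff]
    intro h
    linarith
  have h3 := (h1.comp h2).neg
  refine h3.congr fun n => ?_
  have := (hε n).ne'
  simp only [Function.comp, zero_add, smul_eq_mul, h0]
  field_simp

end MinAux

open MinAux

theorem taskMin : TaskMin := by
  intro hFlow Z hZ P gs hgs hone hmv
  have hex := fun n => exists_near Z P (gs n) (hgs n) (hmv n)
  choose h hst hP hmin using hex
  have hmv' : ∀ n, act (h n) P ≠ P := fun n => by rw [hP]; exact hmv n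
  have hpos : ∀ n, 0 < nr (h n) := fun n => nr_pos (hmv' n)
  have hgs0 : Tendsto (fun n => nr (gs n)) atTop (𝓝 0) := by
    obtain ⟨t1, t2, t3, t4, t5, t6⟩ := hone
    have s1 := (t1.sub_const 1).abs
    have s4 := (t4.sub_const 1).abs
    have := ((((s1.add t2.abs).add t3.abs).add s4).add t5.abs).add t6.abs
    simpa [nr] using this
  have hε0 : Tendsto (fun n => nr (h n)) atTop (𝓝 0) := by
    refine squeeze_zero (fun n => nr_nonneg _) (fun n => hmin n (gs n) (hgs n) rfl) ?_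
    simpa using hgs0.const_mul 2
  -- the quotients
  let v : ℕ → Fin 6 → ℝ := fun n => ![((h n).a - 1) / nr (h n), (h n).b / nr (h n),
    (h n).c / nr (h n), ((h n).d - 1) / nr (h n), (h n).e / nr (h n), (h n).k / nr (h n)]
  have hle : ∀ (x : ℝ) n, |x| ≤ nr (h n) → x / nr (h n) ∈ Icc (-1 : ℝ) 1 := by
    intro x n hx
    rw [abs_le] at hx
    constructor
    · rw [le_div_iff₀ (hpos n)]; linarith
    · rw [div_le_iff₀ (hpos n)]; linarith
  have hv : ∀ n, v n ∈ Set.pi univ (fun _ : Fin 6 => Icc (-1 : ℝ) 1) := by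
    intro n i _
    have a1 := abs_nonneg ((h n).a - 1)
    have a2 := abs_nonneg (h n).b
    have a3 := abs_nonneg (h n).c
    have a4 := abs_nonneg ((h n).d - 1)
    have a5 := abs_nonneg (h n).e
    have a6 := abs_nonneg (h n).k
    fin_cases i
    · exact hle _ n (by unfold nr; linarith)
    · exact hle _ n (by unfold nr; linarith)
    · exact hle _ n (by unfold nr; linarith)
    · exact hle _ n (by unfold nr; linarith)
    · exact hle _ n (by unfold nr; linarith)
    · exact hle _ n (by unfold nr; linarith)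
  obtain ⟨x, -, φ, hφ, hlim⟩ :=
    (isCompact_univ_pi fun _ : Fin 6 => isCompact_Icc (a := (-1 : ℝ)) (b := 1)).tendsto_subseq hv
  rw [tendsto_pi_nhds] at hlim
  let X : Aff := ⟨x 0, x 1, x 2, x 3, x 4, x 5⟩
  have hvel : Vel (fun n => h (φ n)) (fun n => nr (h (φ n))) X :=
    ⟨hlim 0, hlim 1, hlim 2, hlim 3, hlim 4, hlim 5⟩
  have hεφ : Tendsto (fun n => nr (h (φ n))) atTop (𝓝 0) := hε0.comp hφ.tendsto_atTop
  obtain ⟨Φ, hΦ⟩ := hFlow Z hZ (fun n => h (φ n)) (fun n => nr (h (φ n))) X (fun n => hst _)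
    (fun n => hpos _) hεφ hvel
  refine ⟨X, Φ, hΦ, fun hXP => ?_⟩
  have hfix := flow_fix hΦ hXP
  -- derivatives of the coefficients at time zero
  have d00 := hΦ.deriv (0, 0) 0
  have d10 := hΦ.deriv (1, 0) 0
  have d01 := hΦ.deriv (0, 1) 0
  rw [hΦ.zero, act_one] at d00 d10 d01
  have de : HasDerivAt (fun s => (Φ s).e) X.e 0 := by simpa [act] using fst_d d00
  have dk : HasDerivAt (fun s => (Φ s).k) X.k 0 := by simpa [act] using snd_d d00
  have da : HasDerivAt (fun s => (Φ s).a) X.a 0 := by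
    have h9 := (fst_d d10).sub de
    have h10 : HasDerivAt (fun s => (act (Φ s) (1, 0)).1 - (Φ s).e) _ 0 := h9
    simpa [act] using h10
  have dc : HasDerivAt (fun s => (Φ s).c) X.c 0 := by
    have h9 := (snd_d d10).sub dk
    have h10 : HasDerivAt (fun s => (act (Φ s) (1, 0)).2 - (Φ s).k) _ 0 := h9
    simpa [act] using h10
  have db : HasDerivAt (fun s => (Φ s).b) X.b 0 := by
    have h9 := (fst_d d01).sub de
    have h10 : HasDerivAt (fun s => (act (Φ s) (0, 1)).1 - (Φ s).e) _ 0 := h9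
    simpa [act] using h10
  have dd : HasDerivAt (fun s => (Φ s).d) X.d 0 := by
    have h9 := (snd_d d01).sub dk
    have h10 : HasDerivAt (fun s => (act (Φ s) (0, 1)).2 - (Φ s).k) _ 0 := h9
    simpa [act] using h10
  set ε : ℕ → ℝ := fun n => nr (h (φ n)) with hεd
  have hεpos : ∀ n, 0 < ε n := fun n => hpos _
  have ta := tend_quot da (by rw [hΦ.zero]; rfl : (Φ 0).a = 1) hεpos hεφ
  have tb := tend_quot db (by rw [hΦ.zero]; rfl : (Φ 0).b = 0) hεpos hεφ
  have tc := tend_quot dc (by rw [hΦ.zero]; rfl : (Φ 0).c = 0) hεpos hεφ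
  have td := tend_quot dd (by rw [hΦ.zero]; rfl : (Φ 0).d = 1) hεpos hεφ
  have te := tend_quot de (by rw [hΦ.zero]; rfl : (Φ 0).e = 0) hεpos hεφ
  have tk := tend_quot dk (by rw [hΦ.zero]; rfl : (Φ 0).k = 0) hεpos hεφ
  have hneg : Tendsto (fun n => -ε n) atTop (𝓝 0) := by simpa using hεφ.neg
  have ca : Tendsto (fun n => (Φ (-ε n)).a) atTop (𝓝 1) := by
    have := da.continuousAt.tendsto.comp hneg
    rw [hΦ.zero] at this
    exact this
  have cb : Tendsto (fun n => (Φ (-ε n)).b) atTop (𝓝 0) := by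
    have := db.continuousAt.tendsto.comp hneg
    rw [hΦ.zero] at this
    exact this
  have cc : Tendsto (fun n => (Φ (-ε n)).c) atTop (𝓝 0) := by
    have := dc.continuousAt.tendsto.comp hneg
    rw [hΦ.zero] at this
    exact this
  have cd : Tendsto (fun n => (Φ (-ε n)).d) atTop (𝓝 1) := by
    have := dd.continuousAt.tendsto.comp hneg
    rw [hΦ.zero] at this
    exact this
  have ce : Tendsto (fun n => (Φ (-ε n)).e) atTop (𝓝 0) := by
    have := de.continuousAt.tendsto.comp hneg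
    rw [hΦ.zero] at this
    exact this
  have ck : Tendsto (fun n => (Φ (-ε n)).k) atTop (𝓝 0) := by
    have := dk.continuousAt.tendsto.comp hneg
    rw [hΦ.zero] at this
    exact this
  obtain ⟨va, vb, vc, vd, ve, vk⟩ := hvel
  -- `h → 1`
  have ha1 : Tendsto (fun n => (h (φ n)).a) atTop (𝓝 1) := by
    have h1 := (va.mul hεφ).add_const 1
    rw [mul_zero, zero_add] at h1
    refine h1.congr fun n => ?_
    have := (hεpos n).ne'
    show ((h (φ n)).a - 1) / nr (h (φ n)) * nr (h (φ n)) + 1 = _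
    rw [div_mul_cancel₀ _ this]; ring
  have hd1 : Tendsto (fun n => (h (φ n)).d) atTop (𝓝 1) := by
    have h1 := (vd.mul hεφ).add_const 1
    rw [mul_zero, zero_add] at h1
    refine h1.congr fun n => ?_
    have := (hεpos n).ne'
    show ((h (φ n)).d - 1) / nr (h (φ n)) * nr (h (φ n)) + 1 = _
    rw [div_mul_cancel₀ _ this]; ring
  let w : ℕ → Aff := fun n => comp (h (φ n)) (Φ (-ε n))
  have hw : ∀ n, ε n ≤ 2 * nr (w n) := by
    intro n
    refine hmin (φ n) (w n) (Stab.comp (hst _) (hΦ.stab _)) ?_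
    show act (comp (h (φ n)) (Φ (-ε n))) P = _
    rw [act_comp, hfix, hP]
  have q1 : Tendsto (fun n => ((w n).a - 1) / ε n) atTop (𝓝 0) := by
    have := ((va.mul ca).add ta).add (vb.mul cc)
    rw [mul_one, mul_zero, add_zero, add_neg_cancel] at this
    refine this.congr fun n => ?_
    have := (hεpos n).ne'
    show ((h (φ n)).a - 1) / ε n * (Φ (-ε n)).a + ((Φ (-ε n)).a - 1) / ε n +
      (h (φ n)).b / ε n * (Φ (-ε n)).c =
      ((h (φ n)).a * (Φ (-ε n)).a + (h (φ n)).b * (Φ (-ε n)).c - 1) / ε n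
    ring
  have q2 : Tendsto (fun n => (w n).b / ε n) atTop (𝓝 0) := by
    have := (ha1.mul tb).add (vb.mul cd)
    rw [mul_one, one_mul, neg_add_cancel] at this
    refine this.congr fun n => ?_
    show (h (φ n)).a * (((Φ (-ε n)).b - 0) / ε n) + (h (φ n)).b / ε n * (Φ (-ε n)).d =
      ((h (φ n)).a * (Φ (-ε n)).b + (h (φ n)).b * (Φ (-ε n)).d) / ε n
    ring
  have q3 : Tendsto (fun n => (w n).c / ε n) atTop (𝓝 0) := by
    have := (vc.mul ca).add (hd1.mul tc)
    rw [mul_one, one_mul, add_neg_cancel] at this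
    refine this.congr fun n => ?_
    show (h (φ n)).c / ε n * (Φ (-ε n)).a + (h (φ n)).d * (((Φ (-ε n)).c - 0) / ε n) =
      ((h (φ n)).c * (Φ (-ε n)).a + (h (φ n)).d * (Φ (-ε n)).c) / ε n
    ring
  have q4 : Tendsto (fun n => ((w n).d - 1) / ε n) atTop (𝓝 0) := by
    have := ((vd.mul cd).add td).add (vc.mul cb)
    rw [mul_one, mul_zero, add_zero, add_neg_cancel] at this
    refine this.congr fun n => ?_
    show ((h (φ n)).d - 1) / ε n * (Φ (-ε n)).d + ((Φ (-ε n)).d - 1) / ε n +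
      (h (φ n)).c / ε n * (Φ (-ε n)).b =
      ((h (φ n)).c * (Φ (-ε n)).b + (h (φ n)).d * (Φ (-ε n)).d - 1) / ε n
    ring
  have q5 : Tendsto (fun n => (w n).e / ε n) atTop (𝓝 0) := by
    have := ((ha1.mul te).add (vb.mul ck)).add ve
    rw [mul_zero, one_mul, add_zero, neg_add_cancel] at this
    refine this.congr fun n => ?_
    show (h (φ n)).a * (((Φ (-ε n)).e - 0) / ε n) + (h (φ n)).b / ε n * (Φ (-ε n)).k +
      (h (φ n)).e / ε n =
      ((h (φ n)).a * (Φ (-ε n)).e + (h (φ n)).b * (Φ (-ε n)).k + (h (φ n)).e) / ε n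
    ring
  have q6 : Tendsto (fun n => (w n).k / ε n) atTop (𝓝 0) := by
    have := ((vc.mul ce).add (hd1.mul tk)).add vk
    rw [mul_zero, one_mul, zero_add, neg_add_cancel] at this
    refine this.congr fun n => ?_
    show (h (φ n)).c / ε n * (Φ (-ε n)).e + (h (φ n)).d * (((Φ (-ε n)).k - 0) / ε n) +
      (h (φ n)).k / ε n =
      ((h (φ n)).c * (Φ (-ε n)).e + (h (φ n)).d * (Φ (-ε n)).k + (h (φ n)).k) / ε n
    ring
  have hq := ((((q1.abs.add q2.abs).add q3.abs).add q4.abs).add q5.abs).add q6.abs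
  simp only [abs_zero, add_zero] at hq
  have hge : ∀ n, (1 / 2 : ℝ) ≤ |((w n).a - 1) / ε n| + |(w n).b / ε n| + |(w n).c / ε n| +
      |((w n).d - 1) / ε n| + |(w n).e / ε n| + |(w n).k / ε n| := by
    intro n
    have h1 := hw n
    have h2 := hεpos n
    simp only [abs_div, abs_of_pos h2]
    rw [← add_div, ← add_div, ← add_div, ← add_div, ← add_div, div_le_div_iff₀ (by norm_num) h2]
    unfold nr at h1
    linarith
  have := ge_of_tendsto' hq hge
  norm_num at this

end Pool.Agent.H182R3.VR
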