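import Pool.Agent.H182R3.VR.Stmts

/-! # H182-VR: TaskPig (helper383) -/

set_option autoImplicit false
open Set Filter Topology

namespace Pool.Agent.H182R3.VR

namespace PigH383

/-- coordinates -/
abbrev R6 : Type := ℝ × ℝ × ℝ × ℝ × ℝ × ℝ

def co (g : Aff) : R6 := (g.a, g.b, g.c, g.d, g.e, g.k)

def mk (q : R6) : Aff := ⟨q.1, q.2.1, q.2.2.1, q.2.2.2.1, q.2.2.2.2.1, q.2.2.2.2.2⟩

theorem mk_co (g : Aff) : mk (co g) = g := rfl

theorem ev (u : R6 × R6 → ℝ) (z : R6 × R6) (δ : ℝ) (hu : ContinuousAt u z) (h0 : u z = 0)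
    (hδ : 0 < δ) : ∀ᶠ w in 𝓝 z, |u w| < δ := by
  have h1 : ContinuousAt (fun w => |u w|) z := hu.abs
  have h2 : |u z| < δ := by rw [h0]; simpa using hδ
  exact h1.eventually_lt continuousAt_const h2

theorem v1 (a b c d : ℝ) (h : a * d - b * c ≠ 0) :
    d / (a * d - b * c) * a + -b / (a * d - b * c) * c - 1 = 0 := by
  have : d / (a * d - b * c) * a + -b / (a * d - b * c) * c
      = (a * d - b * c) / (a * d - b * c) := by ring
  rw [this, div_self h, sub_self]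

theorem v4 (a b c d : ℝ) (h : a * d - b * c ≠ 0) :
    -c / (a * d - b * c) * b + a / (a * d - b * c) * d - 1 = 0 := by
  have : -c / (a * d - b * c) * b + a / (a * d - b * c) * d
      = (a * d - b * c) / (a * d - b * c) := by ring
  rw [this, div_self h, sub_self]

theorem near_nhds (q : R6) (hq : dt (mk q) ≠ 0) (δ : ℝ) (hδ : 0 < δ) :
    ∃ U ∈ 𝓝 q, ∀ x ∈ U, ∀ y ∈ U, Near δ (comp (inv (mk y)) (mk x)) := by
  have hd : q.1 * q.2.2.2.1 - q.2.1 * q.2.2.1 ≠ 0 := hq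
  have hev : ∀ᶠ w in 𝓝 (q, q), Near δ (comp (inv (mk w.2)) (mk w.1)) := by
    have h1 := ev (fun w => (comp (inv (mk w.2)) (mk w.1)).a - 1) (q, q) δ
      (by simp only [comp, inv, mk, dt]; fun_prop (disch := exact hd))
      (v1 _ _ _ _ hd) hδ
    have h2 := ev (fun w => (comp (inv (mk w.2)) (mk w.1)).b) (q, q) δ
      (by simp only [comp, inv, mk, dt]; fun_prop (disch := exact hd))
      (by simp only [comp, inv, mk, dt]; field_simp; ring) hδ
    have h3 := ev (fun w => (comp (inv (mk w.2)) (mk w.1)).c) (q, q) δ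
      (by simp only [comp, inv, mk, dt]; fun_prop (disch := exact hd))
      (by simp only [comp, inv, mk, dt]; field_simp; ring) hδ
    have h4 := ev (fun w => (comp (inv (mk w.2)) (mk w.1)).d - 1) (q, q) δ
      (by simp only [comp, inv, mk, dt]; fun_prop (disch := exact hd))
      (v4 _ _ _ _ hd) hδ
    have h5 := ev (fun w => (comp (inv (mk w.2)) (mk w.1)).e) (q, q) δ
      (by simp only [comp, inv, mk, dt]; fun_prop (disch := exact hd))
      (by simp only [comp, inv, mk, dt]; field_simp; ring) hδ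
    have h6 := ev (fun w => (comp (inv (mk w.2)) (mk w.1)).k) (q, q) δ
      (by simp only [comp, inv, mk, dt]; fun_prop (disch := exact hd))
      (by simp only [comp, inv, mk, dt]; field_simp; ring) hδ
    filter_upwards [h1, h2, h3, h4, h5, h6] with w k1 k2 k3 k4 k5 k6
    exact ⟨k1, k2, k3, k4, k5, k6⟩
  rw [nhds_prod_eq, Filter.eventually_iff, Filter.mem_prod_same_iff] at hev
  obtain ⟨U, hU, hUU⟩ := hev
  exact ⟨U, hU, fun x hx y hy => hUU (show (x, y) ∈ U ×ˢ U from ⟨hx, hy⟩)⟩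

theorem unc : ¬ (Ioi (0:ℝ)).Countable := by
  intro h
  rw [← Cardinal.le_aleph0_iff_set_countable, Cardinal.mk_Ioi_real] at h
  exact absurd h (not_le.2 Cardinal.aleph0_lt_continuum)

end PigH383

open PigH383 in
theorem taskPig : TaskPig := by
  intro f hf hcl P hP δ hδ
  -- step 1
  obtain ⟨δ₀, h0, hle, hfix⟩ : ∃ δ₀ : ℝ, 0 < δ₀ ∧ δ₀ ≤ δ ∧
      ∀ g ∈ Stab (closure (Gr f)), Near δ₀ g → act g P = P := by
    by_contra hc
    push Not at hc
    have hd : ∀ n : ℕ, 0 < min δ (1 / ((n:ℝ) + 1)) := fun n => lt_min hδ (by positivity)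
    have H : ∀ n : ℕ, ∃ g : Aff, g ∈ Stab (closure (Gr f)) ∧ Near (min δ (1 / ((n:ℝ) + 1))) g ∧
        act g P ≠ P := by
      intro n
      obtain ⟨g, h1, h2, h3⟩ := hc _ (hd n) (min_le_left _ _)
      exact ⟨g, h1, h2, h3⟩
    choose gs h1 h2 h3 using H
    apply hP
    have hlim : Tendsto (fun n : ℕ => 1 / ((n:ℝ) + 1)) atTop (𝓝 0) :=
      tendsto_one_div_add_atTop_nhds_zero_nat
    have hz : ∀ u : ℕ → ℝ, (∀ n : ℕ, |u n| < min δ (1 / ((n:ℝ) + 1))) → Tendsto u atTop (𝓝 0) := by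
      intro u hu
      apply squeeze_zero_norm (a := fun n : ℕ => 1 / ((n:ℝ) + 1)) _ hlim
      intro n
      exact ((hu n).trans_le (min_le_right _ _)).le
    have hz1 : ∀ u : ℕ → ℝ, (∀ n : ℕ, |u n - 1| < min δ (1 / ((n:ℝ) + 1))) →
        Tendsto u atTop (𝓝 1) := by
      intro u hu
      have := (hz (fun n => u n - 1) hu).add_const 1
      simpa using this
    refine ⟨gs, h1, ⟨hz1 _ fun n => (h2 n).1, hz _ fun n => (h2 n).2.1,
      hz _ fun n => (h2 n).2.2.1, hz1 _ fun n => (h2 n).2.2.2.1, hz _ fun n => (h2 n).2.2.2.2.1,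
      hz _ fun n => (h2 n).2.2.2.2.2⟩, h3⟩
  -- step 2
  have H2 : ∀ r : ℝ, ∃ g : Aff, 0 < r → g ∈ Stab (Gr f) ∧ IsT r g := by
    intro r
    by_cases hr : 0 < r
    · obtain ⟨g, hg, hg'⟩ := hf r hr
      exact ⟨g, fun _ => ⟨hg, hg'⟩⟩
    · exact ⟨one, fun h => absurd h hr⟩
  choose G hG using H2
  -- step 3
  have H3 : ∀ q : R6, ∃ U : Set R6, dt (mk q) ≠ 0 → U ∈ 𝓝 q ∧
      ∀ x ∈ U, ∀ y ∈ U, Near δ₀ (comp (inv (mk y)) (mk x)) := by
    intro q
    by_cases hq : dt (mk q) ≠ 0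
    · obtain ⟨U, hU, hU'⟩ := near_nhds q hq δ₀ h0
      exact ⟨U, fun _ => ⟨hU, hU'⟩⟩
    · exact ⟨univ, fun h => absurd h hq⟩
  choose U hU using H3
  obtain ⟨t, hts, htc, hcov⟩ := TopologicalSpace.countable_cover_nhdsWithin
    (s := {q : R6 | dt (mk q) ≠ 0}) (f := U) (fun q hq => mem_nhdsWithin_of_mem_nhds (hU q hq).1)
  -- step 4
  have H4 : ∃ q ∈ t, ¬ ({r : ℝ | 0 < r ∧ co (G r) ∈ U q}).Countable := by
    by_contra hc
    push Not at hc
    apply unc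
    refine (htc.biUnion (t := fun q _ => {r : ℝ | 0 < r ∧ co (G r) ∈ U q}) hc).mono ?_
    intro r hr
    have hr' : (0:ℝ) < r := hr
    have h1 : co (G r) ∈ {q : R6 | dt (mk q) ≠ 0} := ((hG r hr').1).1
    have h2 := hcov h1
    simp only [mem_iUnion] at h2 ⊢
    obtain ⟨q, hq, hq'⟩ := h2
    exact ⟨q, hq, hr', hq'⟩
  obtain ⟨q, hq, hunc⟩ := H4
  have hne : ({r : ℝ | 0 < r ∧ co (G r) ∈ U q}).Nonempty := by
    by_contra hc
    rw [not_nonempty_iff_eq_empty] at hc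
    rw [hc] at hunc
    exact hunc countable_empty
  obtain ⟨r₀, hr₀, hr₀'⟩ := hne
  have hnear : ∀ r ∈ {r : ℝ | 0 < r ∧ co (G r) ∈ U q}, ∀ r' ∈ {r : ℝ | 0 < r ∧ co (G r) ∈ U q},
      Near δ₀ (comp (inv (G r')) (G r)) := by
    intro r hr r' hr'
    have := (hU q (hts hq)).2 _ hr.2 _ hr'.2
    rwa [mk_co, mk_co] at this
  refine ⟨{r : ℝ | 0 < r ∧ co (G r) ∈ U q}, G, act (G r₀) P, ⟨hunc, fun r hr => hr.1,
    fun r hr => (hG r hr.1).1, fun r hr => (hG r hr.1).2⟩, ?_, ?_⟩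
  · intro r hr
    have h1 : comp (inv (G r₀)) (G r) ∈ Stab (closure (Gr f)) :=
      hcl _ (Stab.comp (Stab.inv (hG r₀ hr₀).1) (hG r hr.1).1)
    have h2 := hfix _ h1 (hnear r hr r₀ ⟨hr₀, hr₀'⟩)
    rw [act_comp] at h2
    have h3 := congrArg (act (G r₀)) h2
    rwa [act_inv' (hG r₀ hr₀).1.1] at h3
  · intro r hr r' hr'
    obtain ⟨k1, k2, k3, k4, k5, k6⟩ := hnear r hr r' hr'
    exact ⟨k1.trans_le hle, k2.trans_le hle, k3.trans_le hle, k4.trans_le hle, k5.trans_le hle,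
      k6.trans_le hle⟩

end Pool.Agent.H182R3.VR
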