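import Pool.Agent.H182R3.VR.Stmts

set_option autoImplicit false

/-! Task Poly: algebra of angles. -/

namespace Pool.Agent.H182R3.VR

open Polynomial in
theorem TPoly.coef (C : Set ℝ) (a b c : ℝ) (hC : C.Infinite) (hpos : ∀ r ∈ C, 0 < r)
    (h : ∀ r ∈ C, a + b * r ^ 2 + c * (r ^ 2) ^ 2 = 0) : a = 0 ∧ b = 0 ∧ c = 0 := by
  have hinj : Set.InjOn (fun r : ℝ => r ^ 2) C := by
    intro r hr s hs hrs
    exact (pow_left_inj₀ (hpos r hr).le (hpos s hs).le two_ne_zero).1 hrs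
  have hinf : ((fun r : ℝ => r ^ 2) '' C).Infinite := hC.image hinj
  set P : ℝ[X] := Polynomial.C a + Polynomial.C b * X + Polynomial.C c * X ^ 2 with hP
  have h0 : P = 0 := by
    apply Polynomial.eq_zero_of_infinite_isRoot
    refine hinf.mono ?_
    rintro _ ⟨r, hr, rfl⟩
    change P.IsRoot (r ^ 2)
    rw [IsRoot.def, hP]
    simp only [eval_add, eval_mul, eval_C, eval_X, eval_pow]
    exact h r hr
  have e0 := congrArg (fun p : ℝ[X] => p.eval 0) h0
  have e1 := congrArg (fun p : ℝ[X] => p.eval 1) h0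
  have e2 := congrArg (fun p : ℝ[X] => p.eval (-1)) h0
  simp only [hP, eval_add, eval_mul, eval_C, eval_X, eval_pow, eval_zero] at e0 e1 e2
  refine ⟨by linarith, by linarith, by linarith⟩

theorem taskPoly : TaskPoly := by
  intro C x₁ y₁ x₂ y₂ m hC hpos hx₁ hx₂ h1 h2 h
  obtain ⟨ha, hb, hc⟩ := TPoly.coef C (x₁ ^ 2 * x₂ ^ 2 * (1 - m))
    (2 * x₁ * x₂ * y₁ * y₂ - m * (x₁ ^ 2 * y₂ ^ 2 + x₂ ^ 2 * y₁ ^ 2))
    (y₁ ^ 2 * y₂ ^ 2 * (1 - m)) hC hpos (by
    intro r hr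
    have := h r hr
    linear_combination this)
  by_cases hm : m = 1
  · left
    subst hm
    have h3 : (x₁ * y₂ - x₂ * y₁) ^ 2 = 0 := by linear_combination -hb
    have h4 := pow_eq_zero_iff (two_ne_zero) |>.1 h3
    linarith
  · right
    have hm' : (1 - m) ≠ 0 := fun h5 => hm (by linarith)
    have ha' : x₁ ^ 2 * x₂ ^ 2 = 0 := (mul_eq_zero.1 ha).resolve_right hm'
    have hc' : y₁ ^ 2 * y₂ ^ 2 = 0 := (mul_eq_zero.1 hc).resolve_right hm'
    have hx : x₁ = 0 ∨ x₂ = 0 := by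
      rcases mul_eq_zero.1 ha' with h5 | h5
      · exact Or.inl (pow_eq_zero_iff two_ne_zero |>.1 h5)
      · exact Or.inr (pow_eq_zero_iff two_ne_zero |>.1 h5)
    have hy : y₁ = 0 ∨ y₂ = 0 := by
      rcases mul_eq_zero.1 hc' with h5 | h5
      · exact Or.inl (pow_eq_zero_iff two_ne_zero |>.1 h5)
      · exact Or.inr (pow_eq_zero_iff two_ne_zero |>.1 h5)
    rcases hx with hx | hx <;> rcases hy with hy | hy
    · exfalso
      rw [hx, hy] at h1
      norm_num at h1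
    · exact Or.inl ⟨hx, hy⟩
    · exact Or.inr ⟨hx, hy⟩
    · exfalso
      rw [hx, hy] at h2
      norm_num at h2

end Pool.Agent.H182R3.VR
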