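import Pool.Agent.H182R3.VR.Stmts

/-! Task Refl (helper563). -/

set_option autoImplicit false
open Set Filter Topology

namespace Pool.Agent.H182R3.VR

namespace Refl

/-- the reflection `(x, y) ↦ (-x, y)` -/
def N (p : ℝ × ℝ) : ℝ × ℝ := (-p.1, p.2)

/-- conjugation of an affine map by `N` -/
def cj (g : Aff) : Aff := ⟨g.a, -g.b, -g.c, g.d, -g.e, g.k⟩

theorem N_N (p : ℝ × ℝ) : N (N p) = p := by
  ext <;> simp [N]

theorem act_cj (g : Aff) (p : ℝ × ℝ) : act (cj g) p = N (act g (N p)) := by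
  ext <;> simp [act, cj, N] <;> ring

theorem dt_cj (g : Aff) : dt (cj g) = dt g := by
  simp only [dt, cj]; ring

theorem mem_Gr (f : ℝ → ℝ) (p : ℝ × ℝ) : p ∈ Gr (fun x => f (-x)) ↔ N p ∈ Gr f := Iff.rfl

theorem mem_GrJ (f : ℝ → ℝ) (J : Set ℝ) (p : ℝ × ℝ) :
    p ∈ GrJ (fun x => f (-x)) {x | -x ∈ J} ↔ N p ∈ GrJ f J := Iff.rfl

end Refl

open Refl in
theorem taskRefl : TaskRefl := by
  intro f C G hG J J' hJ
  refine ⟨fun r => cj (G r), ⟨hG.unc, hG.pos, fun r hr => ⟨?_, fun p => ?_⟩, fun r hr => ?_⟩,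
    fun r hr => ?_⟩
  · rw [dt_cj]; exact (hG.stab r hr).1
  · rw [mem_Gr, mem_Gr, act_cj, N_N]
    exact (hG.stab r hr).2 (N p)
  · obtain ⟨h1, h2, h3⟩ := hG.isT r hr
    refine ⟨?_, ?_, ?_⟩
    · simp only [cj]; rw [neg_sq]; exact h1
    · simp only [cj]; rw [neg_sq]; exact h2
    · simp only [cj]; linarith
  · ext p
    rw [mem_GrJ, ← hJ r hr]
    constructor
    · rintro ⟨q, hq, rfl⟩
      rw [mem_GrJ] at hq
      refine ⟨N q, hq, ?_⟩
      rw [act_cj, N_N]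
    · rintro ⟨q, hq, hqp⟩
      refine ⟨N q, ?_, ?_⟩
      · rw [mem_GrJ, N_N]; exact hq
      · rw [act_cj, N_N, hqp, N_N]

end Pool.Agent.H182R3.VR
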