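import Pool.Agent.H182R3.VR.Stmts

/-! Task SameE of project H182-VR (helper444). -/

set_option autoImplicit false
open Set Filter Topology

namespace Pool.Agent.H182R3.VR

theorem taskSameE : TaskSameE := by
  intro f C G hF E E' hE hfin
  obtain ⟨F, hFf, hFC⟩ := hfin
  have hinf : C.Infinite := fun h => hF.unc h.countable
  let φ : ℝ → (ℝ × ℝ) × (ℝ × ℝ) := fun r => (((G r).a, (G r).c), ((G r).b / r, (G r).d / r))
  let T : Set ((ℝ × ℝ) × (ℝ × ℝ)) :=
    (((fun p : ℝ × ℝ => (p, ((-p.2, p.1) : ℝ × ℝ))) '' F) ∪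
      ((fun p : ℝ × ℝ => (p, ((p.2, -p.1) : ℝ × ℝ))) '' F)) ∪
    (((fun p : ℝ × ℝ => (((p.2, -p.1) : ℝ × ℝ), p)) '' F) ∪
      ((fun p : ℝ × ℝ => (((-p.2, p.1) : ℝ × ℝ), p)) '' F))
  have hT : T.Finite :=
    ((hFf.image _).union (hFf.image _)).union ((hFf.image _).union (hFf.image _))
  have hmaps : Set.MapsTo φ C T := by
    intro r hr
    have hr0 : r ≠ 0 := (hF.pos r hr).ne'
    obtain ⟨h1, h2, h3⟩ := hF.isT r hr
    have hF' := hFC r hr
    have e1 : φ r = (((G r).a, (G r).c), ((G r).b / r, (G r).d / r)) := rfl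
    set a := (G r).a
    set c := (G r).c
    set b' := (G r).b / r with hb'
    set d' := (G r).d / r with hd'
    have hb : (G r).b = b' * r := by rw [hb']; field_simp
    have hd : (G r).d = d' * r := by rw [hd']; field_simp
    have h2' : b' ^ 2 + d' ^ 2 = 1 := by
      rw [hb, hd] at h2
      have : r ^ 2 * (b' ^ 2 + d' ^ 2) = r ^ 2 * 1 := by linarith
      exact mul_left_cancel₀ (pow_ne_zero 2 hr0) this
    have h3' : a * b' + c * d' = 0 := by
      rw [hb, hd] at h3
      have : r * (a * b' + c * d') = r * 0 := by linarith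
      exact mul_left_cancel₀ hr0 this
    have hm : (a * d' - c * b') ^ 2 = 1 := by
      have : (a * d' - c * b') ^ 2 + (a * b' + c * d') ^ 2 = (a ^ 2 + c ^ 2) * (b' ^ 2 + d' ^ 2) := by
        ring
      rw [h3', h1, h2'] at this
      linarith
    have k1 : b' = -(c * (a * d' - c * b')) := by
      have : b' * (a ^ 2 + c ^ 2) = a * (a * b' + c * d') - c * (a * d' - c * b') := by ring
      rw [h1, h3'] at this
      linarith
    have k2 : d' = a * (a * d' - c * b') := by
      have : d' * (a ^ 2 + c ^ 2) = c * (a * b' + c * d') + a * (a * d' - c * b') := by ring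
      rw [h1, h3'] at this
      linarith
    rw [e1]
    rcases sq_eq_one_iff.mp hm with hm1 | hm1
    · rw [hm1] at k1 k2
      rcases hF' with h | h
      · exact Or.inl (Or.inl ⟨(a, c), h, by simp only [Prod.mk.injEq]; constructor <;> [trivial; constructor] <;> linarith⟩)
      · exact Or.inr (Or.inl ⟨(b', d'), h, by simp only [Prod.mk.injEq]; refine ⟨⟨?_, ?_⟩, trivial⟩ <;> linarith⟩)
    · rw [hm1] at k1 k2
      rcases hF' with h | h
      · exact Or.inl (Or.inr ⟨(a, c), h, by simp only [Prod.mk.injEq]; constructor <;> [trivial; constructor] <;> linarith⟩)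
      · exact Or.inr (Or.inr ⟨(b', d'), h, by simp only [Prod.mk.injEq]; refine ⟨⟨?_, ?_⟩, trivial⟩ <;> linarith⟩)
  obtain ⟨r, hr, r', hr', hne, heq⟩ := hinf.exists_ne_map_eq_of_mapsTo hmaps hT
  have hr0 := hF.pos r hr
  have hr0' := hF.pos r' hr'
  simp only [φ, Prod.mk.injEq] at heq
  obtain ⟨⟨ha, hc⟩, hb, hd⟩ := heq
  have hb2 : (G r).b = (G r').b * (r / r') := by
    field_simp
    field_simp at hb
    linarith
  have hd2 : (G r).d = (G r').d * (r / r') := by
    field_simp
    field_simp at hd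
    linarith
  have hEE : act (G r) E = act (G r') E := (hE r hr).trans (hE r' hr').symm
  simp only [act, Prod.mk.injEq] at hEE
  obtain ⟨hE1, hE2⟩ := hEE
  rw [ha, hb2] at hE1
  rw [hc, hd2] at hE2
  refine ⟨E.2, fun x => ?_⟩
  have hkey : act (G r') (x, r / r' * f x + (1 - r / r') * E.2) = act (G r) (x, f x) := by
    simp only [act, Prod.mk.injEq]
    constructor
    · rw [ha, hb2]; linarith
    · rw [hc, hd2]; linarith
  have hmem : act (G r) (x, f x) ∈ Gr f := ((hF.stab r hr).2 _).mpr rfl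
  rw [← hkey, (hF.stab r' hr').2] at hmem
  have hfx : r / r' * f x + (1 - r / r') * E.2 = f x := hmem
  have hne1 : 1 - r / r' ≠ 0 := by
    intro h
    apply hne
    have : r / r' = 1 := by linarith
    rwa [div_eq_one_iff_eq hr0'.ne'] at this
  have : (1 - r / r') * (f x - E.2) = 0 := by linarith
  rcases mul_eq_zero.mp this with h | h
  · exact absurd h hne1
  · linarith

end Pool.Agent.H182R3.VR
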