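import Pool.Agent.H182R3.VR.Stmts

set_option autoImplicit false
open Set Filter Topology

namespace Pool.Agent.H182R3.VR

namespace SameJ591

theorem act_inv_act (g g' : Aff) (r r' : ℝ) (hr : 0 < r) (hr' : 0 < r') (ha : g.a = g'.a)
    (hc : g.c = g'.c) (hb : g.b / r = g'.b / r') (hd : g.d / r = g'.d / r') (hdt : dt g' ≠ 0) :
    ∃ u w : ℝ, ∀ x y : ℝ, act (inv g') (act g (x, y)) = (x + u, (r / r') * y + w) := by
  obtain ⟨ρ, hρ⟩ : ∃ ρ, ρ = r / r' := ⟨_, rfl⟩
  have hb' : g.b = ρ * g'.b := by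
    rw [hρ]; field_simp at hb ⊢; linarith
  have hd' : g.d = ρ * g'.d := by
    rw [hρ]; field_simp at hd ⊢; linarith
  rw [← hρ]
  have hD : g'.a * g'.d - g'.b * g'.c ≠ 0 := hdt
  refine ⟨(g'.d * (g.e - g'.e) - g'.b * (g.k - g'.k)) / dt g',
    (-g'.c * (g.e - g'.e) + g'.a * (g.k - g'.k)) / dt g', fun x y => ?_⟩
  ext
  · simp only [act, inv]
    rw [ha, hc, hb', hd']
    field_simp
    simp only [dt]
    ring
  · simp only [act, inv]
    rw [ha, hc, hb', hd']
    field_simp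
    simp only [dt]
    ring

theorem orth (a b c d r : ℝ) (hr : 0 < r) (h1 : a ^ 2 + c ^ 2 = 1) (h2 : b ^ 2 + d ^ 2 = r ^ 2)
    (h3 : a * b + c * d = 0) :
    (b / r = -c ∧ d / r = a) ∨ (b / r = c ∧ d / r = -a) := by
  obtain ⟨β, hβ⟩ : ∃ β, β = b / r := ⟨_, rfl⟩
  obtain ⟨δ, hδ⟩ : ∃ δ, δ = d / r := ⟨_, rfl⟩
  have hb : b = β * r := by rw [hβ]; field_simp
  have hd : d = δ * r := by rw [hδ]; field_simp
  rw [← hβ, ← hδ]
  rw [hb, hd] at h2 h3
  have h2' : β ^ 2 + δ ^ 2 = 1 := by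
    have : r ^ 2 * (β ^ 2 + δ ^ 2 - 1) = 0 := by linarith
    rcases mul_eq_zero.1 this with h | h
    · exact absurd h (by positivity)
    · linarith
  have h3' : a * β + c * δ = 0 := by
    have : r * (a * β + c * δ) = 0 := by linarith
    rcases mul_eq_zero.1 this with h | h
    · exact absurd h hr.ne'
    · exact h
  have ht : (a * δ - c * β - 1) * (a * δ - c * β + 1) = 0 := by
    have e : (a * δ - c * β) ^ 2 + (a * β + c * δ) ^ 2 = (a ^ 2 + c ^ 2) * (β ^ 2 + δ ^ 2) := by ring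
    rw [h3', h1, h2'] at e
    linarith
  have e1 : β = -c * (a * δ - c * β) := by
    have e : β * (a ^ 2 + c ^ 2) = a * (a * β + c * δ) + -c * (a * δ - c * β) := by ring
    rw [h1, h3'] at e
    linarith
  have e2 : δ = a * (a * δ - c * β) := by
    have e : δ * (a ^ 2 + c ^ 2) = c * (a * β + c * δ) + a * (a * δ - c * β) := by ring
    rw [h1, h3'] at e
    linarith
  rcases mul_eq_zero.1 ht with h | h
  · have h' : a * δ - c * β = 1 := by linarith
    rw [h'] at e1 e2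
    left
    constructor <;> linarith
  · have h' : a * δ - c * β = -1 := by linarith
    rw [h'] at e1 e2
    right
    constructor <;> linarith

theorem pigeon (f : ℝ → ℝ) (C : Set ℝ) (G : ℝ → Aff) (hF : Fam f C G) (hfin : FinR C G) :
    ∃ r ∈ C, ∃ r' ∈ C, r ≠ r' ∧ (G r).a = (G r').a ∧ (G r).c = (G r').c ∧
      (G r).b / r = (G r').b / r' ∧ (G r).d / r = (G r').d / r' := by
  obtain ⟨F, hFf, hFr⟩ := hfin
  let key : ℝ → (ℝ × ℝ) × (ℝ × ℝ) := fun r => (((G r).a, (G r).c), ((G r).b / r, (G r).d / r))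
  let K : Set ((ℝ × ℝ) × (ℝ × ℝ)) :=
    ((fun v : ℝ × ℝ => (v, ((-v.2, v.1) : ℝ × ℝ))) '' F ∪
      (fun v : ℝ × ℝ => (v, ((v.2, -v.1) : ℝ × ℝ))) '' F) ∪
    ((fun v : ℝ × ℝ => (((v.2, -v.1) : ℝ × ℝ), v)) '' F ∪
      (fun v : ℝ × ℝ => (((-v.2, v.1) : ℝ × ℝ), v)) '' F)
  have hK : K.Finite := ((hFf.image _).union (hFf.image _)).union ((hFf.image _).union (hFf.image _))
  have hinf : C.Infinite := fun h => hF.unc h.countable
  have hmaps : MapsTo key C K := by
    intro r hr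
    obtain ⟨h1, h2, h3⟩ := hF.isT r hr
    have ho := orth _ _ _ _ r (hF.pos r hr) h1 h2 h3
    rcases hFr r hr with h | h
    · left
      rcases ho with ⟨e1, e2⟩ | ⟨e1, e2⟩
      · left
        refine ⟨_, h, ?_⟩
        simp only [key, e1, e2]
      · right
        refine ⟨_, h, ?_⟩
        simp only [key, e1, e2]
    · right
      rcases ho with ⟨e1, e2⟩ | ⟨e1, e2⟩
      · left
        refine ⟨_, h, ?_⟩
        simp only [key, e1, e2, neg_neg]
      · right
        refine ⟨_, h, ?_⟩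
        simp only [key, e1, e2, neg_neg]
  obtain ⟨r, hr, r', hr', hne, heq⟩ := hinf.exists_ne_map_eq_of_mapsTo hmaps hK
  refine ⟨r, hr, r', hr', hne, ?_⟩
  simp only [key, Prod.mk.injEq] at heq
  exact ⟨heq.1.1, heq.1.2, heq.2.1, heq.2.2⟩

theorem shift_zero (J : Set ℝ) (hne : J.Nonempty) (hoc : J.OrdConnected) (hu : J ≠ univ) (u : ℝ)
    (h1 : ∀ x ∈ J, x + u ∈ J) (h2 : ∀ x ∈ J, x - u ∈ J) : u = 0 := by
  by_contra h0
  obtain ⟨x0, hx0⟩ := hne
  have hn : ∀ n : ℕ, x0 + n * u ∈ J ∧ x0 - n * u ∈ J := by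
    intro n
    induction n with
    | zero => simpa using hx0
    | succ n ih =>
      have e1 := h1 _ ih.1
      have e2 := h2 _ ih.2
      constructor
      · convert e1 using 1
        push_cast; ring
      · convert e2 using 1
        push_cast; ring
  apply hu
  rw [eq_univ_iff_forall]
  intro y
  have hpos : 0 < |u| := abs_pos.2 h0
  obtain ⟨n, hn2⟩ := exists_nat_ge (|y - x0| / |u|)
  have h3 : |y - x0| ≤ n * |u| := by
    rwa [div_le_iff₀ hpos] at hn2
  have h4 := abs_le.1 h3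
  rcases abs_cases u with ⟨hu1, _⟩ | ⟨hu1, _⟩
  · rw [hu1] at h4
    exact hoc.out (hn n).2 (hn n).1 ⟨by linarith [h4.1], by linarith [h4.2]⟩
  · rw [hu1] at h4
    exact hoc.out (hn n).1 (hn n).2 ⟨by linarith [h4.1], by linarith [h4.2]⟩

end SameJ591

open SameJ591 in
theorem taskSameJ : TaskSameJ := by
  intro f C G hF J J' hJ hJu hmap hfin
  obtain ⟨r, hr, r', hr', hne, ha, hc, hb, hd⟩ := pigeon f C G hF hfin
  have hrp := hF.pos r hr
  have hrp' := hF.pos r' hr'
  have hdt' : dt (G r') ≠ 0 := (hF.stab r' hr').1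
  obtain ⟨u, w, huw⟩ := act_inv_act (G r) (G r') r r' hrp hrp' ha hc hb hd hdt'
  have h1 : ∀ x ∈ J, x + u ∈ J := by
    intro x hx
    have h2 : act (G r) (x, f x) ∈ GrJ f J' := by
      rw [← hmap r hr]
      exact ⟨(x, f x), ⟨hx, rfl⟩, rfl⟩
    rw [← hmap r' hr'] at h2
    obtain ⟨q, hq, hq2⟩ := h2
    have h3 := congrArg (act (inv (G r'))) hq2
    rw [act_inv hdt', huw] at h3
    have h4 := hq.1
    rw [h3] at h4
    exact h4
  have h2 : ∀ x ∈ J, x - u ∈ J := by
    intro x hx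
    have h2 : act (G r') (x, f x) ∈ GrJ f J' := by
      rw [← hmap r' hr']
      exact ⟨(x, f x), ⟨hx, rfl⟩, rfl⟩
    rw [← hmap r hr] at h2
    obtain ⟨q, hq, hq2⟩ := h2
    have h3 := congrArg (act (inv (G r'))) hq2
    rw [act_inv hdt', show q = (q.1, q.2) from rfl, huw] at h3
    have h4 := hq.1
    have h5 : q.1 + u = x := congrArg Prod.fst h3
    have h6 : x - u = q.1 := by linarith
    rw [h6]
    exact h4
  have hu0 := shift_zero J hJ.2.1 hJ.2.2 hJu u h1 h2
  have hfx : ∀ x, f x = (r / r') * f x + w := by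
    intro x
    have h3 : act (inv (G r')) (act (G r) (x, f x)) ∈ Gr f := by
      have e := (Stab.inv (hF.stab r' hr')).2 (act (G r) (x, f x))
      rw [e, (hF.stab r hr).2]
      rfl
    rw [huw, hu0, add_zero] at h3
    exact h3.symm
  have hne1 : 1 - r / r' ≠ 0 := by
    intro h
    apply hne
    have : r / r' = 1 := by linarith
    rwa [div_eq_one_iff_eq hrp'.ne'] at this
  refine ⟨w / (1 - r / r'), fun x => ?_⟩
  rw [eq_div_iff hne1]
  have := hfx x
  linarith

end Pool.Agent.H182R3.VR
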