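import Pool.Agent.H182R3.VR.Stmts

/-!
# Task Shear: the family contains arbitrarily small shears
-/

set_option autoImplicit false
open Set Filter Topology

namespace Pool.Agent.H182R3.VR

namespace ShearAux

/-- affine map fixing `E`, upper triangular in the basis `(1, p)`, `(-p, 1)` -/
noncomputable def tri (E : ℝ × ℝ) (p al be ga : ℝ) (q : ℝ × ℝ) : ℝ × ℝ :=
  (E.1 + (al * (((q.1 - E.1) + p * (q.2 - E.2)) / (1 + p ^ 2)) +
      be * (((q.2 - E.2) - p * (q.1 - E.1)) / (1 + p ^ 2))) -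
      p * (ga * (((q.2 - E.2) - p * (q.1 - E.1)) / (1 + p ^ 2))),
    E.2 + p * (al * (((q.1 - E.1) + p * (q.2 - E.2)) / (1 + p ^ 2)) +
      be * (((q.2 - E.2) - p * (q.1 - E.1)) / (1 + p ^ 2))) +
      ga * (((q.2 - E.2) - p * (q.1 - E.1)) / (1 + p ^ 2)))

lemma tri_comp (E : ℝ × ℝ) (p al be ga al' be' ga' : ℝ) (q : ℝ × ℝ) :
    tri E p al be ga (tri E p al' be' ga' q) =
      tri E p (al * al') (al * be' + be * ga') (ga * ga') q := by
  have hp2 : 1 + p ^ 2 ≠ 0 := by positivity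
  ext
  · simp only [tri]
    field_simp
    ring
  · simp only [tri]
    field_simp
    ring

lemma tri_one (E : ℝ × ℝ) (p : ℝ) (q : ℝ × ℝ) : tri E p 1 0 1 q = q := by
  have hp2 : 1 + p ^ 2 ≠ 0 := by positivity
  ext
  · simp only [tri]
    field_simp
    ring
  · simp only [tri]
    field_simp
    ring

lemma tri_shr (E : ℝ × ℝ) (p s : ℝ) (q : ℝ × ℝ) : shr E p s q = tri E p 1 (s * (1 + p ^ 2)) 1 q := by
  have hp2 : 1 + p ^ 2 ≠ 0 := by positivity
  ext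
  · simp only [tri, shr]
    field_simp
    ring
  · simp only [tri, shr]
    field_simp
    ring

/-- the stabiliser in these coordinates -/
def St (S : Set (ℝ × ℝ)) (E : ℝ × ℝ) (p al be ga : ℝ) : Prop :=
  ∀ q, tri E p al be ga q ∈ S ↔ q ∈ S

lemma St.comp {S : Set (ℝ × ℝ)} {E : ℝ × ℝ} {p al be ga al' be' ga' : ℝ}
    (h : St S E p al be ga) (h' : St S E p al' be' ga') :
    St S E p (al * al') (al * be' + be * ga') (ga * ga') := by
  intro q
  rw [← tri_comp, h, h']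

lemma St.inv {S : Set (ℝ × ℝ)} {E : ℝ × ℝ} {p al be ga : ℝ} (ha : al ≠ 0) (hg : ga ≠ 0)
    (h : St S E p al be ga) : St S E p (1 / al) (-be / (al * ga)) (1 / ga) := by
  intro q
  rw [← h (tri E p (1 / al) (-be / (al * ga)) (1 / ga) q), tri_comp]
  have e1 : al * (1 / al) = 1 := by field_simp
  have e2 : al * (-be / (al * ga)) + be * (1 / ga) = 0 := by field_simp; ring
  have e3 : ga * (1 / ga) = 1 := by field_simp
  rw [e1, e2, e3, tri_one]

/-- conjugation multiplies shears -/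
lemma St.conj {S : Set (ℝ × ℝ)} {E : ℝ × ℝ} {p al be ga s : ℝ} (ha : al ≠ 0) (hg : ga ≠ 0)
    (h : St S E p al be ga) (hs : St S E p 1 s 1) : St S E p 1 ((al / ga) * s) 1 := by
  have h1 := (h.comp hs).comp (h.inv ha hg)
  have e1 : al * 1 * (1 / al) = 1 := by field_simp
  have e2 : al * 1 * (-be / (al * ga)) + (al * s + be * 1) * (1 / ga) = (al / ga) * s := by
    field_simp; ring
  have e3 : ga * 1 * (1 / ga) = 1 := by field_simp
  rwa [e1, e2, e3] at h1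

/-- the commutator -/
lemma St.commutator {S : Set (ℝ × ℝ)} {E : ℝ × ℝ} {p al be ga al' be' ga' : ℝ}
    (ha : al ≠ 0) (hg : ga ≠ 0) (ha' : al' ≠ 0) (hg' : ga' ≠ 0)
    (h : St S E p al be ga) (h' : St S E p al' be' ga') :
    St S E p 1 ((be' * (al - ga) - be * (al' - ga')) / (ga * ga')) 1 := by
  have h1 := (h.comp h').comp ((h'.comp h).inv (mul_ne_zero ha' ha) (mul_ne_zero hg' hg))
  have e1 : al * al' * (1 / (al' * al)) = 1 := by field_simp
  have e2 : al * al' * (-(al' * be + be' * ga) / (al' * al * (ga' * ga))) +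
      (al * be' + be * ga') * (1 / (ga' * ga)) =
      (be' * (al - ga) - be * (al' - ga')) / (ga * ga') := by
    field_simp; ring
  have e3 : ga * ga' * (1 / (ga' * ga)) = 1 := by field_simp
  rwa [e1, e2, e3] at h1

lemma key_lin {a b c d a0 b0 c0 d0 r r0 p al be ga : ℝ}
    (h1 : a ^ 2 + c ^ 2 = 1) (h2 : b ^ 2 + d ^ 2 = r ^ 2) (h3 : a * b + c * d = 0)
    (k1 : a0 ^ 2 + c0 ^ 2 = 1) (k2 : b0 ^ 2 + d0 ^ 2 = r0 ^ 2) (k3 : a0 * b0 + c0 * d0 = 0)
    (u1 : a + b * p = al * (a0 + b0 * p)) (u2 : c + d * p = al * (c0 + d0 * p)) (hal : al ≠ 0)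
    (m1 : al * ga * (a0 * d0 - b0 * c0) = a * d - b * c)
    (m2 : al * (be * (1 + r0 ^ 2 * p ^ 2) + ga * (p * (r0 ^ 2 - 1))) = p * (r ^ 2 - 1)) :
    b - a * p = be * (a0 + b0 * p) + ga * (b0 - a0 * p) ∧
    d - c * p = be * (c0 + d0 * p) + ga * (d0 - c0 * p) := by
  set U1 := a0 + b0 * p with hU1
  set U2 := c0 + d0 * p with hU2
  set D1 := b - a * p - (be * U1 + ga * (b0 - a0 * p)) with hD1
  set D2 := d - c * p - (be * U2 + ga * (d0 - c0 * p)) with hD2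
  have n0 : U1 ^ 2 + U2 ^ 2 = 1 + r0 ^ 2 * p ^ 2 := by
    rw [hU1, hU2]; linear_combination k1 + 2 * p * k3 + p ^ 2 * k2
  have n1 : U1 * (b0 - a0 * p) + U2 * (d0 - c0 * p) = p * (r0 ^ 2 - 1) := by
    rw [hU1, hU2]; linear_combination (1 - p ^ 2) * k3 - p * k1 + p * k2
  have n2 : (a + b * p) * (b - a * p) + (c + d * p) * (d - c * p) = p * (r ^ 2 - 1) := by
    linear_combination (1 - p ^ 2) * h3 - p * h1 + p * h2
  have n3 : U1 * (d0 - c0 * p) - U2 * (b0 - a0 * p) = (a0 * d0 - b0 * c0) * (1 + p ^ 2) := by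
    rw [hU1, hU2]; ring
  have n4 : (a + b * p) * (d - c * p) - (c + d * p) * (b - a * p) =
      (a * d - b * c) * (1 + p ^ 2) := by ring
  have z1 : U1 * D1 + U2 * D2 = 0 := by
    apply mul_left_cancel₀ hal
    rw [u1, u2] at n2
    rw [hD1, hD2]
    linear_combination n2 - m2 - al * be * n0 - al * ga * n1
  have z2 : U1 * D2 - U2 * D1 = 0 := by
    apply mul_left_cancel₀ hal
    rw [u1, u2] at n4
    rw [hD1, hD2]
    linear_combination n4 - (1 + p ^ 2) * m1 - al * ga * n3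
  have hpos : (U1 ^ 2 + U2 ^ 2) ≠ 0 := by
    rw [n0]; positivity
  have w1 : D1 = 0 := by
    apply mul_left_cancel₀ hpos
    linear_combination U1 * z1 - U2 * z2
  have w2 : D2 = 0 := by
    apply mul_left_cancel₀ hpos
    linear_combination U2 * z1 + U1 * z2
  exact ⟨sub_eq_zero.mp w1, sub_eq_zero.mp w2⟩

lemma dt_sq {r : ℝ} {g : Aff} (h : IsT r g) : dt g ^ 2 = r ^ 2 := by
  obtain ⟨h1, h2, h3⟩ := h
  have : dt g ^ 2 = (g.a ^ 2 + g.c ^ 2) * (g.b ^ 2 + g.d ^ 2) - (g.a * g.b + g.c * g.d) ^ 2 := by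
    simp only [dt]; ring
  rw [this, h1, h2, h3]; ring

/-- the maps `inv (G c0) ∘ G c` -/
lemma mk {f : ℝ → ℝ} {g0 g : Aff} {r0 r : ℝ} (hr0 : 0 < r0) (hr : 0 < r)
    (s0 : g0 ∈ Stab (Gr f)) (s : g ∈ Stab (Gr f)) (i0 : IsT r0 g0) (i : IsT r g)
    {E E' w : ℝ × ℝ} {p : ℝ} (hE0 : act g0 E = E') (hE : act g E = E') {t0 t : ℝ}
    (hw0 : lin g0 (1, p) = t0 • w) (hw : lin g (1, p) = t • w)
    (ht : decide (0 < t0) = decide (0 < t)) (hd : decide (0 < dt g0) = decide (0 < dt g)) :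
    ∃ al be ga : ℝ, 0 < al ∧ 0 < ga ∧ St (Gr f) E p al be ga ∧
      al ^ 2 * (1 + r0 ^ 2 * p ^ 2) = 1 + r ^ 2 * p ^ 2 ∧ al * ga * r0 = r ∧
      al * be * (1 + r0 ^ 2 * p ^ 2) * r0 = p * (r - r0) * (r * r0 + 1) := by
  have hn0 : (0 : ℝ) < 1 + r0 ^ 2 * p ^ 2 := by positivity
  have hn : (0 : ℝ) < 1 + r ^ 2 * p ^ 2 := by positivity
  have hw01 := congrArg Prod.fst hw0
  have hw02 := congrArg Prod.snd hw0
  have hw1 := congrArg Prod.fst hw
  have hw2 := congrArg Prod.snd hw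
  simp only [lin, Prod.smul_fst, Prod.smul_snd, smul_eq_mul, mul_one] at hw01 hw02 hw1 hw2
  obtain ⟨i01, i02, i03⟩ := id i0
  obtain ⟨i1, i2, i3⟩ := id i
  have q0 : t0 ^ 2 * (w.1 ^ 2 + w.2 ^ 2) = 1 + r0 ^ 2 * p ^ 2 := by
    have : t0 ^ 2 * (w.1 ^ 2 + w.2 ^ 2) = (t0 * w.1) ^ 2 + (t0 * w.2) ^ 2 := by ring
    rw [this, ← hw01, ← hw02]
    linear_combination i01 + 2 * p * i03 + p ^ 2 * i02
  have q1 : t ^ 2 * (w.1 ^ 2 + w.2 ^ 2) = 1 + r ^ 2 * p ^ 2 := by
    have : t ^ 2 * (w.1 ^ 2 + w.2 ^ 2) = (t * w.1) ^ 2 + (t * w.2) ^ 2 := by ring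
    rw [this, ← hw1, ← hw2]
    linear_combination i1 + 2 * p * i3 + p ^ 2 * i2
  have ht0 : t0 ≠ 0 := by
    rintro rfl
    rw [zero_pow two_ne_zero, zero_mul] at q0
    exact hn0.ne q0
  have ht1 : t ≠ 0 := by
    rintro rfl
    rw [zero_pow two_ne_zero, zero_mul] at q1
    exact hn.ne q1
  have hal : 0 < t / t0 := by
    rw [decide_eq_decide] at ht
    rcases lt_or_gt_of_ne ht0 with h | h
    · have : ¬ 0 < t := fun h' => absurd (ht.mpr h') (not_lt.mpr h.le)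
      have h' : t < 0 := lt_of_le_of_ne (not_lt.mp this) ht1
      exact div_pos_of_neg_of_neg h' h
    · exact div_pos (ht.mp h) h
  set al := t / t0 with hal_def
  have hWne : w.1 ^ 2 + w.2 ^ 2 ≠ 0 := by
    intro h
    rw [h, mul_zero] at q0
    exact hn0.ne q0
  have a1 : al ^ 2 * (1 + r0 ^ 2 * p ^ 2) = 1 + r ^ 2 * p ^ 2 := by
    rw [← q0, ← q1, hal_def]
    field_simp
  -- the determinants
  have d0 := dt_sq i0
  have d1 := dt_sq i
  have hd0 : dt g0 ≠ 0 := s0.1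
  have hd1 : dt g ≠ 0 := s.1
  have hdd : dt g * r0 = dt g0 * r := by
    rw [decide_eq_decide] at hd
    rcases sq_eq_sq_iff_eq_or_eq_neg.mp d0 with h0 | h0 <;>
      rcases sq_eq_sq_iff_eq_or_eq_neg.mp d1 with h | h
    · rw [h0, h]; ring
    · exfalso
      have : 0 < dt g := hd.mp (by rw [h0]; exact hr0)
      rw [h] at this
      linarith
    · exfalso
      have : 0 < dt g0 := hd.mpr (by rw [h]; exact hr)
      rw [h0] at this
      linarith
    · rw [h0, h]; ring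
  set ga := r / (r0 * al) with hga
  have hgapos : 0 < ga := by positivity
  set be := p * (r - r0) * (r * r0 + 1) / (al * (1 + r0 ^ 2 * p ^ 2) * r0) with hbe
  have a2 : al * ga * r0 = r := by rw [hga]; field_simp
  have a3 : al * be * (1 + r0 ^ 2 * p ^ 2) * r0 = p * (r - r0) * (r * r0 + 1) := by
    rw [hbe]; field_simp
  have hlin := key_lin (a := g.a) (b := g.b) (c := g.c) (d := g.d) (a0 := g0.a) (b0 := g0.b)
    (c0 := g0.c) (d0 := g0.d) (r := r) (r0 := r0) (p := p) (al := al) (be := be) (ga := ga)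
    i1 i2 i3 i01 i02 i03
    (by rw [hw1, hw01, hal_def]; field_simp)
    (by rw [hw2, hw02, hal_def]; field_simp) hal.ne'
    (by
      have h : dt g = al * ga * dt g0 := by
        apply mul_right_cancel₀ hr0.ne'
        rw [hdd]
        linear_combination -(dt g0) * a2
      simp only [dt] at h
      rw [h])
    (by
      apply mul_right_cancel₀ hr0.ne'
      linear_combination a3 + (p * (r0 ^ 2 - 1)) * a2)
  obtain ⟨l1, l2⟩ := hlin
  refine ⟨al, be, ga, hal, hgapos, ?_, a1, a2, a3⟩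
  intro q
  have hact : act g0 (tri E p al be ga q) = act g q := by
    have e1 := congrArg Prod.fst (hE0.trans hE.symm)
    have e2 := congrArg Prod.snd (hE0.trans hE.symm)
    simp only [act] at e1 e2
    have hp2 : 1 + p ^ 2 ≠ 0 := by positivity
    have hu1 : g.a + g.b * p = al * (g0.a + g0.b * p) := by rw [hw1, hw01, hal_def]; field_simp
    have hu2 : g.c + g.d * p = al * (g0.c + g0.d * p) := by rw [hw2, hw02, hal_def]; field_simp
    have hq1 : q.1 = E.1 + ((q.1 - E.1) + p * (q.2 - E.2)) / (1 + p ^ 2) -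
        p * (((q.2 - E.2) - p * (q.1 - E.1)) / (1 + p ^ 2)) := by field_simp; ring
    have hq2 : q.2 = E.2 + p * (((q.1 - E.1) + p * (q.2 - E.2)) / (1 + p ^ 2)) +
        ((q.2 - E.2) - p * (q.1 - E.1)) / (1 + p ^ 2) := by field_simp; ring
    ext
    · simp only [act, tri]
      generalize ((q.1 - E.1) + p * (q.2 - E.2)) / (1 + p ^ 2) = X at hq1 hq2 ⊢
      generalize ((q.2 - E.2) - p * (q.1 - E.1)) / (1 + p ^ 2) = Y at hq1 hq2 ⊢
      rw [hq1, hq2]
      linear_combination e1 - X * hu1 - Y * l1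
    · simp only [act, tri]
      generalize ((q.1 - E.1) + p * (q.2 - E.2)) / (1 + p ^ 2) = X at hq1 hq2 ⊢
      generalize ((q.2 - E.2) - p * (q.1 - E.1)) / (1 + p ^ 2) = Y at hq1 hq2 ⊢
      rw [hq1, hq2]
      linear_combination e2 - X * hu2 - Y * l2
  rw [← s0.2, hact, s.2]

lemma small {S : Set (ℝ × ℝ)} {E : ℝ × ℝ} {p rho s : ℝ} (h0 : 0 < rho) (h1 : rho < 1)
    (hs0 : s ≠ 0) (hs : St S E p 1 s 1) (hm : ∀ x, St S E p 1 x 1 → St S E p 1 (rho * x) 1)
    (ε : ℝ) (hε : 0 < ε) : ∃ x : ℝ, 0 < |x| ∧ |x| < ε ∧ St S E p 1 x 1 := by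
  obtain ⟨n, hn⟩ := exists_pow_lt_of_lt_one (div_pos hε (abs_pos.mpr hs0)) h1
  have hall : ∀ n : ℕ, St S E p 1 (rho ^ n * s) 1 := by
    intro n
    induction n with
    | zero => simpa using hs
    | succ n ih =>
      have := hm _ ih
      rwa [← mul_assoc, ← pow_succ'] at this
  refine ⟨rho ^ n * s, ?_, ?_, hall n⟩
  · rw [abs_pos]
    exact mul_ne_zero (pow_ne_zero n h0.ne') hs0
  · rw [abs_mul, abs_of_pos (pow_pos h0 n)]
    rwa [lt_div_iff₀ (abs_pos.mpr hs0)] at hn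

end ShearAux

open ShearAux in
theorem taskShear : TaskShear := by
  intro f C G hF E E' w p hE hp hw hτ ε hε
  choose! τ hτ using hτ
  have hCinf : C.Infinite := fun h => hF.unc h.countable
  -- equal signs
  set key : ℝ → Bool × Bool := fun r => (decide (0 < τ r), decide (0 < dt (G r))) with hkey
  obtain ⟨b, hb⟩ : ∃ b : Bool × Bool, {r ∈ C | key r = b}.Infinite := by
    by_contra hcon
    push Not at hcon
    apply hCinf
    apply (Set.finite_iUnion (fun b => hcon b)).subset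
    intro r hr
    rw [Set.mem_iUnion]
    exact ⟨key r, hr, rfl⟩
  obtain ⟨r0, hr0C, hr0b⟩ := hb.nonempty
  have hr0 := hF.pos r0 hr0C
  obtain ⟨r1, ⟨hr1C, hr1b⟩, hr1n⟩ := (hb.sdiff (Set.toFinite {r0, 1 / (r0 * p ^ 2)})).nonempty
  have hr1 := hF.pos r1 hr1C
  obtain ⟨r2, ⟨hr2C, hr2b⟩, hr2n⟩ := (hb.sdiff (Set.toFinite {r0, r1})).nonempty
  have hr2 := hF.pos r2 hr2C
  simp only [Set.mem_insert_iff, Set.mem_singleton_iff, not_or] at hr1n hr2n
  have hk1 : key r0 = key r1 := hr0b.trans hr1b.symm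
  have hk2 : key r0 = key r2 := hr0b.trans hr2b.symm
  simp only [hkey, Prod.mk.injEq] at hk1 hk2
  obtain ⟨al, be, ga, hal, hga, hst, m1, m2, m3⟩ := mk hr0 hr1 (hF.stab r0 hr0C)
    (hF.stab r1 hr1C) (hF.isT r0 hr0C) (hF.isT r1 hr1C) (hE r0 hr0C) (hE r1 hr1C) (hτ r0 hr0C)
    (hτ r1 hr1C) hk1.1 hk1.2
  obtain ⟨al', be', ga', hal', hga', hst', m1', m2', m3'⟩ := mk hr0 hr2 (hF.stab r0 hr0C)
    (hF.stab r2 hr2C) (hF.isT r0 hr0C) (hF.isT r2 hr2C) (hE r0 hr0C) (hE r2 hr2C) (hτ r0 hr0C)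
    (hτ r2 hr2C) hk2.1 hk2.2
  have hn0 : (0 : ℝ) < 1 + r0 ^ 2 * p ^ 2 := by positivity
  have hp2 : 0 < p ^ 2 := by positivity
  -- the differences of the diagonal entries
  have v1 : al * (al - ga) * (r0 * (1 + r0 ^ 2 * p ^ 2)) = (r1 - r0) * (r1 * r0 * p ^ 2 - 1) := by
    linear_combination r0 * m1 - (1 + r0 ^ 2 * p ^ 2) * m2
  have v2 : al' * (al' - ga') * (r0 * (1 + r0 ^ 2 * p ^ 2)) =
      (r2 - r0) * (r2 * r0 * p ^ 2 - 1) := by
    linear_combination r0 * m1' - (1 + r0 ^ 2 * p ^ 2) * m2'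
  have n1 : r1 - r0 ≠ 0 := sub_ne_zero.mpr hr1n.1
  have n2 : r2 - r0 ≠ 0 := sub_ne_zero.mpr hr2n.1
  have n3 : r1 * r0 * p ^ 2 - 1 ≠ 0 := by
    intro h
    apply hr1n.2
    field_simp
    linear_combination h
  have hne : al ≠ ga := by
    intro h
    rw [h, sub_self, mul_zero, zero_mul] at v1
    exact (mul_ne_zero n1 n3) v1.symm
  have hcomm : be' * (al - ga) - be * (al' - ga') ≠ 0 := by
    intro h
    have h1 : (be' * (al - ga) - be * (al' - ga')) * (al * al' * (r0 * (1 + r0 ^ 2 * p ^ 2)) ^ 2) =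
        (p * (r2 - r0) * (r2 * r0 + 1)) * ((r1 - r0) * (r1 * r0 * p ^ 2 - 1)) -
        (p * (r1 - r0) * (r1 * r0 + 1)) * ((r2 - r0) * (r2 * r0 * p ^ 2 - 1)) := by
      rw [← v1, ← v2, ← m3, ← m3']
      ring
    rw [h, zero_mul] at h1
    have h2 : (p * (r2 - r0) * (r2 * r0 + 1)) * ((r1 - r0) * (r1 * r0 * p ^ 2 - 1)) -
        (p * (r1 - r0) * (r1 * r0 + 1)) * ((r2 - r0) * (r2 * r0 * p ^ 2 - 1)) =
        p * (r2 - r0) * (r1 - r0) * (r0 * (1 + p ^ 2)) * (r1 - r2) := by ring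
    rw [h2] at h1
    have h3 : r1 - r2 ≠ 0 := sub_ne_zero.mpr (fun h => hr2n.2 h.symm)
    exact (mul_ne_zero (mul_ne_zero (mul_ne_zero (mul_ne_zero hp n2) n1)
      (mul_ne_zero hr0.ne' (by positivity))) h3) h1.symm
  have hs := St.commutator hal.ne' hga.ne' hal'.ne' hga'.ne' hst hst'
  have hs0 : (be' * (al - ga) - be * (al' - ga')) / (ga * ga') ≠ 0 :=
    div_ne_zero hcomm (mul_ne_zero hga.ne' hga'.ne')
  have hε' : 0 < ε * (1 + p ^ 2) := by positivity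
  have hfin : ∃ x : ℝ, 0 < |x| ∧ |x| < ε * (1 + p ^ 2) ∧ St (Gr f) E p 1 x 1 := by
    rcases lt_or_gt_of_ne hne with h | h
    · exact small (div_pos hal hga) ((div_lt_one hga).mpr h) hs0 hs
        (fun x hx => hst.conj hal.ne' hga.ne' hx) _ hε'
    · refine small (div_pos hga hal) ((div_lt_one hal).mpr h) hs0 hs (fun x hx => ?_) _ hε'
      have h1 := (hst.inv hal.ne' hga.ne').conj (one_div_ne_zero hal.ne')
        (one_div_ne_zero hga.ne') hx
      have e : 1 / al / (1 / ga) = ga / al := by field_simp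
      rwa [e] at h1
  obtain ⟨x, hx1, hx2, hx3⟩ := hfin
  have hpp : (0 : ℝ) < 1 + p ^ 2 := by positivity
  refine ⟨x / (1 + p ^ 2), ?_, ?_, ?_⟩
  · rw [abs_div, abs_of_pos hpp]
    positivity
  · rw [abs_div, abs_of_pos hpp, div_lt_iff₀ hpp]
    exact hx2
  · intro q
    rw [tri_shr, div_mul_cancel₀ _ hpp.ne']
    exact hx3 q

end Pool.Agent.H182R3.VR
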