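import Pool.Agent.H182R3.VR.Stmts

set_option autoImplicit false

open Set Filter Topology

namespace Pool.Agent.H182R3.VR

theorem tri_key (f : ℝ → ℝ) (α β : ℝ) (hαβ : α < β) (hf : ContinuousOn f (Ioo α β)) (y : ℝ)
    (ha : liminf (fun x => (f x : EReal)) (𝓝[>] α) < y)
    (hb : (y : EReal) < limsup (fun x => (f x : EReal)) (𝓝[>] α)) :
    MapClusterPt y (𝓝[>] α) f := by
  have hfr : ∃ᶠ x in 𝓝[>] α, f x = y := by
    rw [Filter.frequently_iff]
    intro U hU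
    obtain ⟨γ, hγ, hsub⟩ := mem_nhdsGT_iff_exists_Ioo_subset.1 hU
    have hγ' : α < γ := hγ
    have hA : ∃ᶠ x in 𝓝[>] α, (f x : EReal) < y := frequently_lt_of_liminf_lt (by isBoundedDefault) ha
    have hB : ∃ᶠ x in 𝓝[>] α, (y : EReal) < f x :=
      frequently_lt_of_lt_limsup (by isBoundedDefault) hb
    have hmem : Ioo α (min γ β) ∈ 𝓝[>] α := Ioo_mem_nhdsGT (lt_min hγ' hαβ)
    obtain ⟨x₁, h1, h1'⟩ := (hA.and_eventually hmem).exists
    obtain ⟨x₂, h2, h2'⟩ := (hB.and_eventually hmem).exists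
    have h3 : f x₁ < y := by exact_mod_cast h1
    have h4 : y < f x₂ := by exact_mod_cast h2
    have hseg : uIcc x₁ x₂ ⊆ Ioo α (min γ β) := by
      intro z hz
      rw [mem_uIcc] at hz
      rcases hz with hz | hz
      · exact ⟨h1'.1.trans_le hz.1, hz.2.trans_lt h2'.2⟩
      · exact ⟨h2'.1.trans_le hz.1, hz.2.trans_lt h1'.2⟩
    have hc : ContinuousOn f (uIcc x₁ x₂) := hf.mono fun z hz =>
      ⟨(hseg hz).1, (hseg hz).2.trans_le (min_le_right _ _)⟩
    obtain ⟨z, hz, hzy⟩ := intermediate_value_uIcc hc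
      (show y ∈ uIcc (f x₁) (f x₂) from mem_uIcc.2 (Or.inl ⟨h3.le, h4.le⟩))
    exact ⟨z, hsub ⟨(hseg hz).1, (hseg hz).2.trans_le (min_le_left _ _)⟩, hzy⟩
  rw [mapClusterPt_iff_frequently]
  intro s hs
  exact hfr.mono fun x hx => by rw [hx]; exact mem_of_mem_nhds hs

theorem taskTri : TaskTri := by
  intro f α β hαβ hf
  by_cases hlu : liminf (fun x => (f x : EReal)) (𝓝[>] α) =
      limsup (fun x => (f x : EReal)) (𝓝[>] α)
  · have ht : Tendsto (fun x => (f x : EReal)) (𝓝[>] α)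
        (𝓝 (limsup (fun x => (f x : EReal)) (𝓝[>] α))) :=
      tendsto_of_liminf_eq_limsup hlu rfl
    generalize limsup (fun x => (f x : EReal)) (𝓝[>] α) = L at ht
    induction L using EReal.rec with
    | bot => exact Or.inr (Or.inl (EReal.tendsto_coe_nhds_bot_iff.1 ht))
    | coe k => exact Or.inr (Or.inr (Or.inl ⟨k, EReal.tendsto_coe.1 ht⟩))
    | top => exact Or.inl (EReal.tendsto_coe_nhds_top_iff.1 ht)
  · have hlt := lt_of_le_of_ne (liminf_le_limsup (f := 𝓝[>] α)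
      (u := fun x => (f x : EReal))) hlu
    obtain ⟨y₁, h1, h2⟩ := EReal.lt_iff_exists_real_btwn.1 hlt
    obtain ⟨y₂, h3, h4⟩ := EReal.lt_iff_exists_real_btwn.1 h2
    have h5 : y₁ < y₂ := by exact_mod_cast h3
    exact Or.inr (Or.inr (Or.inr ⟨y₁, y₂, h5.ne, tri_key f α β hαβ hf y₁ h1 h2,
      tri_key f α β hαβ hf y₂ (h1.trans h3) h4⟩))

end Pool.Agent.H182R3.VR
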