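import Pool.Agent.H182R3.VR.Stmts

/-!
# Task Vel of the project on vertically rigid functions (helper78)

An uncountable family of maps with a fixed image of a point gives an infinitesimal element.
-/

set_option autoImplicit false
open Set Filter Topology

namespace Pool.Agent.H182R3.VR

namespace VelAux

/-- an uncountable set in a second countable metric space accumulates at one of its points -/
theorem exists_acc {E : Type*} [MetricSpace E] [SecondCountableTopology E] (S : Set E)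
    (hS : ¬ S.Countable) : ∃ x ∈ S, ∃ u : ℕ → E, (∀ n, u n ∈ S ∧ u n ≠ x) ∧
      Tendsto u atTop (𝓝 x) := by
  by_contra hcon
  push Not at hcon
  apply hS
  have hd : DiscreteTopology S := by
    rw [discreteTopology_subtype_iff]
    intro x hx
    by_contra hne
    have h1 : AccPt x (𝓟 S) := ⟨hne⟩
    rw [accPt_principal_iff_clusterPt, ← mem_closure_iff_clusterPt, mem_closure_iff_seq_limit]
      at h1
    obtain ⟨u, hu, hlim⟩ := h1
    exact hcon x hx u (fun n => ⟨(hu n).1, fun h => (hu n).2 h⟩) hlim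
  have : Countable S := TopologicalSpace.separableSpace_iff_countable.mp inferInstance
  exact Set.countable_coe_iff.mp this

theorem isT_d {r : ℝ} {g : Aff} (h : IsT r g) : g.d = dt g * g.a := by
  obtain ⟨h1, h2, h3⟩ := h
  simp only [dt]
  linear_combination (-g.d) * h1 + g.c * h3

theorem isT_b {r : ℝ} {g : Aff} (h : IsT r g) : g.b = -(dt g * g.c) := by
  obtain ⟨h1, h2, h3⟩ := h
  simp only [dt]
  linear_combination (-g.b) * h1 + g.a * h3

theorem isT_sq {r : ℝ} {g : Aff} (h : IsT r g) : dt g ^ 2 = r ^ 2 := by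
  obtain ⟨h1, h2, h3⟩ := h
  simp only [dt]
  linear_combination (g.b ^ 2 + g.d ^ 2) * h1 + h2 - (g.a * g.b + g.c * g.d) * h3

end VelAux

open VelAux in
theorem taskVel : TaskVel := by
  intro f C G P E' hF hE
  -- the accumulation point
  obtain ⟨x, hx, u, hu, hlim⟩ := exists_acc
    ((fun r : ℝ => ((r, (G r).a, (G r).b, (G r).c, (G r).d) : ℝ × ℝ × ℝ × ℝ × ℝ)) '' C) (by
      intro hc
      apply hF.unc
      have := hc.image (fun p : ℝ × ℝ × ℝ × ℝ × ℝ => p.1)
      rw [Set.image_image] at this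
      simpa using this)
  obtain ⟨r₀, hr₀, rfl⟩ := hx
  have hex : ∀ n, ∃ r ∈ C, (fun r : ℝ => ((r, (G r).a, (G r).b, (G r).c, (G r).d) :
      ℝ × ℝ × ℝ × ℝ × ℝ)) r = u n := fun n => (hu n).1
  choose ρ hρC hρu using hex
  have hρne : ∀ n, ρ n ≠ r₀ := by
    intro n h
    apply (hu n).2
    rw [← hρu n, h]
  have hulim : u = fun n => ((ρ n, (G (ρ n)).a, (G (ρ n)).b, (G (ρ n)).c, (G (ρ n)).d) :
      ℝ × ℝ × ℝ × ℝ × ℝ) := funext fun n => (hρu n).symm
  rw [hulim] at hlim
  have hlim' := hlim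
  rw [Prod.tendsto_iff] at hlim'
  obtain ⟨_, hlim'⟩ := hlim'
  rw [Prod.tendsto_iff] at hlim'
  obtain ⟨hla, hlim'⟩ := hlim'
  rw [Prod.tendsto_iff] at hlim'
  obtain ⟨hlb, hlim'⟩ := hlim'
  rw [Prod.tendsto_iff] at hlim'
  obtain ⟨hlc, hld⟩ := hlim'
  simp only at hla hlb hlc hld
  -- notation
  have hT0 := hF.isT r₀ hr₀
  have hp0 := hF.pos r₀ hr₀
  have hst0 := hF.stab r₀ hr₀
  have hD0 : dt (G r₀) ≠ 0 := hst0.1
  set g := G r₀ with hg
  set D := dt g with hD
  have hDsq : D ^ 2 = r₀ ^ 2 := isT_sq hT0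
  have hDlim : Tendsto (fun n => dt (G (ρ n))) atTop (𝓝 D) := by
    rw [hD]
    exact (hla.mul hld).sub (hlb.mul hlc)
  set gs : ℕ → Aff := fun n => comp (inv g) (G (ρ n)) with hgs
  have hgsS : ∀ n, gs n ∈ Stab (Gr f) := fun n =>
    Stab.comp (Stab.inv hst0) (hF.stab (ρ n) (hρC n))
  -- the entries
  have ha : ∀ n, (gs n).a = g.a * (G (ρ n)).a + g.c * (G (ρ n)).c := by
    intro n
    have e : (gs n).a = g.d / D * (G (ρ n)).a + -g.b / D * (G (ρ n)).c := rfl
    rw [e, isT_d hT0, isT_b hT0]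
    rw [← hD]
    field_simp
  have hc : ∀ n, (gs n).c = (g.a * (G (ρ n)).c - g.c * (G (ρ n)).a) / D := by
    intro n
    have e : (gs n).c = -g.c / D * (G (ρ n)).a + g.a / D * (G (ρ n)).c := rfl
    rw [e]
    ring
  have hb : ∀ n, (gs n).b = -(dt (G (ρ n)) * D * (gs n).c) := by
    intro n
    have e : (gs n).b = g.d / D * (G (ρ n)).b + -g.b / D * (G (ρ n)).d := rfl
    rw [e, hc, isT_d hT0, isT_b hT0, isT_d (hF.isT (ρ n) (hρC n)),
      isT_b (hF.isT (ρ n) (hρC n))]
    rw [← hD]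
    field_simp
    ring
  have hd : ∀ n, (gs n).d = dt (G (ρ n)) / D * (gs n).a := by
    intro n
    have e : (gs n).d = -g.c / D * (G (ρ n)).b + g.a / D * (G (ρ n)).d := rfl
    rw [e, ha, isT_d (hF.isT (ρ n) (hρC n)), isT_b (hF.isT (ρ n) (hρC n))]
    ring
  have hac : ∀ n, (gs n).a ^ 2 + D ^ 2 * (gs n).c ^ 2 = 1 := by
    intro n
    rw [ha, hc, div_pow]
    have h1 := hT0.1
    have h2 := (hF.isT (ρ n) (hρC n)).1
    field_simp
    linear_combination (G (ρ n)).a ^ 2 * h1 + (G (ρ n)).c ^ 2 * h1 + h2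
  -- limits of the entries
  have hla1 : Tendsto (fun n => (gs n).a) atTop (𝓝 1) := by
    have h1 : Tendsto (fun n => g.a * (G (ρ n)).a + g.c * (G (ρ n)).c) atTop
        (𝓝 (g.a * g.a + g.c * g.c)) :=
      (tendsto_const_nhds.mul hla).add (tendsto_const_nhds.mul hlc)
    have h2 : g.a * g.a + g.c * g.c = 1 := by linarith [hT0.1, sq g.a, sq g.c]
    rw [h2] at h1
    exact h1.congr fun n => (ha n).symm
  have hlc1 : Tendsto (fun n => (gs n).c) atTop (𝓝 0) := by
    have h1 : Tendsto (fun n => (g.a * (G (ρ n)).c - g.c * (G (ρ n)).a) / D) atTop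
        (𝓝 ((g.a * g.c - g.c * g.a) / D)) :=
      ((tendsto_const_nhds.mul hlc).sub (tendsto_const_nhds.mul hla)).div_const D
    have h2 : (g.a * g.c - g.c * g.a) / D = 0 := by ring
    rw [h2] at h1
    exact h1.congr fun n => (hc n).symm
  have hld1 : Tendsto (fun n => (gs n).d) atTop (𝓝 1) := by
    have h1 : Tendsto (fun n => dt (G (ρ n)) / D * (gs n).a) atTop (𝓝 (D / D * 1)) :=
      (hDlim.div_const D).mul hla1
    have h2 : D / D * 1 = 1 := by rw [div_self hD0, mul_one]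
    rw [h2] at h1
    exact h1.congr fun n => (hd n).symm
  -- the scale
  set ε : ℕ → ℝ := fun n => |(gs n).c| + |(gs n).d - 1| with hε
  have hεpos : ∀ n, 0 < ε n := by
    intro n
    by_contra hcon
    push Not at hcon
    have h1 : |(gs n).c| = 0 := by
      have := abs_nonneg (gs n).c
      have := abs_nonneg ((gs n).d - 1)
      have : |(gs n).c| + |(gs n).d - 1| ≤ 0 := hcon
      linarith
    have h2 : |(gs n).d - 1| = 0 := by
      have := abs_nonneg (gs n).c
      have := abs_nonneg ((gs n).d - 1)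
      have : |(gs n).c| + |(gs n).d - 1| ≤ 0 := hcon
      linarith
    have h3 : (gs n).c = 0 := abs_eq_zero.mp h1
    have h4 : (gs n).d = 1 := by linarith [abs_eq_zero.mp h2]
    have h5 : (gs n).a ^ 2 = 1 := by
      have := hac n
      rw [h3] at this
      linarith
    have h6 : dt (G (ρ n)) * (gs n).a = D := by
      have := hd n
      rw [h4] at this
      field_simp at this
      linarith
    have h7 : dt (G (ρ n)) ^ 2 = D ^ 2 := by
      rw [← h6, mul_pow, h5, mul_one]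
    rw [isT_sq (hF.isT (ρ n) (hρC n)), hDsq] at h7
    have h8 := hF.pos (ρ n) (hρC n)
    exact hρne n ((pow_left_inj₀ h8.le hp0.le two_ne_zero).mp h7)
  have hεlim : Tendsto ε atTop (𝓝 0) := by
    have h1 : Tendsto (fun n => |(gs n).c| + |(gs n).d - 1|) atTop (𝓝 (|(0 : ℝ)| + |(1 : ℝ) - 1|)) :=
      hlc1.abs.add (hld1.sub_const 1).abs
    simpa using h1
  -- compactness
  obtain ⟨z, hz, φ, hφ, hφlim⟩ := (isCompact_Icc (a := (-1 : ℝ)) (b := 1)).prod
    (isCompact_Icc (a := (-1 : ℝ)) (b := 1)) |>.tendsto_subseq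
    (x := fun n => ((gs n).c / ε n, ((gs n).d - 1) / ε n)) (by
      intro n
      have h0 := hεpos n
      have hc1 := abs_nonneg (gs n).c
      have hd1 := abs_nonneg ((gs n).d - 1)
      have h1 : |(gs n).c / ε n| ≤ 1 := by
        rw [abs_div, abs_of_pos h0, div_le_one h0]
        simp only [hε]
        linarith
      have h2 : |((gs n).d - 1) / ε n| ≤ 1 := by
        rw [abs_div, abs_of_pos h0, div_le_one h0]
        simp only [hε]
        linarith
      exact ⟨abs_le.mp h1, abs_le.mp h2⟩)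
  have hφc : Tendsto (fun n => (gs (φ n)).c / ε (φ n)) atTop (𝓝 z.1) :=
    (Prod.tendsto_iff _ _).mp hφlim |>.1
  have hφd : Tendsto (fun n => ((gs (φ n)).d - 1) / ε (φ n)) atTop (𝓝 z.2) :=
    (Prod.tendsto_iff _ _).mp hφlim |>.2
  have hφt := hφ.tendsto_atTop
  have hφa : Tendsto (fun n => ((gs (φ n)).a - 1) / ε (φ n)) atTop (𝓝 0) := by
    have h1 : Tendsto (fun n => -(D ^ 2 * (gs (φ n)).c * ((gs (φ n)).c / ε (φ n))) /
        ((gs (φ n)).a + 1)) atTop (𝓝 (-(D ^ 2 * 0 * z.1) / (1 + 1))) :=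
      (((tendsto_const_nhds.mul (hlc1.comp hφt)).mul hφc).neg).div
        ((hla1.comp hφt).add_const 1) (by norm_num)
    have h2 : -(D ^ 2 * 0 * z.1) / (1 + 1) = 0 := by ring
    rw [h2] at h1
    refine h1.congr' ?_
    have h3 : ∀ᶠ n in atTop, 0 < (gs (φ n)).a :=
      (hla1.comp hφt).eventually (lt_mem_nhds one_pos)
    filter_upwards [h3] with n hn
    have h4 : (gs (φ n)).a + 1 ≠ 0 := by linarith
    have h5 := (hεpos (φ n)).ne'
    have h6 := hac (φ n)
    field_simp
    linear_combination (-1 : ℝ) * h6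
  have hφb : Tendsto (fun n => (gs (φ n)).b / ε (φ n)) atTop (𝓝 (-(r₀ ^ 2 * z.1))) := by
    have h1 : Tendsto (fun n => -(dt (G (ρ (φ n))) * D * ((gs (φ n)).c / ε (φ n)))) atTop
        (𝓝 (-(D * D * z.1))) :=
      (((hDlim.comp hφt).mul_const D).mul hφc).neg
    have h2 : -(D * D * z.1) = -(r₀ ^ 2 * z.1) := by rw [← hDsq]; ring
    rw [h2] at h1
    refine h1.congr fun n => ?_
    rw [hb (φ n)]
    ring
  -- the fixed point
  have hfix : ∀ n, act (gs n) P = P := by
    intro n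
    simp only [hgs]
    rw [act_comp, hE (ρ n) (hρC n), ← hE r₀ hr₀, act_inv hD0]
  have hfe : ∀ n, (gs n).e = -(((gs n).a - 1) * P.1) - (gs n).b * P.2 := by
    intro n
    have := congrArg Prod.fst (hfix n)
    simp only [act] at this
    linarith
  have hfk : ∀ n, (gs n).k = -((gs n).c * P.1) - ((gs n).d - 1) * P.2 := by
    intro n
    have := congrArg Prod.snd (hfix n)
    simp only [act] at this
    linarith
  refine ⟨fun n => gs (φ n), fun n => ε (φ n),
    ⟨0, -(r₀ ^ 2 * z.1), z.1, z.2, -(0 * P.1) - -(r₀ ^ 2 * z.1) * P.2,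
      -(z.1 * P.1) - z.2 * P.2⟩, r₀, fun n => hgsS _, fun n => hεpos _, hεlim.comp hφt,
    ⟨hφa, hφb, hφc, hφd, ?_, ?_⟩, hp0, rfl, rfl, ?_, ?_⟩
  · have h1 := ((hφa.mul_const P.1).neg).sub (hφb.mul_const P.2)
    refine h1.congr fun n => ?_
    rw [hfe]
    ring
  · have h1 := ((hφc.mul_const P.1).neg).sub (hφd.mul_const P.2)
    refine h1.congr fun n => ?_
    rw [hfk]
    ring
  · ext
    · simp only [act, Prod.fst_zero]
      ring
    · simp only [act, Prod.snd_zero]
      ring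
  · by_contra hcon
    push Not at hcon
    obtain ⟨h1, h2⟩ := hcon
    simp only at h1 h2
    have h3 : Tendsto (fun n => |(gs (φ n)).c / ε (φ n)| + |((gs (φ n)).d - 1) / ε (φ n)|) atTop
        (𝓝 (|z.1| + |z.2|)) := hφc.abs.add hφd.abs
    have h4 : ∀ n, |(gs (φ n)).c / ε (φ n)| + |((gs (φ n)).d - 1) / ε (φ n)| = 1 := by
      intro n
      have h0 := hεpos (φ n)
      rw [abs_div, abs_div, abs_of_pos h0, ← add_div]
      exact div_self h0.ne'
    simp only [h4] at h3
    have h5 := tendsto_nhds_unique h3 tendsto_const_nhds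
    rw [h1, h2] at h5
    simp at h5

end Pool.Agent.H182R3.VR
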